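import Pool.Agent.U552.CN.Main

/-!
Squarefree congruent numbers in short intervals, in residue classes, with prescribed fractional parts of real polynomials.
-/

set_option autoImplicit false

namespace Pool.Agent.U552.CN

open Finset Polynomial

lemma nn_real {M u : ℕ} (hM : 1 ≤ M) (hu : 1 ≤ u) : ((nn M u : ℕ) : ℝ) = 16 * (M : ℝ) ^ 4 * (u : ℝ) ^ 3 - u := by
  have h := nn_int M u hM hu
  exact_mod_cast h

lemma nn_lt {M u v : ℕ} (hM : 1 ≤ M) (hu : 1 ≤ u) (huv : u < v) : nn M u < nn M v := by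
  have h : ((nn M u : ℕ) : ℝ) < nn M v := by
    rw [nn_real hM hu, nn_real hM (by omega)]
    have hMr : (1 : ℝ) ≤ M := by exact_mod_cast hM
    have hur : (1 : ℝ) ≤ u := by exact_mod_cast hu
    have hvr : (u : ℝ) < v := by exact_mod_cast huv
    have hM4 : (1 : ℝ) ≤ (M : ℝ) ^ 4 := one_le_pow₀ hMr
    have h1 : (16 * (M : ℝ) ^ 4 * (v : ℝ) ^ 3 - v) - (16 * (M : ℝ) ^ 4 * (u : ℝ) ^ 3 - u) =
        (v - u) * (16 * (M : ℝ) ^ 4 * ((u : ℝ) ^ 2 + u * v + (v : ℝ) ^ 2) - 1) := by ring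
    have h2 : 0 < 16 * (M : ℝ) ^ 4 * ((u : ℝ) ^ 2 + u * v + (v : ℝ) ^ 2) - 1 := by
      have h3 : 1 ≤ (u : ℝ) ^ 2 + u * v + (v : ℝ) ^ 2 := by nlinarith
      nlinarith
    have h4 := mul_pos (sub_pos.2 hvr) h2
    linarith
  exact_mod_cast h

/-- the numbers of the family are areas of right triangles -/
lemma nn_congruent {M u : ℕ} (hM : 1 ≤ M) (hu : 1 ≤ u) :
    ∃ a b c : ℚ, 0 < a ∧ 0 < b ∧ 0 < c ∧ a ^ 2 + b ^ 2 = c ^ 2 ∧ ((nn M u : ℕ) : ℚ) = a * b / 2 := by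
  have hMq : (1 : ℚ) ≤ M := by exact_mod_cast hM
  have huq : (1 : ℚ) ≤ u := by exact_mod_cast hu
  have h := nn_int M u hM hu
  have hn : ((nn M u : ℕ) : ℚ) = 16 * (M : ℚ) ^ 4 * (u : ℚ) ^ 3 - u := by exact_mod_cast h
  have hM0 : (M : ℚ) ≠ 0 := by linarith
  have hpos : 0 < 16 * (M : ℚ) ^ 4 * (u : ℚ) ^ 2 - 1 := by
    have h1 : (1 : ℚ) ≤ (M : ℚ) ^ 4 := one_le_pow₀ hMq
    have h2 : (1 : ℚ) ≤ (u : ℚ) ^ 2 := one_le_pow₀ huq
    nlinarith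
  refine ⟨(16 * (M : ℚ) ^ 4 * (u : ℚ) ^ 2 - 1) / (2 * M), 4 * M * u, (16 * (M : ℚ) ^ 4 * (u : ℚ) ^ 2 + 1) / (2 * M),
    by positivity, by positivity, by positivity, ?_, ?_⟩
  · field_simp
    ring
  · rw [hn]
    field_simp
    ring

/-- the numbers of the family are congruent in the second sense -/
lemma nn_congruent' {M u : ℕ} (hM : 1 ≤ M) (hu : 1 ≤ u) :
    ∃ x y z t : ℕ, 0 < x ∧ 0 < y ∧ 0 < z ∧ 0 < t ∧ x ^ 2 + nn M u * y ^ 2 = z ^ 2 ∧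
      (x : ℤ) ^ 2 - nn M u * (y : ℤ) ^ 2 = (t : ℤ) ^ 2 := by
  have h := nn_int M u hM hu
  have hb : 4 ≤ 4 * M ^ 2 * u := by
    rw [mul_assoc]
    have : 1 ≤ M ^ 2 * u := Nat.succ_le_of_lt (by positivity)
    omega
  obtain ⟨w, hw⟩ : ∃ w, 4 * M ^ 2 * u = w + 4 := ⟨4 * M ^ 2 * u - 4, by omega⟩
  -- `16 M⁴ u² = (w + 4)²`
  refine ⟨(w + 4) ^ 2 + 1, 4 * M, (w + 4) ^ 2 - 1 + 2 * (w + 4), (w + 4) ^ 2 - 1 - 2 * (w + 4), by positivity,
    by positivity, ?_, ?_, ?_, ?_⟩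
  · have : 16 ≤ (w + 4) ^ 2 := by nlinarith
    omega
  · have : (w + 4) ^ 2 = w ^ 2 + 8 * w + 16 := by ring
    omega
  · have e : (w + 4) ^ 2 - 1 = w ^ 2 + 8 * w + 15 := by
      have : (w + 4) ^ 2 = w ^ 2 + 8 * w + 16 := by ring
      omega
    rw [e]
    zify
    rw [h]
    have hwz : (4 : ℤ) * (M : ℤ) ^ 2 * u = w + 4 := by exact_mod_cast hw
    have e1 : (16 * (M : ℤ) ^ 4 * (u : ℤ) ^ 3 - u) * (4 * M) ^ 2 =
        4 * ((4 * (M : ℤ) ^ 2 * u) ^ 3 - (4 * (M : ℤ) ^ 2 * u)) := by ring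
    rw [e1, hwz]
    ring
  · have e : (w + 4) ^ 2 - 1 - 2 * (w + 4) = w ^ 2 + 6 * w + 7 := by
      have : (w + 4) ^ 2 = w ^ 2 + 8 * w + 16 := by ring
      omega
    rw [e, h]
    push_cast
    have hwz : (4 : ℤ) * (M : ℤ) ^ 2 * u = w + 4 := by exact_mod_cast hw
    have e1 : (16 * (M : ℤ) ^ 4 * (u : ℤ) ^ 3 - u) * (4 * M) ^ 2 =
        4 * ((4 * (M : ℤ) ^ 2 * u) ^ 3 - (4 * (M : ℤ) ^ 2 * u)) := by ring
    rw [e1, hwz]
    ring

/-- **Short intervals.** -/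
theorem main {m : ℕ} (P : Fin m → ℝ[X])
    (hP : ∀ h : Fin m → ℤ, h ≠ 0 → ∃ j, 1 ≤ j ∧ Irrational ((∑ i, C (h i : ℝ) * P i).coeff j))
    (O : Set (Fin m → UnitAddCircle)) (hO : IsOpen O) (hne : O.Nonempty)
    (M n₀ : ℕ) (hM : 1 ≤ M) (hn : Squarefree n₀) :
    ∃ c D X₀ : ℝ, 0 < c ∧ ∀ X : ℝ, X₀ ≤ X → ∃ A : Finset ℕ, c * X ^ (1 / 6 : ℝ) ≤ A.card ∧
      ∀ n ∈ A, X ≤ n ∧ (n : ℝ) ≤ X + D * X ^ (5 / 6 : ℝ) ∧ Squarefree n ∧ n ≡ n₀ [MOD 8 * M] ∧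
        (∃ u, 1 ≤ u ∧ n = nn M u) ∧ pt (fun i => (P i).eval (n : ℝ)) ∈ O := by
  classical
  obtain ⟨W, u₁, hW, hu₁, hres, c, hc, L, hL, hmain⟩ := count P hP O hO hne M n₀ hM hn
  have hMr : (1 : ℝ) ≤ M := by exact_mod_cast hM
  have hM4 : (1 : ℝ) ≤ (M : ℝ) ^ 4 := one_le_pow₀ hMr
  have hWr : (1 : ℝ) ≤ W := by exact_mod_cast hW
  set L' : ℝ := L * (1 + W) + L + 1 with hL'
  set A' : ℝ := 1 + W + W * L' with hA'
  set B' : ℝ := W + W * L' with hB'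
  have hL'0 : 0 < L' := by positivity
  have hA'0 : 0 < A' := by positivity
  have hB'0 : 0 < B' := by positivity
  refine ⟨c * L / (16 * (M : ℝ) ^ 4), 48 * (M : ℝ) ^ 4 * A' ^ 2 * B' + 1, nn M u₁ + 1, by positivity, fun X hX => ?_⟩
  have hX1 : 1 ≤ X := by
    have : (0 : ℝ) ≤ nn M u₁ := Nat.cast_nonneg _
    linarith
  have hX0 : 0 ≤ X := by linarith
  set Y : ℝ := X ^ (1 / 6 : ℝ) with hY
  have hY1 : 1 ≤ Y := Real.one_le_rpow hX1 (by norm_num)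
  have hY0 : 0 < Y := by linarith
  have hY6 : Y ^ 6 = X := by
    rw [hY, ← Real.rpow_natCast, ← Real.rpow_mul hX0]
    norm_num
  have hY5 : X ^ (5 / 6 : ℝ) = Y ^ 5 := by
    rw [hY, ← Real.rpow_natCast, ← Real.rpow_mul hX0]
    norm_num
  rw [hY5]
  -- the least member of the class with `X ≤ nn`
  have hex : ∃ s : ℕ, X ≤ nn M (u₁ + W * s) := by
    refine ⟨⌈X⌉₊, ?_⟩
    have h1 : X ≤ ⌈X⌉₊ := Nat.le_ceil X
    rw [nn_real hM (by omega)]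
    have h2 : ((⌈X⌉₊ : ℕ) : ℝ) ≤ ((u₁ + W * ⌈X⌉₊ : ℕ) : ℝ) := by
      have : ⌈X⌉₊ ≤ u₁ + W * ⌈X⌉₊ := by nlinarith
      exact_mod_cast this
    set v : ℝ := ((u₁ + W * ⌈X⌉₊ : ℕ) : ℝ) with hv
    have hv1 : 1 ≤ v := by linarith
    have hv3 : v ≤ v ^ 3 := le_self_pow₀ hv1 (by norm_num)
    nlinarith
  obtain ⟨s, hs, hmin⟩ : ∃ s : ℕ, X ≤ nn M (u₁ + W * s) ∧ ∀ s' < s, ¬ X ≤ nn M (u₁ + W * s') :=
    ⟨Nat.find hex, Nat.find_spec hex, fun s' hs' => Nat.find_min hex hs'⟩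
  have hs0 : s ≠ 0 := by
    rintro rfl
    rw [Nat.mul_zero, Nat.add_zero] at hs
    linarith
  obtain ⟨s', rfl⟩ := Nat.exists_eq_succ_of_ne_zero hs0
  have hlt := hmin s' (Nat.lt_succ_self s')
  push Not at hlt
  obtain ⟨U', hU'⟩ : ∃ U' : ℕ, U' = u₁ + W * s' := ⟨_, rfl⟩
  have hU'1 : 1 ≤ U' := by omega
  have eU : u₁ + W * s'.succ = U' + W := by rw [hU', Nat.mul_succ]; omega
  rw [eU] at hs
  rw [← hU'] at hlt
  obtain ⟨U, hU⟩ : ∃ U : ℕ, U = U' + W := ⟨_, rfl⟩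
  rw [← hU] at hs
  have hU1 : 1 ≤ U := by omega
  have hUu : U ≡ u₁ [MOD W] := by
    rw [hU, ← eU]
    exact ((Nat.modEq_zero_iff_dvd.2 (dvd_mul_right W s'.succ)).add_left u₁).trans (by rw [Nat.add_zero])
  have hU'r : (1 : ℝ) ≤ U' := by exact_mod_cast hU'1
  have hUr : (U : ℝ) = U' + W := by rw [hU]; push_cast; ring
  have hlt' := hlt
  rw [nn_real hM hU'1] at hlt'
  have hs' := hs
  rw [nn_real hM hU1] at hs'
  -- (i)
  have hi : (U' : ℝ) ≤ Y ^ 2 := by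
    have h1 : (U' : ℝ) ^ 3 ≤ (Y ^ 2) ^ 3 := by
      have h2 : (U' : ℝ) ≤ (U' : ℝ) ^ 3 := le_self_pow₀ hU'r (by norm_num)
      have h3 : (U' : ℝ) ^ 3 ≤ (M : ℝ) ^ 4 * (U' : ℝ) ^ 3 := by
        have : 0 ≤ (U' : ℝ) ^ 3 := by positivity
        nlinarith
      rw [← pow_mul, hY6]
      nlinarith
    exact le_of_pow_le_pow_left₀ (by norm_num) (by positivity) h1
  have hYY : Y ≤ Y ^ 2 := le_self_pow₀ hY1 (by norm_num)
  have h1Y : 1 ≤ Y ^ 2 := one_le_pow₀ hY1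
  -- (ii)
  have hii : (U : ℝ) ≤ (1 + W) * Y ^ 2 := by
    rw [hUr]
    nlinarith
  -- (iii)
  have hsU : √(U : ℝ) ^ 2 = U := Real.sq_sqrt (Nat.cast_nonneg _)
  have hsU0 : 0 ≤ √(U : ℝ) := Real.sqrt_nonneg _
  have hiii : Y / (16 * (M : ℝ) ^ 4) ≤ √(U : ℝ) := by
    have h1 : (Y / (16 * (M : ℝ) ^ 4)) ^ 6 ≤ √(U : ℝ) ^ 6 := by
      have h2 : √(U : ℝ) ^ 6 = (U : ℝ) ^ 3 := by
        calc √(U : ℝ) ^ 6 = (√(U : ℝ) ^ 2) ^ 3 := by ring
          _ = (U : ℝ) ^ 3 := by rw [hsU]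
      rw [h2, div_pow, hY6, div_le_iff₀ (by positivity)]
      have h3 : (16 * (M : ℝ) ^ 4) ≤ (16 * (M : ℝ) ^ 4) ^ 6 := le_self_pow₀ (by linarith) (by norm_num)
      have h4 : (0 : ℝ) ≤ (U : ℝ) ^ 3 := by positivity
      have h5 : (0 : ℝ) ≤ U := Nat.cast_nonneg _
      have h6 : X ≤ 16 * (M : ℝ) ^ 4 * (U : ℝ) ^ 3 := by linarith
      nlinarith
    exact le_of_pow_le_pow_left₀ (by norm_num) hsU0 h1
  -- (iv)
  obtain ⟨K, hK⟩ : ∃ K : ℕ, K = ⌈L * √(U : ℝ) + L⌉₊ := ⟨_, rfl⟩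
  have hK1 : L * √(U : ℝ) + L ≤ K := by rw [hK]; exact Nat.le_ceil _
  have hK2 : (K : ℝ) ≤ L * √(U : ℝ) + L + 1 := by
    rw [hK]
    exact (Nat.ceil_lt_add_one (by positivity)).le
  have hsU2 : √(U : ℝ) ≤ (1 + W) * Y := by
    rw [Real.sqrt_le_left (by positivity)]
    refine hii.trans ?_
    have h1 : (1 + (W : ℝ)) ≤ (1 + (W : ℝ)) ^ 2 := le_self_pow₀ (by linarith) (by norm_num)
    rw [mul_pow]
    exact mul_le_mul_of_nonneg_right h1 (by positivity)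
  have hK3 : (K : ℝ) ≤ L' * Y := by
    have h1 : L * √(U : ℝ) ≤ L * ((1 + W) * Y) := mul_le_mul_of_nonneg_left hsU2 hL.le
    rw [hL']
    nlinarith
  have hcount := hmain U hU1 hUu K hK1
  refine ⟨((range K).filter fun t => Squarefree (nn M (U + W * t)) ∧
    pt (fun i => (P i).eval ((nn M (U + W * t) : ℕ) : ℝ)) ∈ O).image fun t => nn M (U + W * t), ?_, ?_⟩
  · rw [card_image_of_injective _ (by
      have hmono : StrictMono fun t => nn M (U + W * t) :=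
        strictMono_nat_of_lt_succ fun t => nn_lt hM (by omega) (by
          have : W * t < W * (t + 1) := Nat.mul_lt_mul_of_pos_left (Nat.lt_succ_self t) hW
          omega)
      exact hmono.injective)]
    refine le_trans ?_ hcount
    have h1 : c * L / (16 * (M : ℝ) ^ 4) * Y = c * (L * (Y / (16 * (M : ℝ) ^ 4))) := by ring
    rw [h1]
    refine mul_le_mul_of_nonneg_left ?_ hc.le
    have h2 : L * (Y / (16 * (M : ℝ) ^ 4)) ≤ L * √(U : ℝ) := mul_le_mul_of_nonneg_left hiii hL.le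
    linarith
  · intro n hn'
    rw [mem_image] at hn'
    obtain ⟨t, ht, rfl⟩ := hn'
    rw [mem_filter, mem_range] at ht
    obtain ⟨htK, hsf, hpt⟩ := ht
    have hut : 1 ≤ U + W * t := by omega
    refine ⟨?_, ?_, hsf, ?_, ⟨_, hut, rfl⟩, hpt⟩
    · refine hs.trans ?_
      rcases Nat.eq_zero_or_pos t with h | h
      · rw [h, Nat.mul_zero, Nat.add_zero]
      · have := nn_lt hM hU1 (show U < U + W * t by
          have : 0 < W * t := Nat.mul_pos hW h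
          omega)
        exact_mod_cast this.le
    · rw [nn_real hM hut]
      have htr : (t : ℝ) ≤ K := by exact_mod_cast htK.le
      set V : ℝ := U + W * K with hV
      have huV : ((U + W * t : ℕ) : ℝ) ≤ V := by
        push_cast
        rw [hV]
        have := mul_le_mul_of_nonneg_left htr (by linarith : (0 : ℝ) ≤ W)
        linarith
      have hu0 : (1 : ℝ) ≤ ((U + W * t : ℕ) : ℝ) := by exact_mod_cast hut
      have hVA : V ≤ A' * Y ^ 2 := by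
        have h1 : (W : ℝ) * K ≤ W * (L' * Y) := mul_le_mul_of_nonneg_left hK3 (by linarith)
        have h2 : W * (L' * Y) ≤ W * L' * Y ^ 2 := by
          have : 0 ≤ W * L' := by positivity
          nlinarith
        rw [hV, hA']
        nlinarith
      have hVB : V - U' ≤ B' * Y := by
        have h1 : (W : ℝ) * K ≤ W * (L' * Y) := mul_le_mul_of_nonneg_left hK3 (by linarith)
        rw [hV, hUr, hB']
        nlinarith
      have hU'V : (U' : ℝ) ≤ V := by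
        rw [hV, hUr]
        have : (0 : ℝ) ≤ W * K := by positivity
        linarith
      have hV0 : 0 ≤ V := by linarith
      have h3 : V ^ 3 - (U' : ℝ) ^ 3 ≤ 3 * A' ^ 2 * B' * Y ^ 5 := by
        have e : V ^ 3 - (U' : ℝ) ^ 3 = (V - U') * (V ^ 2 + V * U' + (U' : ℝ) ^ 2) := by ring
        have h4 : V ^ 2 ≤ (A' * Y ^ 2) ^ 2 := pow_le_pow_left₀ hV0 hVA 2
        have h5 : V ^ 2 + V * U' + (U' : ℝ) ^ 2 ≤ 3 * (A' * Y ^ 2) ^ 2 := by nlinarith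
        rw [e]
        calc (V - U') * (V ^ 2 + V * U' + (U' : ℝ) ^ 2) ≤ (B' * Y) * (3 * (A' * Y ^ 2) ^ 2) :=
              mul_le_mul hVB h5 (by positivity) (by positivity)
          _ = 3 * A' ^ 2 * B' * Y ^ 5 := by ring
      have h6 : ((U + W * t : ℕ) : ℝ) ^ 3 ≤ V ^ 3 := pow_le_pow_left₀ (by linarith) huV 3
      have h7 : Y ^ 2 ≤ Y ^ 5 := pow_le_pow_right₀ hY1 (by norm_num)
      have h8 : 16 * (M : ℝ) ^ 4 * ((U + W * t : ℕ) : ℝ) ^ 3 ≤ 16 * (M : ℝ) ^ 4 * ((U' : ℝ) ^ 3 + 3 * A' ^ 2 * B' * Y ^ 5) :=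
        mul_le_mul_of_nonneg_left (by linarith) (by positivity)
      nlinarith
    · refine nn_mod M _ n₀ hM hut (hres _ ?_)
      exact ((Nat.modEq_zero_iff_dvd.2 (dvd_mul_right W t)).add_left U).trans (by simpa using hUu)

/-- the polynomials have fractional parts in the given intervals -/
lemma box {m : ℕ} (a b : Fin m → ℝ) (hab : ∀ i, a i < b i) :
    IsOpen {y : Fin m → UnitAddCircle | ∀ i, ∃ t : ℝ, a i < t ∧ t < b i ∧ (t : UnitAddCircle) = y i} ∧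
    {y : Fin m → UnitAddCircle | ∀ i, ∃ t : ℝ, a i < t ∧ t < b i ∧ (t : UnitAddCircle) = y i}.Nonempty := by
  constructor
  · have h1 : {y : Fin m → UnitAddCircle | ∀ i, ∃ t : ℝ, a i < t ∧ t < b i ∧ (t : UnitAddCircle) = y i} =
        ⋂ i, (fun y : Fin m → UnitAddCircle => y i) ⁻¹' ((fun t : ℝ => (t : UnitAddCircle)) '' Set.Ioo (a i) (b i)) := by
      ext y
      simp only [Set.mem_setOf_eq, Set.mem_iInter, Set.mem_preimage, Set.mem_image, Set.mem_Ioo, and_assoc]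
    rw [h1]
    refine isOpen_iInter_of_finite fun i => ?_
    have h2 : IsOpen ((fun t : ℝ => (t : UnitAddCircle)) '' Set.Ioo (a i) (b i)) :=
      QuotientAddGroup.isOpenMap_coe _ isOpen_Ioo
    exact h2.preimage (continuous_apply i)
  · refine ⟨fun i => (((a i + b i) / 2 : ℝ) : UnitAddCircle), fun i => ⟨(a i + b i) / 2, ?_, ?_, rfl⟩⟩
    · have := hab i; linarith
    · have := hab i; linarith

lemma box_mem {m : ℕ} {a b x : Fin m → ℝ}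
    (h : pt x ∈ {y : Fin m → UnitAddCircle | ∀ i, ∃ t : ℝ, a i < t ∧ t < b i ∧ (t : UnitAddCircle) = y i}) (i : Fin m) :
    ∃ k : ℤ, a i < x i + k ∧ x i + k < b i := by
  obtain ⟨t, h1, h2, h3⟩ := h i
  have h4 : (t : UnitAddCircle) = (x i : UnitAddCircle) := h3
  have h5 := QuotientAddGroup.eq.1 h4
  obtain ⟨k, hk⟩ := AddSubgroup.mem_zmultiples_iff.1 h5
  rw [zsmul_eq_mul, mul_one] at hk
  refine ⟨-k, ?_, ?_⟩ <;> push_cast <;> linarith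

end Pool.Agent.U552.CN
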