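import Pool.Agent.U552.CN.Sieve

/-!
Many squarefree values of `u (4 M² u - 1) (4 M² u + 1)` in short intervals, with prescribed fractional parts.
-/

set_option autoImplicit false

namespace Pool.Agent.U552.CN

open Finset Polynomial
open Pool.Agent.Helper602.MK (ee)

/-- the family as a polynomial -/
noncomputable def GG (M : ℕ) : ℤ[X] := C (16 * (M : ℤ) ^ 4) * X ^ 3 - X

lemma GG_deg {M : ℕ} (hM : 1 ≤ M) : (GG M).natDegree ≠ 0 := by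
  intro h
  have h1 : (GG M).coeff 3 = 0 := coeff_eq_zero_of_natDegree_lt (by omega)
  unfold GG at h1
  rw [coeff_sub, coeff_C_mul, coeff_X_pow, coeff_X] at h1
  simp at h1
  omega

lemma GG_eval {M u : ℕ} (hM : 1 ≤ M) (hu : 1 ≤ u) :
    ((GG M).map (Int.castRingHom ℝ)).eval (u : ℝ) = (nn M u : ℝ) := by
  have h := nn_int M u hM hu
  have h2 : ((nn M u : ℕ) : ℝ) = 16 * (M : ℝ) ^ 4 * (u : ℝ) ^ 3 - u := by exact_mod_cast h
  rw [h2]
  unfold GG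
  simp

open Classical in
/-- **The main count.** -/
theorem count {m : ℕ} (P : Fin m → ℝ[X])
    (hP : ∀ h : Fin m → ℤ, h ≠ 0 → ∃ j, 1 ≤ j ∧ Irrational ((∑ i, C (h i : ℝ) * P i).coeff j))
    (O : Set (Fin m → UnitAddCircle)) (hO : IsOpen O) (hne : O.Nonempty)
    (M n₀ : ℕ) (hM : 1 ≤ M) (hn : Squarefree n₀) :
    ∃ W u₁ : ℕ, 0 < W ∧ 1 ≤ u₁ ∧ (∀ u, u ≡ u₁ [MOD W] → u + n₀ ≡ 0 [MOD 8 * M]) ∧
      ∃ c : ℝ, 0 < c ∧ ∃ L : ℝ, 0 < L ∧ ∀ U : ℕ, 1 ≤ U → U ≡ u₁ [MOD W] → ∀ K : ℕ, L * √U + L ≤ K →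
        c * K ≤ (((range K).filter fun t => Squarefree (nn M (U + W * t)) ∧
          pt (fun i => (P i).eval ((nn M (U + W * t) : ℕ) : ℝ)) ∈ O).card : ℝ) := by
  obtain ⟨c₀, hc₀, 𝒦, δ, hδ, hvis⟩ := visits O hO hne
  obtain ⟨k, hk8, hk12⟩ : ∃ k : ℕ, 8 * M < k ∧ 12 / c₀ ≤ k := by
    refine ⟨8 * M + 1 + ⌈12 / c₀⌉₊, by omega, ?_⟩
    have := Nat.le_ceil (12 / c₀)
    push_cast
    have h2 : (0 : ℝ) ≤ M := Nat.cast_nonneg M
    linarith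
  obtain ⟨W, u₁, hW, hu₁, hlarge, hcl⟩ := classes M n₀ k hM hn
  have hkr : (0 : ℝ) < k := by
    have : 0 < k := by omega
    exact_mod_cast this
  -- Weyl
  have hweyl : ∀ h : Fin m → ℤ, ∃ K₀ : ℕ, h ≠ 0 → ∀ K : ℕ, K₀ ≤ K → ∀ U : ℕ,
      ‖∑ n ∈ range K, ee (((∑ i, C (h i : ℝ) * P i).comp ((GG M).map (Int.castRingHom ℝ))).eval
        (((U + W * n : ℕ) : ℝ)))‖ ≤ δ * K := by
    intro h
    by_cases h0 : h = 0
    · exact ⟨0, fun h1 => absurd h0 h1⟩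
    · obtain ⟨K₀, hK⟩ := weyl_unif _ _ le_rfl (irr_comp (GG M) (GG_deg hM) _ _ le_rfl (hP h h0)) δ hδ W hW
      exact ⟨K₀, fun _ => hK⟩
  choose K₀ hK₀ using hweyl
  obtain ⟨K₁, hK₁⟩ : ∃ K₁ : ℕ, ∀ h ∈ 𝒦, K₀ h ≤ K₁ :=
    ⟨∑ h ∈ 𝒦, K₀ h, fun h hh => Finset.single_le_sum (f := K₀) (fun _ _ => Nat.zero_le _) hh⟩
  have hMr : (1 : ℝ) ≤ M := by exact_mod_cast hM
  have hWr : (1 : ℝ) ≤ W := by exact_mod_cast hW
  refine ⟨W, u₁, hW, hu₁, fun u hu => (hcl u hu).1, c₀ / 4, by positivity,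
    1 + 432 * (M : ℝ) ^ 2 * W / c₀ ^ 2 + 432 * (M : ℝ) ^ 2 * W / c₀ + K₁, by positivity, fun U hU hUu K hK => ?_⟩
  set L : ℝ := 1 + 432 * (M : ℝ) ^ 2 * W / c₀ ^ 2 + 432 * (M : ℝ) ^ 2 * W / c₀ + K₁ with hL
  have hUr : (1 : ℝ) ≤ U := by exact_mod_cast hU
  have hs0 : 0 ≤ √(U : ℝ) := Real.sqrt_nonneg _
  have hss : √(U : ℝ) ^ 2 = U := Real.sq_sqrt (by linarith)
  have hK1r : (0 : ℝ) ≤ K₁ := Nat.cast_nonneg _
  have hL1 : 1 ≤ L := by
    rw [hL]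
    have h1 : 0 ≤ 432 * (M : ℝ) ^ 2 * W / c₀ ^ 2 := by positivity
    have h2 : 0 ≤ 432 * (M : ℝ) ^ 2 * W / c₀ := by positivity
    linarith
  have hKL : L ≤ K := by nlinarith
  have hKK : K₁ ≤ K := by
    have h1 : 0 ≤ 432 * (M : ℝ) ^ 2 * W / c₀ ^ 2 := by positivity
    have h2 : 0 ≤ 432 * (M : ℝ) ^ 2 * W / c₀ := by positivity
    have : (K₁ : ℝ) ≤ K := by linarith
    exact_mod_cast this
  -- visits
  set x : ℕ → Fin m → ℝ := fun t i => (P i).eval ((nn M (U + W * t) : ℕ) : ℝ) with hx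
  have hv := hvis x K (fun h hh h0 => by
    refine le_trans (le_of_eq ?_) (hK₀ h h0 K ((hK₁ h hh).trans hKK) U)
    congr 1
    refine sum_congr rfl fun n _ => ?_
    rw [eval_comp, GG_eval hM (by omega : 1 ≤ U + W * n), eval_finset_sum]
    simp only [eval_mul, eval_C, hx])
  -- the sieve
  have hs1 := sieve U W K k hU (by omega) (fun p hp hkp h => hlarge p hp (by omega) hkp (Dvd.dvd.mul_left h _))
  have h4U : 1 ≤ 4 * M ^ 2 * U - 1 := by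
    have : 4 * 1 ≤ 4 * M ^ 2 * U := by
      rw [mul_assoc]
      exact Nat.mul_le_mul_left 4 (Nat.mul_pos (by positivity) hU)
    omega
  have hs2 := sieve (4 * M ^ 2 * U - 1) (4 * M ^ 2 * W) K k h4U (by omega)
    (fun p hp hkp h => hlarge p hp (by omega) hkp h)
  have hs3 := sieve (4 * M ^ 2 * U + 1) (4 * M ^ 2 * W) K k (by omega) (by omega)
    (fun p hp hkp h => hlarge p hp (by omega) hkp h)
  set B1 := (range K).filter fun t => ∃ p : ℕ, p.Prime ∧ k < p ∧ p ^ 2 ∣ U + W * t with hB1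
  set B2 := (range K).filter fun t => ∃ p : ℕ, p.Prime ∧ k < p ∧ p ^ 2 ∣ 4 * M ^ 2 * U - 1 + 4 * M ^ 2 * W * t with hB2
  set B3 := (range K).filter fun t => ∃ p : ℕ, p.Prime ∧ k < p ∧ p ^ 2 ∣ 4 * M ^ 2 * U + 1 + 4 * M ^ 2 * W * t with hB3
  set G := (range K).filter fun t => Squarefree (nn M (U + W * t)) ∧ pt (x t) ∈ O with hG
  have hcov : ((range K).filter fun t => pt (x t) ∈ O) ⊆ G ∪ B1 ∪ B2 ∪ B3 := by
    intro t ht
    rw [mem_filter] at ht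
    simp only [mem_union]
    by_contra hcon
    push Not at hcon
    obtain ⟨⟨⟨hg, hb1⟩, hb2⟩, hb3⟩ := hcon
    refine hg (mem_filter.2 ⟨ht.1, ?_, ht.2⟩)
    have hu : U + W * t ≡ u₁ [MOD W] :=
      ((Nat.modEq_zero_iff_dvd.2 (dvd_mul_right W t)).add_left U).trans (by simpa using hUu)
    refine sq_free_nn hM (by omega) fun p hp => ?_
    have e2 : 4 * M ^ 2 * (U + W * t) - 1 = 4 * M ^ 2 * U - 1 + 4 * M ^ 2 * W * t := by
      have : 4 * M ^ 2 * (U + W * t) = 4 * M ^ 2 * U + 4 * M ^ 2 * W * t := by ring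
      omega
    have e3 : 4 * M ^ 2 * (U + W * t) + 1 = 4 * M ^ 2 * U + 1 + 4 * M ^ 2 * W * t := by ring
    rcases le_or_gt p k with hpk | hpk
    · rcases (hcl _ hu).2 p hp hpk with h | h
      · exact ⟨h.1, fun h' => h.2.1 ((dvd_pow_self p (by norm_num)).trans h'),
          fun h' => h.2.2 ((dvd_pow_self p (by norm_num)).trans h')⟩
      · exfalso
        have : 0 < 4 * M ^ 2 * (U + W * t) := by
          have : 0 < U + W * t := by omega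
          positivity
        omega
    · refine ⟨fun h => hb1 (mem_filter.2 ⟨ht.1, p, hp, hpk, h⟩), fun h => hb2 (mem_filter.2 ⟨ht.1, p, hp, hpk, ?_⟩),
        fun h => hb3 (mem_filter.2 ⟨ht.1, p, hp, hpk, ?_⟩)⟩
      · rw [← e2]; exact h
      · rw [← e3]; exact h
  have hcard : (((range K).filter fun t => pt (x t) ∈ O).card : ℝ) ≤ G.card + B1.card + B2.card + B3.card := by
    have h1 := (card_le_card hcov).trans ((card_union_le _ _).trans (add_le_add_left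
      ((card_union_le _ _).trans (add_le_add_left (card_union_le G B1) _)) _))
    exact_mod_cast h1
  -- the square roots
  have hsq : ∀ a : ℕ, a ≤ 4 * M ^ 2 * (U + W * K) + 1 → (Nat.sqrt a : ℝ) ≤ c₀ * K / 6 := by
    intro a ha
    have h1 : ((Nat.sqrt a : ℕ) : ℝ) ^ 2 ≤ a := by exact_mod_cast Nat.sqrt_le' a
    have h2 : (a : ℝ) ≤ 4 * (M : ℝ) ^ 2 * (U + W * K) + 1 := by exact_mod_cast ha
    have hKr : (1 : ℝ) ≤ K := by linarith
    have h3 : 432 * (M : ℝ) ^ 2 * W ≤ L * c₀ ^ 2 := by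
      have h4 : 432 * (M : ℝ) ^ 2 * W / c₀ ^ 2 ≤ L := by
        have h2 : 0 ≤ 432 * (M : ℝ) ^ 2 * W / c₀ := by positivity
        linarith
      rwa [div_le_iff₀ (by positivity)] at h4
    -- three lower bounds for `c₀² K²`
    have hK2a : L ^ 2 * U ≤ (K : ℝ) ^ 2 := by
      have h5 : L * √(U : ℝ) ≤ K := by linarith
      have h6 : (L * √(U : ℝ)) ^ 2 ≤ (K : ℝ) ^ 2 := pow_le_pow_left₀ (by positivity) h5 2
      rw [mul_pow, hss] at h6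
      exact h6
    have hK2b : L * K ≤ (K : ℝ) ^ 2 := by nlinarith
    have hLL : L ≤ L ^ 2 := by nlinarith
    have hMW : (M : ℝ) ^ 2 ≤ (M : ℝ) ^ 2 * W := by nlinarith [sq_nonneg (M : ℝ)]
    have hM1 : (1 : ℝ) ≤ (M : ℝ) ^ 2 := by nlinarith
    have h7 : 432 * (M : ℝ) ^ 2 * U ≤ c₀ ^ 2 * (K : ℝ) ^ 2 := by
      have h8 : 432 * (M : ℝ) ^ 2 * U ≤ L * c₀ ^ 2 * U := by nlinarith
      have h9 : L * c₀ ^ 2 * U ≤ c₀ ^ 2 * (L ^ 2 * U) := by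
        have : L * (c₀ ^ 2 * U) ≤ L ^ 2 * (c₀ ^ 2 * U) := mul_le_mul_of_nonneg_right hLL (by positivity)
        linarith
      have h10 : c₀ ^ 2 * (L ^ 2 * U) ≤ c₀ ^ 2 * (K : ℝ) ^ 2 := mul_le_mul_of_nonneg_left hK2a (by positivity)
      linarith
    have h11 : 432 * (M : ℝ) ^ 2 * W * K ≤ c₀ ^ 2 * (K : ℝ) ^ 2 := by
      have h12 : 432 * (M : ℝ) ^ 2 * W * K ≤ L * c₀ ^ 2 * K := mul_le_mul_of_nonneg_right h3 (by linarith)
      have h13 : c₀ ^ 2 * (L * K) ≤ c₀ ^ 2 * (K : ℝ) ^ 2 := mul_le_mul_of_nonneg_left hK2b (by positivity)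
      linarith
    have h14 : (432 : ℝ) ≤ c₀ ^ 2 * (K : ℝ) ^ 2 := by
      have : (432 : ℝ) ≤ 432 * (M : ℝ) ^ 2 * U := by nlinarith
      linarith
    have h15 : (6 * ((Nat.sqrt a : ℕ) : ℝ)) ^ 2 ≤ (c₀ * K) ^ 2 := by
      rw [mul_pow, mul_pow]
      nlinarith
    have h16 := abs_le_of_sq_le_sq h15 (by positivity)
    have h17 := (abs_le.1 (abs_le_of_sq_le_sq h15 (by positivity))).2
    linarith
  have e1 : (Nat.sqrt (U + W * K) : ℝ) ≤ c₀ * K / 6 := by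
    refine hsq _ ?_
    have : 1 * (U + W * K) ≤ 4 * M ^ 2 * (U + W * K) := Nat.mul_le_mul_right _ (by
      have : 1 ≤ M ^ 2 := Nat.one_le_pow _ _ hM
      omega)
    omega
  have e2 : (Nat.sqrt (4 * M ^ 2 * U - 1 + 4 * M ^ 2 * W * K) : ℝ) ≤ c₀ * K / 6 := by
    refine hsq _ ?_
    have : 4 * M ^ 2 * (U + W * K) = 4 * M ^ 2 * U + 4 * M ^ 2 * W * K := by ring
    omega
  have e3 : (Nat.sqrt (4 * M ^ 2 * U + 1 + 4 * M ^ 2 * W * K) : ℝ) ≤ c₀ * K / 6 := by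
    refine hsq _ ?_
    have : 4 * M ^ 2 * (U + W * K) = 4 * M ^ 2 * U + 4 * M ^ 2 * W * K := by ring
    omega
  have e4 : (K : ℝ) / k ≤ c₀ * K / 12 := by
    rw [div_le_iff₀ hkr]
    rw [div_le_iff₀ hc₀] at hk12
    have : (0 : ℝ) ≤ K := Nat.cast_nonneg K
    nlinarith
  linarith

end Pool.Agent.U552.CN
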