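import Pool.Agent.U552.CN.PSieve

/-!
Pairs of congruent numbers at a fixed distance: residue classes and the count of the good arguments.
-/

set_option autoImplicit false

namespace Pool.Agent.U552.CN

open Finset

/-- the residue classes -/
lemma classes2 (s k ρ : ℕ) : ∃ W x₁ : ℕ, 0 < W ∧ (∀ p : ℕ, p.Prime → 2 < p → k < p → ¬ p ∣ W) ∧
    ∀ x : ℕ, x ≡ x₁ [MOD W] → x ≡ ρ [MOD 8] ∧ ∀ p : ℕ, p.Prime → 2 < p → p ≤ k →
      (p ∣ s → x ≡ 1 [MOD p]) ∧ (¬ p ∣ s → p ^ 2 ∣ x) := by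
  classical
  set S1 : Finset ℕ := (range (k + 1)).filter (fun p => p.Prime ∧ 2 < p ∧ p ∣ s) with hS1
  set S2 : Finset ℕ := (range (k + 1)).filter (fun p => p.Prime ∧ 2 < p ∧ ¬ p ∣ s) with hS2
  have h1p : ∀ p ∈ S1, p.Prime := fun p hp => (mem_filter.1 hp).2.1
  have h2p : ∀ p ∈ S2, p.Prime := fun p hp => (mem_filter.1 hp).2.1
  have hcop : Nat.Coprime (∏ p ∈ S1, p) ((∏ p ∈ S2, p) ^ 2) := by
    refine Nat.Coprime.pow_right 2 (Nat.Coprime.prod_left fun p hp => Nat.Coprime.prod_right fun q hq => ?_)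
    rw [Nat.coprime_primes (h1p p hp) (h2p q hq)]
    rintro rfl
    exact (mem_filter.1 hq).2.2.2 (mem_filter.1 hp).2.2.2
  obtain ⟨y, hy1, hy2⟩ := Nat.chineseRemainder hcop 1 0
  have hodd : ∀ p : ℕ, p.Prime → 2 < p → Nat.Coprime 8 p := by
    intro p hp h2
    rw [show (8 : ℕ) = 2 ^ 3 by norm_num]
    exact Nat.Coprime.pow_left 3 ((Nat.coprime_primes Nat.prime_two hp).2 (by omega))
  have hcop8 : Nat.Coprime 8 ((∏ p ∈ S1, p) * (∏ p ∈ S2, p) ^ 2) := by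
    refine Nat.Coprime.mul_right (Nat.Coprime.prod_right fun p hp => ?_)
      (Nat.Coprime.pow_right 2 (Nat.Coprime.prod_right fun p hp => ?_))
    · exact hodd p (h1p p hp) (mem_filter.1 hp).2.2.1
    · exact hodd p (h2p p hp) (mem_filter.1 hp).2.2.1
  obtain ⟨x₁, hx1, hx2⟩ := Nat.chineseRemainder hcop8 ρ y
  have hP0 : 0 < ∏ p ∈ S1, p := Finset.prod_pos fun p hp => (h1p p hp).pos
  have hR0 : 0 < ∏ p ∈ S2, p := Finset.prod_pos fun p hp => (h2p p hp).pos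
  refine ⟨8 * ((∏ p ∈ S1, p) * (∏ p ∈ S2, p) ^ 2), x₁, by positivity, ?_, ?_⟩
  · intro p hp h2 hk hd
    rcases hp.dvd_mul.1 hd with h | h
    · have := (Nat.Prime.coprime_iff_not_dvd hp).1 ((hodd p hp h2).symm)
      exact this h
    rcases hp.dvd_mul.1 h with h | h
    · rw [(Nat.Prime.prime hp).dvd_finset_prod_iff] at h
      obtain ⟨l, hl, hpl⟩ := h
      rw [(Nat.prime_dvd_prime_iff_eq hp (h1p l hl)).1 hpl] at hk
      have := mem_range.1 (mem_filter.1 hl).1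
      omega
    · have h := hp.dvd_of_dvd_pow h
      rw [(Nat.Prime.prime hp).dvd_finset_prod_iff] at h
      obtain ⟨l, hl, hpl⟩ := h
      rw [(Nat.prime_dvd_prime_iff_eq hp (h2p l hl)).1 hpl] at hk
      have := mem_range.1 (mem_filter.1 hl).1
      omega
  · intro x hx
    have h1 : x ≡ x₁ [MOD 8] := hx.of_mul_right _
    have h2 : x ≡ x₁ [MOD (∏ p ∈ S1, p) * (∏ p ∈ S2, p) ^ 2] := hx.of_mul_left 8
    refine ⟨h1.trans hx1, fun p hp hp2 hpk => ⟨fun hps => ?_, fun hps => ?_⟩⟩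
    · have hpS : p ∈ S1 := mem_filter.2 ⟨mem_range.2 (by omega), hp, hp2, hps⟩
      have h3 : x ≡ 1 [MOD ∏ p ∈ S1, p] := ((h2.trans hx2).of_mul_right _).trans hy1
      exact h3.of_dvd (dvd_prod_of_mem _ hpS)
    · have hpS : p ∈ S2 := mem_filter.2 ⟨mem_range.2 (by omega), hp, hp2, hps⟩
      have h3 : x ≡ 0 [MOD (∏ p ∈ S2, p) ^ 2] := ((h2.trans hx2).of_mul_left _).trans hy2
      exact (pow_dvd_pow_of_dvd (dvd_prod_of_mem _ hpS) 2).trans (Nat.modEq_zero_iff_dvd.1 h3)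

open Classical in
/-- the count of the good arguments -/
theorem pair_count (a β γ δ N x₁ W k : ℕ) (ha : 1 ≤ a) (hW : 1 ≤ W) (hk : 48 ≤ k)
    (hWp : ∀ p : ℕ, p.Prime → k < p → ¬ p ∣ W) (hap : ∀ p : ℕ, p.Prime → k < p → ¬ p ∣ a)
    (hNp : ∀ p : ℕ, p.Prime → k < p → ¬ p ∣ 2 * N) :
    ∃ K₀ : ℕ, ∀ K : ℕ, K₀ ≤ K → γ + N < x₁ + W * K ∧ (K : ℝ) / 2 ≤ (((range K).filter fun t => ∀ p : ℕ, p.Prime → k < p →
      ¬ p ^ 2 ∣ a * (x₁ + W * (K + t)) + β ∧ ¬ p ^ 2 ∣ a * (x₁ + W * (K + t)) - γ ∧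
      ¬ ((p ^ 2 : ℕ) : ℤ) ∣ ((x₁ + W * (K + t) : ℕ) : ℤ) ^ 2 - N ∧
      ¬ ((p ^ 2 : ℕ) : ℤ) ∣ ((x₁ + W * (K + t) + δ : ℕ) : ℤ) ^ 2 - N).card : ℝ) := by
  have hWr : (1 : ℝ) ≤ W := by exact_mod_cast hW
  obtain ⟨Y₀, hY₀⟩ := few_primes (1 / (96 * W)) (by positivity)
  refine ⟨256 * (a * (x₁ + 2 * W) + β + γ + N + δ + 1) + Y₀ + x₁, fun K hK => ?_⟩
  have hK1 : 256 * (a * (x₁ + 2 * W) + β + γ + N + δ + 1) ≤ K := by omega
  have hWK : K ≤ W * K := Nat.le_mul_of_pos_left K hW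
  have haW : x₁ + W * K ≤ a * (x₁ + W * K) := Nat.le_mul_of_pos_left _ ha
  have hbig : γ + N + 1 ≤ K := by
    have : γ + N + 1 ≤ 256 * (a * (x₁ + 2 * W) + β + γ + N + δ + 1) := by omega
    omega
  refine ⟨by omega, ?_⟩
  have hKr : (0 : ℝ) ≤ K := Nat.cast_nonneg K
  have haWp : ∀ p : ℕ, p.Prime → k < p → ¬ p ∣ a * W := fun p hp hkp h =>
    (hp.dvd_mul.1 h).elim (hap p hp hkp) (hWp p hp hkp)
  have hs1 := sieve (a * (x₁ + W * K) + β) (a * W) K k (by omega) (by omega) haWp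
  have hs2 := sieve (a * (x₁ + W * K) - γ) (a * W) K k (by omega) (by omega) haWp
  have hs3 := sieve2 (x₁ + W * K) W N K k (x₁ + W * K + W * K + δ) (by omega) hWp hNp (fun t _ => by
    have h1 : N < x₁ + W * K + W * t := by
      have := Nat.zero_le (W * t)
      omega
    nlinarith) (by omega)
  have hs4 := sieve2 (x₁ + W * K + δ) W N K k (x₁ + W * K + W * K + δ) (by omega) hWp hNp (fun t _ => by
    have h1 : N < x₁ + W * K + δ + W * t := by
      have := Nat.zero_le (W * t)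
      omega
    nlinarith) (by omega)
  set B1 := (range K).filter fun t => ∃ p : ℕ, p.Prime ∧ k < p ∧ p ^ 2 ∣ a * (x₁ + W * K) + β + a * W * t with hB1
  set B2 := (range K).filter fun t => ∃ p : ℕ, p.Prime ∧ k < p ∧ p ^ 2 ∣ a * (x₁ + W * K) - γ + a * W * t with hB2
  set B3 := (range K).filter fun t => ∃ p : ℕ, p.Prime ∧ k < p ∧
    ((p ^ 2 : ℕ) : ℤ) ∣ ((x₁ + W * K + W * t : ℕ) : ℤ) ^ 2 - N with hB3
  set B4 := (range K).filter fun t => ∃ p : ℕ, p.Prime ∧ k < p ∧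
    ((p ^ 2 : ℕ) : ℤ) ∣ ((x₁ + W * K + δ + W * t : ℕ) : ℤ) ^ 2 - N with hB4
  set G := (range K).filter fun t => ∀ p : ℕ, p.Prime → k < p →
      ¬ p ^ 2 ∣ a * (x₁ + W * (K + t)) + β ∧ ¬ p ^ 2 ∣ a * (x₁ + W * (K + t)) - γ ∧
      ¬ ((p ^ 2 : ℕ) : ℤ) ∣ ((x₁ + W * (K + t) : ℕ) : ℤ) ^ 2 - N ∧
      ¬ ((p ^ 2 : ℕ) : ℤ) ∣ ((x₁ + W * (K + t) + δ : ℕ) : ℤ) ^ 2 - N with hG
  have hcov : range K ⊆ G ∪ B1 ∪ B2 ∪ B3 ∪ B4 := by
    intro t ht
    simp only [mem_union]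
    by_contra hcon
    push Not at hcon
    obtain ⟨⟨⟨⟨hg, hb1⟩, hb2⟩, hb3⟩, hb4⟩ := hcon
    refine hg (mem_filter.2 ⟨ht, fun p hp hpk => ⟨fun h => ?_, fun h => ?_, fun h => ?_, fun h => ?_⟩⟩)
    · refine hb1 (mem_filter.2 ⟨ht, p, hp, hpk, ?_⟩)
      have e : a * (x₁ + W * K) + β + a * W * t = a * (x₁ + W * (K + t)) + β := by ring
      rw [e]; exact h
    · refine hb2 (mem_filter.2 ⟨ht, p, hp, hpk, ?_⟩)
      have e : a * (x₁ + W * (K + t)) = a * (x₁ + W * K) + a * W * t := by ring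
      have e2 : a * (x₁ + W * K) - γ + a * W * t = a * (x₁ + W * (K + t)) - γ := by omega
      rw [e2]; exact h
    · refine hb3 (mem_filter.2 ⟨ht, p, hp, hpk, ?_⟩)
      have e : x₁ + W * K + W * t = x₁ + W * (K + t) := by ring
      rw [e]; exact h
    · refine hb4 (mem_filter.2 ⟨ht, p, hp, hpk, ?_⟩)
      have e : x₁ + W * K + δ + W * t = x₁ + W * (K + t) + δ := by ring
      rw [e]; exact h
  have hcard : (K : ℝ) ≤ G.card + B1.card + B2.card + B3.card + B4.card := by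
    have h1 := (card_le_card hcov).trans ((card_union_le _ _).trans (add_le_add_left ((card_union_le _ _).trans
      (add_le_add_left ((card_union_le _ _).trans (add_le_add_left (card_union_le G B1) _)) _)) _))
    rw [card_range] at h1
    exact_mod_cast h1
  -- the errors
  have hkr : (48 : ℝ) ≤ k := by exact_mod_cast hk
  have e4 : (K : ℝ) / k ≤ K / 48 := div_le_div_of_nonneg_left hKr (by norm_num) hkr
  have hsq : ∀ m : ℕ, m ≤ a * (x₁ + W * K) + β + a * W * K → (Nat.sqrt m : ℝ) ≤ K / 16 := by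
    intro m hm
    have h1 : ((Nat.sqrt m : ℕ) : ℝ) ^ 2 ≤ m := by exact_mod_cast Nat.sqrt_le' m
    have h2 : 256 * m ≤ K ^ 2 := by
      have h3 : m ≤ (a * (x₁ + 2 * W) + β) * K := by
        have hK1' : 1 ≤ K := by omega
        calc m ≤ a * (x₁ + W * K) + β + a * W * K := hm
          _ ≤ a * (x₁ * K + W * K) + β * K + a * W * K := by
            have h4 : x₁ ≤ x₁ * K := Nat.le_mul_of_pos_right _ hK1'
            have h5 : β ≤ β * K := Nat.le_mul_of_pos_right _ hK1'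
            have h6 : a * (x₁ + W * K) ≤ a * (x₁ * K + W * K) := Nat.mul_le_mul_left a (by omega)
            omega
          _ = (a * (x₁ + 2 * W) + β) * K := by ring
      calc 256 * m ≤ 256 * ((a * (x₁ + 2 * W) + β) * K) := Nat.mul_le_mul_left _ h3
        _ = (256 * (a * (x₁ + 2 * W) + β)) * K := by ring
        _ ≤ K * K := Nat.mul_le_mul_right K (by omega)
        _ = K ^ 2 := by ring
    have h3 : (256 : ℝ) * m ≤ (K : ℝ) ^ 2 := by exact_mod_cast h2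
    have h4 : (16 * ((Nat.sqrt m : ℕ) : ℝ)) ^ 2 ≤ (K : ℝ) ^ 2 := by nlinarith
    have h5 := (abs_le.1 (abs_le_of_sq_le_sq h4 hKr)).2
    linarith
  have f1 := hsq (a * (x₁ + W * K) + β + a * W * K) le_rfl
  have f2 := hsq (a * (x₁ + W * K) - γ + a * W * K) (by omega)
  have hY : (Nat.primeCounting (x₁ + W * K + W * K + δ) : ℝ) ≤ K / 32 := by
    have h1 : x₁ + W * K + W * K + δ ≤ 3 * W * K := by
      have : x₁ + δ ≤ K := by
        have : x₁ ≤ a * (x₁ + 2 * W) := (Nat.le_add_right _ _).trans (Nat.le_mul_of_pos_left _ ha)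
        omega
      have e : 3 * W * K = W * K + W * K + W * K := by ring
      omega
    have h2 : Y₀ ≤ 3 * W * K := by
      have e : 3 * W * K = W * K + W * K + W * K := by ring
      omega
    have h3 : (Nat.primeCounting (x₁ + W * K + W * K + δ) : ℝ) ≤ Nat.primeCounting (3 * W * K) := by
      exact_mod_cast Nat.monotone_primeCounting h1
    refine h3.trans ((hY₀ _ h2).trans (le_of_eq ?_))
    push_cast
    field_simp
    ring
  linarith

end Pool.Agent.U552.CN
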