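import Pool.Agent.U552.CN.PMain

/-!
Many pairs of squarefree congruent numbers at the distance `7 b² s⁶`.
-/

set_option autoImplicit false

namespace Pool.Agent.U552.CN

open Finset

lemma fz_pos {a b s x : ℕ} (ha : 1 ≤ a) (hx0 : 1 ≤ x) (hx : 2 * b ^ 2 * (s ^ 2) ^ 2 < x ^ 2) :
    0 < fz a b (s ^ 2) x := by
  unfold fz
  have h1 : (2 : ℤ) * b ^ 2 * ((s ^ 2 : ℕ) : ℤ) ^ 2 < (x : ℤ) ^ 2 := by exact_mod_cast hx
  have h2 : (0 : ℤ) < a * x := by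
    have : 0 < a * x := Nat.mul_pos ha hx0
    exact_mod_cast this
  have h3 : (0 : ℤ) ≤ 3 * ((s ^ 2 : ℕ) : ℤ) := by positivity
  exact mul_pos (by linarith) (by linarith)

lemma fz_lt {a b s x y : ℕ} (ha : 1 ≤ a) (hx0 : 1 ≤ x) (hx : 2 * b ^ 2 * (s ^ 2) ^ 2 < x ^ 2) (hxy : x < y) :
    fz a b (s ^ 2) x < fz a b (s ^ 2) y := by
  unfold fz
  have h1 : (2 : ℤ) * b ^ 2 * ((s ^ 2 : ℕ) : ℤ) ^ 2 < (x : ℤ) ^ 2 := by exact_mod_cast hx
  have hxyz : (x : ℤ) < y := by exact_mod_cast hxy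
  have hx0z : (1 : ℤ) ≤ x := by exact_mod_cast hx0
  have haz : (1 : ℤ) ≤ a := by exact_mod_cast ha
  have h3 : (0 : ℤ) ≤ 3 * ((s ^ 2 : ℕ) : ℤ) := by positivity
  have h4 : (a : ℤ) * x + 3 * ((s ^ 2 : ℕ) : ℤ) < a * y + 3 * ((s ^ 2 : ℕ) : ℤ) := by nlinarith
  have h5 : (x : ℤ) ^ 2 - 2 * b ^ 2 * ((s ^ 2 : ℕ) : ℤ) ^ 2 < (y : ℤ) ^ 2 - 2 * b ^ 2 * ((s ^ 2 : ℕ) : ℤ) ^ 2 := by
    nlinarith
  exact mul_lt_mul'' h4 h5 (by nlinarith) (by linarith)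

/-- **Many pairs of squarefree congruent numbers at the distance `7 b² s⁶`.** -/
theorem pairs (a b s ρ : ℕ) (hab : a = 2 ∧ b = 1 ∨ a = 1 ∧ b = 2) (hs : 1 ≤ s)
    (h4 : ∀ x : ℕ, x ≡ ρ [MOD 8] → ¬ (4 : ℤ) ∣ fz a b (s ^ 2) x ∧ ¬ (4 : ℤ) ∣ gz a b (s ^ 2) x) :
    ∃ c X₀ : ℝ, 0 < c ∧ ∀ X : ℝ, X₀ ≤ X → ∃ A : Finset ℕ, c * X ^ (1 / 3 : ℝ) ≤ A.card ∧ ∀ n ∈ A, (n : ℝ) ≤ X ∧
      Squarefree n ∧ Squarefree (n + 7 * b ^ 2 * s ^ 6) ∧ Tri n ∧ Tri (n + 7 * b ^ 2 * s ^ 6) ∧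
        ∃ x : ℕ, x ≡ ρ [MOD 8] ∧ (n : ℤ) = fz a b (s ^ 2) x := by
  classical
  have hab2 : a * b = 2 := by rcases hab with ⟨rfl, rfl⟩ | ⟨rfl, rfl⟩ <;> rfl
  have ha : 1 ≤ a := by rcases hab with ⟨rfl, rfl⟩ | ⟨rfl, rfl⟩ <;> omega
  have ha2 : a ≤ 2 := by rcases hab with ⟨rfl, rfl⟩ | ⟨rfl, rfl⟩ <;> omega
  have hb2 : b ≤ 2 := by rcases hab with ⟨rfl, rfl⟩ | ⟨rfl, rfl⟩ <;> omega
  have hb1 : 1 ≤ b := by rcases hab with ⟨rfl, rfl⟩ | ⟨rfl, rfl⟩ <;> omega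
  obtain ⟨k, hk⟩ : ∃ k : ℕ, k = 48 + s := ⟨_, rfl⟩
  obtain ⟨W, x₁, hW, hWp, hcl⟩ := classes2 s k ρ
  have hbig : ∀ p : ℕ, p.Prime → k < p → ¬ p ∣ s ∧ ¬ p ∣ a ∧ ¬ p ∣ b ∧ ¬ p ∣ 2 := by
    intro p hp hkp
    refine ⟨fun h => ?_, fun h => ?_, fun h => ?_, fun h => ?_⟩
    · have := Nat.le_of_dvd (by omega) h; omega
    · have := Nat.le_of_dvd (by omega) h; omega
    · have := Nat.le_of_dvd (by omega) h; omega
    · have := Nat.le_of_dvd (by omega) h; omega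
  obtain ⟨K₀, hK₀⟩ := pair_count a (3 * s ^ 2) (s ^ 2) (b * s ^ 2) (2 * b ^ 2 * (s ^ 2) ^ 2) x₁ W k ha hW (by omega)
    (fun p hp hkp => hWp p hp (by omega) hkp) (fun p hp hkp => (hbig p hp hkp).2.1) (fun p hp hkp h => by
      obtain ⟨g1, _, g3, g4⟩ := hbig p hp hkp
      rcases hp.dvd_mul.1 h with h | h
      · exact g4 h
      · rcases hp.dvd_mul.1 h with h | h
        · rcases hp.dvd_mul.1 h with h | h
          · exact g4 h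
          · exact g3 (hp.dvd_of_dvd_pow h)
        · exact g1 (hp.dvd_of_dvd_pow (hp.dvd_of_dvd_pow h)))
  have hWr : (1 : ℝ) ≤ W := by exact_mod_cast hW
  obtain ⟨J, hJ⟩ : ∃ J : ℕ, J = K₀ + x₁ + 3 * s ^ 2 + 2 := ⟨_, rfl⟩
  refine ⟨1 / (20 * W), (10 * W * J) ^ 3, by positivity, fun X hX => ?_⟩
  have hJr : (2 : ℝ) ≤ J := by
    have : 2 ≤ J := by omega
    exact_mod_cast this
  have hX0 : 0 ≤ X := le_trans (by positivity) hX
  set Y : ℝ := X ^ (1 / 3 : ℝ) with hY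
  have hY0 : 0 ≤ Y := Real.rpow_nonneg hX0 _
  have hY3 : Y ^ 3 = X := by
    rw [hY, ← Real.rpow_natCast, ← Real.rpow_mul hX0]
    norm_num
  have hYJ : 10 * W * J ≤ Y := by
    refine le_of_pow_le_pow_left₀ (n := 3) (by norm_num) hY0 ?_
    rw [hY3]
    exact hX
  obtain ⟨K, hK⟩ : ∃ K : ℕ, K = ⌊Y / (5 * W)⌋₊ := ⟨_, rfl⟩
  have hKle : (K : ℝ) ≤ Y / (5 * W) := by
    rw [hK]
    exact Nat.floor_le (by positivity)
  have hKge : Y / (5 * W) - 1 ≤ K := by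
    rw [hK]
    exact (Nat.sub_one_lt_floor _).le
  have hYW : 2 * (J : ℝ) ≤ Y / (5 * W) := by
    rw [le_div_iff₀ (by positivity)]
    linarith
  have hKJ : J ≤ K := by
    have : (J : ℝ) ≤ K := by linarith
    exact_mod_cast this
  obtain ⟨hpos, hcount⟩ := hK₀ K (by omega)
  have hWK : K ≤ W * K := Nat.le_mul_of_pos_left K hW
  have hxfact : ∀ t : ℕ, 1 ≤ x₁ + W * (K + t) ∧ 3 * s ^ 2 ≤ x₁ + W * (K + t) ∧
      2 * b ^ 2 * (s ^ 2) ^ 2 < (x₁ + W * (K + t)) ^ 2 := by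
    intro t
    have e : W * (K + t) = W * K + W * t := by ring
    refine ⟨by omega, by omega, ?_⟩
    have h1 : 2 * b ^ 2 * (s ^ 2) ^ 2 < x₁ + W * (K + t) := by omega
    nlinarith
  set G := (range K).filter fun t => ∀ p : ℕ, p.Prime → k < p →
      ¬ p ^ 2 ∣ a * (x₁ + W * (K + t)) + 3 * s ^ 2 ∧ ¬ p ^ 2 ∣ a * (x₁ + W * (K + t)) - s ^ 2 ∧
      ¬ ((p ^ 2 : ℕ) : ℤ) ∣ ((x₁ + W * (K + t) : ℕ) : ℤ) ^ 2 - (2 * b ^ 2 * (s ^ 2) ^ 2 : ℕ) ∧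
      ¬ ((p ^ 2 : ℕ) : ℤ) ∣ ((x₁ + W * (K + t) + b * s ^ 2 : ℕ) : ℤ) ^ 2 - (2 * b ^ 2 * (s ^ 2) ^ 2 : ℕ) with hG
  set F : ℕ → ℕ := fun t => (fz a b (s ^ 2) ((x₁ + W * (K + t) : ℕ) : ℤ)).toNat with hF
  have hFc : ∀ t, ((F t : ℕ) : ℤ) = fz a b (s ^ 2) ((x₁ + W * (K + t) : ℕ) : ℤ) := by
    intro t
    obtain ⟨g1, _, g3⟩ := hxfact t
    rw [hF]
    exact Int.toNat_of_nonneg (fz_pos ha g1 g3).le
  have hFmono : StrictMono F := by
    refine strictMono_nat_of_lt_succ fun t => ?_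
    obtain ⟨g1, _, g3⟩ := hxfact t
    have hlt : x₁ + W * (K + t) < x₁ + W * (K + (t + 1)) := by
      have : W * (K + (t + 1)) = W * (K + t) + W := by ring
      omega
    have := fz_lt (b := b) (s := s) ha g1 g3 hlt
    rw [← hFc, ← hFc] at this
    exact_mod_cast this
  refine ⟨G.image F, ?_, ?_⟩
  · rw [card_image_of_injective _ hFmono.injective]
    refine le_trans ?_ hcount
    have h1 : 1 ≤ Y / (10 * W) := by
      rw [le_div_iff₀ (by positivity)]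
      nlinarith
    have h2 : Y / (5 * W) = 2 * (Y / (10 * W)) := by
      field_simp
      ring
    have h3 : 1 / (20 * (W : ℝ)) * Y = (Y / (10 * W)) / 2 := by
      field_simp
      ring
    rw [h3]
    linarith
  · intro n hn
    rw [mem_image] at hn
    obtain ⟨t, ht, rfl⟩ := hn
    rw [mem_filter, mem_range] at ht
    obtain ⟨htK, hgood⟩ := ht
    obtain ⟨g1, g2, g3⟩ := hxfact t
    obtain ⟨x, hx⟩ : ∃ x : ℕ, x = x₁ + W * (K + t) := ⟨_, rfl⟩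
    have hFt := hFc t
    rw [← hx] at g1 g2 g3 hFt
    have hxmod : x ≡ x₁ [MOD W] := by
      rw [hx]
      exact ((Nat.modEq_zero_iff_dvd.2 (dvd_mul_right W (K + t))).add_left x₁).trans (by rw [Nat.add_zero])
    obtain ⟨hx8, hxs⟩ := hcl x hxmod
    have hgz : ((F t + 7 * b ^ 2 * s ^ 6 : ℕ) : ℤ) = gz a b (s ^ 2) x := by
      rw [gz_eq hab2, ← hFt]
      push_cast
      ring
    have hax : s ^ 2 ≤ a * x := by
      have : x ≤ a * x := Nat.le_mul_of_pos_left x ha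
      omega
    have hall : ∀ p : ℕ, p.Prime → ¬ ((p ^ 2 : ℕ) : ℤ) ∣ fz a b (s ^ 2) x ∧ ¬ ((p ^ 2 : ℕ) : ℤ) ∣ gz a b (s ^ 2) x := by
      intro p hp
      rcases le_or_gt p k with hpk | hpk
      · rcases (show p = 2 ∨ 2 < p by have := hp.two_le; omega) with h2 | h2
        · subst h2
          exact h4 x hx8
        · exact small_odd hab2 hp h2 ((hxs p hp h2 hpk).1) ((hxs p hp h2 hpk).2)
      · obtain ⟨q1, q2, q3, q4⟩ := hgood p hp hpk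
        rw [← hx] at q1 q2 q3 q4
        exact large hab2 hp (hbig p hp hpk).1 hax q1 q2 q3 q4
    refine ⟨?_, ?_, ?_, tri_first hab hs g3 hFt, tri_second hab hs g3 hgz, x, hx8, hFt⟩
    · -- the size
      have h1 : ((F t : ℕ) : ℝ) ≤ 3 * (x : ℝ) ^ 3 := by
        have h2 : fz a b (s ^ 2) x ≤ 3 * (x : ℤ) ^ 3 := by
          unfold fz
          have h3 : (3 : ℤ) * ((s ^ 2 : ℕ) : ℤ) ≤ x := by exact_mod_cast g2
          have h5 : (a : ℤ) ≤ 2 := by exact_mod_cast ha2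
          have h6 : (1 : ℤ) ≤ x := by exact_mod_cast g1
          have h7 : (2 : ℤ) * b ^ 2 * ((s ^ 2 : ℕ) : ℤ) ^ 2 < (x : ℤ) ^ 2 := by exact_mod_cast g3
          have h8 : (a : ℤ) * x + 3 * ((s ^ 2 : ℕ) : ℤ) ≤ 3 * x := by nlinarith
          have h9 : (0 : ℤ) ≤ 2 * b ^ 2 * ((s ^ 2 : ℕ) : ℤ) ^ 2 := by positivity
          calc ((a : ℤ) * x + 3 * ((s ^ 2 : ℕ) : ℤ)) * ((x : ℤ) ^ 2 - 2 * b ^ 2 * ((s ^ 2 : ℕ) : ℤ) ^ 2) ≤
              (3 * x) * (x : ℤ) ^ 2 := mul_le_mul h8 (by linarith) (by linarith) (by linarith)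
            _ = 3 * (x : ℤ) ^ 3 := by ring
        rw [← hFt] at h2
        exact_mod_cast h2
      refine h1.trans ?_
      have h2 : (x : ℝ) ≤ 3 * W * K := by
        have : x ≤ 3 * W * K := by
          have e : 3 * W * K = W * K + W * K + W * K := by ring
          have e2 : W * (K + t) = W * K + W * t := by ring
          have e3 : W * t ≤ W * K := Nat.mul_le_mul_left W htK.le
          omega
        exact_mod_cast this
      have h3 : (3 : ℝ) * W * K ≤ 3 / 5 * Y := by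
        have h5 : 3 * (W : ℝ) * K ≤ 3 * W * (Y / (5 * W)) := mul_le_mul_of_nonneg_left hKle (by positivity)
        have h6 : 3 * (W : ℝ) * (Y / (5 * W)) = 3 / 5 * Y := by
          field_simp
        linarith
      have h5 : (x : ℝ) ^ 3 ≤ (3 / 5 * Y) ^ 3 := pow_le_pow_left₀ (Nat.cast_nonneg _) (h2.trans h3) 3
      rw [mul_pow, hY3] at h5
      nlinarith
    · rw [Nat.squarefree_iff_prime_squarefree]
      intro p hp hd
      refine (hall p hp).1 ?_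
      rw [← hFt, pow_two]
      exact_mod_cast hd
    · rw [Nat.squarefree_iff_prime_squarefree]
      intro p hp hd
      refine (hall p hp).2 ?_
      rw [← hgz, pow_two]
      exact_mod_cast hd

end Pool.Agent.U552.CN
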