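import Pool.Agent.U552.CN.PCount

/-!
Pairs of squarefree congruent numbers at the distance `7 b² s⁶`.

For `S = s²` and `a b = 2` the curve `y² = (a x + 3 S) (x² - 2 b² S²)` is isogenous to `y² = x³ - x`, and so is
`y² = (a x - S) ((x + b S)² - 2 b² S²)`, whose right hand side is larger by the constant `7 b² S³`.
-/

set_option autoImplicit false

namespace Pool.Agent.U552.CN

open Finset

/-- the first number of the pair -/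
def fz (a b S : ℕ) (x : ℤ) : ℤ := (a * x + 3 * S) * (x ^ 2 - 2 * b ^ 2 * S ^ 2)

/-- the second number of the pair -/
def gz (a b S : ℕ) (x : ℤ) : ℤ := (a * x - S) * ((x + b * S) ^ 2 - 2 * b ^ 2 * S ^ 2)

/-- area of a right triangle with rational sides -/
def Tri (n : ℕ) : Prop :=
  ∃ a b c : ℚ, 0 < a ∧ 0 < b ∧ 0 < c ∧ a ^ 2 + b ^ 2 = c ^ 2 ∧ (n : ℚ) = a * b / 2

lemma gz_eq {a b : ℕ} (hab : a * b = 2) (S : ℕ) (x : ℤ) : gz a b S x = fz a b S x + 7 * b ^ 2 * S ^ 3 := by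
  have h : (a : ℤ) * b = 2 := by exact_mod_cast hab
  unfold gz fz
  linear_combination (2 * (S : ℤ) * x ^ 2 + b * S ^ 2 * x) * h

lemma fz_exp {a b : ℕ} (hab : a * b = 2) (S : ℕ) (x : ℤ) :
    fz a b S x = x * (a * x ^ 2 + 3 * S * x - 4 * b * S ^ 2) - 6 * b ^ 2 * S ^ 3 := by
  have h : (a : ℤ) * b = 2 := by exact_mod_cast hab
  unfold fz
  linear_combination (-2 * b * (S : ℤ) ^ 2 * x) * h

lemma gz_exp {a b : ℕ} (hab : a * b = 2) (S : ℕ) (x : ℤ) :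
    gz a b S x = x * (a * x ^ 2 + 3 * S * x - 4 * b * S ^ 2) + b ^ 2 * S ^ 3 := by
  rw [gz_eq hab, fz_exp hab]
  ring

lemma odd_not_dvd {a b : ℕ} (hab : a * b = 2) {p : ℕ} (hp : p.Prime) (h2 : 2 < p) : ¬ p ∣ a ∧ ¬ p ∣ b := by
  constructor <;> intro h
  · have : p ∣ 2 := hab ▸ Dvd.dvd.mul_right h b
    have := Nat.le_of_dvd (by norm_num) this
    omega
  · have : p ∣ 2 := hab ▸ Dvd.dvd.mul_left h a
    have := Nat.le_of_dvd (by norm_num) this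
    omega

/-- the small odd primes -/
lemma small_odd {a b s x p : ℕ} (hab : a * b = 2) (hp : p.Prime) (h2 : 2 < p)
    (h1 : p ∣ s → x ≡ 1 [MOD p]) (h3 : ¬ p ∣ s → p ^ 2 ∣ x) :
    ¬ ((p ^ 2 : ℕ) : ℤ) ∣ fz a b (s ^ 2) x ∧ ¬ ((p ^ 2 : ℕ) : ℤ) ∣ gz a b (s ^ 2) x := by
  obtain ⟨hpa, hpb⟩ := odd_not_dvd hab hp h2
  have hpz : Prime (p : ℤ) := Nat.prime_iff_prime_int.1 hp
  have hred : ∀ z : ℤ, ((p ^ 2 : ℕ) : ℤ) ∣ z → ((p : ℕ) : ℤ) ∣ z := fun z hz =>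
    Dvd.dvd.trans ⟨p, by push_cast; ring⟩ hz
  by_cases hps : p ∣ s
  · have : Fact p.Prime := ⟨hp⟩
    have hx : ((x : ℕ) : ZMod p) = 1 := by
      have := (ZMod.natCast_eq_natCast_iff x 1 p).2 (h1 hps)
      simpa using this
    have hs : ((s : ℕ) : ZMod p) = 0 := (ZMod.natCast_eq_zero_iff s p).2 hps
    have ha0 : ((a : ℕ) : ZMod p) ≠ 0 := fun h => hpa ((ZMod.natCast_eq_zero_iff a p).1 h)
    constructor <;> intro h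
    · have h4 := (ZMod.intCast_zmod_eq_zero_iff_dvd _ p).2 (hred _ h)
      unfold fz at h4
      push_cast at h4
      rw [hx, hs] at h4
      refine ha0 ?_
      simpa using h4
    · have h4 := (ZMod.intCast_zmod_eq_zero_iff_dvd _ p).2 (hred _ h)
      unfold gz at h4
      push_cast at h4
      rw [hx, hs] at h4
      refine ha0 ?_
      simpa using h4
  · have hx : ((p ^ 2 : ℕ) : ℤ) ∣ (x : ℤ) := by exact_mod_cast h3 hps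
    have hbS : ¬ p ∣ b ^ 2 * (s ^ 2) ^ 3 := by
      intro h
      rcases hp.dvd_mul.1 h with h | h
      · exact hpb (hp.dvd_of_dvd_pow h)
      · exact hps (hp.dvd_of_dvd_pow (hp.dvd_of_dvd_pow h))
    constructor <;> intro h
    · rw [fz_exp hab] at h
      have h4 := (dvd_sub_right (Dvd.dvd.mul_right hx _)).1 h
      have h5 : p ^ 2 ∣ 6 * (b ^ 2 * (s ^ 2) ^ 3) := by
        have : (6 : ℤ) * b ^ 2 * ((s ^ 2 : ℕ) : ℤ) ^ 3 = ((6 * (b ^ 2 * (s ^ 2) ^ 3) : ℕ) : ℤ) := by push_cast; ring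
        rw [this] at h4
        exact_mod_cast h4
      have h6 : p ^ 2 ∣ 6 := by
        refine Nat.Coprime.dvd_of_dvd_mul_right ?_ h5
        exact Nat.Coprime.pow_left 2 ((Nat.Prime.coprime_iff_not_dvd hp).2 hbS)
      have := Nat.le_of_dvd (by norm_num) h6
      nlinarith
    · rw [gz_exp hab] at h
      have h4 := (dvd_add_right (Dvd.dvd.mul_right hx _)).1 h
      have h5 : p ^ 2 ∣ b ^ 2 * (s ^ 2) ^ 3 := by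
        have : (b : ℤ) ^ 2 * ((s ^ 2 : ℕ) : ℤ) ^ 3 = ((b ^ 2 * (s ^ 2) ^ 3 : ℕ) : ℤ) := by push_cast; ring
        rw [this] at h4
        exact_mod_cast h4
      exact hbS ((dvd_pow_self p (by norm_num)).trans h5)

/-- the large primes -/
lemma split_sq {p : ℕ} (hp : p.Prime) {L Q : ℤ} (h : ((p ^ 2 : ℕ) : ℤ) ∣ L * Q) :
    ((p ^ 2 : ℕ) : ℤ) ∣ L ∨ ((p ^ 2 : ℕ) : ℤ) ∣ Q ∨ ((p : ℤ) ∣ L ∧ (p : ℤ) ∣ Q) := by
  have hpz : Prime (p : ℤ) := Nat.prime_iff_prime_int.1 hp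
  by_cases h1 : (p : ℤ) ∣ L
  · by_cases h2 : (p : ℤ) ∣ Q
    · exact Or.inr (Or.inr ⟨h1, h2⟩)
    · left
      have hc : IsCoprime (((p ^ 2 : ℕ)) : ℤ) Q := by
        push_cast
        exact IsCoprime.pow_left ((Prime.coprime_iff_not_dvd hpz).2 h2)
      exact hc.dvd_of_dvd_mul_right h
  · right; left
    have hc : IsCoprime (((p ^ 2 : ℕ)) : ℤ) L := by
      push_cast
      exact IsCoprime.pow_left ((Prime.coprime_iff_not_dvd hpz).2 h1)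
    exact hc.dvd_of_dvd_mul_left h

lemma large {a b s x p : ℕ} (hab : a * b = 2) (hp : p.Prime) (hps : ¬ p ∣ s)
    (hx : s ^ 2 ≤ a * x)
    (h1 : ¬ p ^ 2 ∣ a * x + 3 * s ^ 2) (h2 : ¬ p ^ 2 ∣ a * x - s ^ 2)
    (h3 : ¬ ((p ^ 2 : ℕ) : ℤ) ∣ ((x : ℕ) : ℤ) ^ 2 - (2 * b ^ 2 * (s ^ 2) ^ 2 : ℕ))
    (h4 : ¬ ((p ^ 2 : ℕ) : ℤ) ∣ ((x + b * s ^ 2 : ℕ) : ℤ) ^ 2 - (2 * b ^ 2 * (s ^ 2) ^ 2 : ℕ)) :
    ¬ ((p ^ 2 : ℕ) : ℤ) ∣ fz a b (s ^ 2) x ∧ ¬ ((p ^ 2 : ℕ) : ℤ) ∣ gz a b (s ^ 2) x := by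
  have h : (a : ℤ) * b = 2 := by exact_mod_cast hab
  have hpz : Prime (p : ℤ) := Nat.prime_iff_prime_int.1 hp
  have hnS : ¬ (p : ℤ) ∣ (((s ^ 2 : ℕ)) : ℤ) ^ 2 := by
    intro h'
    have h5 := hpz.dvd_of_dvd_pow h'
    have h6 : p ∣ s ^ 2 := by exact_mod_cast h5
    exact hps (hp.dvd_of_dvd_pow h6)
  constructor <;> intro hd
  · rcases split_sq hp hd with h5 | h5 | ⟨h5, h6⟩
    · refine h1 ?_
      have : (((a * x + 3 * s ^ 2 : ℕ)) : ℤ) = (a : ℤ) * x + 3 * ((s ^ 2 : ℕ) : ℤ) := by push_cast; ring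
      rw [← this] at h5
      exact_mod_cast h5
    · refine h3 ?_
      have : ((x : ℕ) : ℤ) ^ 2 - ((2 * b ^ 2 * (s ^ 2) ^ 2 : ℕ) : ℤ) = (x : ℤ) ^ 2 - 2 * b ^ 2 * ((s ^ 2 : ℕ) : ℤ) ^ 2 := by
        push_cast; ring
      rw [this]
      exact h5
    · refine hnS ?_
      have e : (((s ^ 2 : ℕ)) : ℤ) ^ 2 = (a : ℤ) ^ 2 * ((x : ℤ) ^ 2 - 2 * b ^ 2 * ((s ^ 2 : ℕ) : ℤ) ^ 2) -
          ((a : ℤ) * x + 3 * ((s ^ 2 : ℕ) : ℤ)) * (a * x - 3 * ((s ^ 2 : ℕ) : ℤ)) := by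
        linear_combination (2 * ((a : ℤ) * b + 2) * ((s ^ 2 : ℕ) : ℤ) ^ 2) * h
      rw [e]
      exact dvd_sub (Dvd.dvd.mul_left h6 _) (Dvd.dvd.mul_right h5 _)
  · rcases split_sq hp hd with h5 | h5 | ⟨h5, h6⟩
    · refine h2 ?_
      have : (((a * x - s ^ 2 : ℕ)) : ℤ) = (a : ℤ) * x - ((s ^ 2 : ℕ) : ℤ) := by
        rw [Nat.cast_sub hx]
        push_cast; ring
      rw [← this] at h5
      exact_mod_cast h5
    · refine h4 ?_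
      have : ((x + b * s ^ 2 : ℕ) : ℤ) ^ 2 - ((2 * b ^ 2 * (s ^ 2) ^ 2 : ℕ) : ℤ) =
          ((x : ℤ) + b * ((s ^ 2 : ℕ) : ℤ)) ^ 2 - 2 * b ^ 2 * ((s ^ 2 : ℕ) : ℤ) ^ 2 := by
        push_cast; ring
      rw [this]
      exact h5
    · refine hnS ?_
      have e : (((s ^ 2 : ℕ)) : ℤ) ^ 2 =
          (a : ℤ) ^ 2 * (((x : ℤ) + b * ((s ^ 2 : ℕ) : ℤ)) ^ 2 - 2 * b ^ 2 * ((s ^ 2 : ℕ) : ℤ) ^ 2) -
          ((a : ℤ) * x - ((s ^ 2 : ℕ) : ℤ)) * (a * x + 5 * ((s ^ 2 : ℕ) : ℤ)) := by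
        linear_combination (((a : ℤ) * b + 2) * ((s ^ 2 : ℕ) : ℤ) ^ 2 - 2 * (a : ℤ) * x * ((s ^ 2 : ℕ) : ℤ)) * h
      rw [e]
      exact dvd_sub (Dvd.dvd.mul_left h6 _) (Dvd.dvd.mul_right h5 _)

lemma tri_first {a b s x n : ℕ} (hab : a = 2 ∧ b = 1 ∨ a = 1 ∧ b = 2) (hs : 1 ≤ s)
    (hx : 2 * b ^ 2 * (s ^ 2) ^ 2 < x ^ 2) (hn : (n : ℤ) = fz a b (s ^ 2) x) : Tri n := by
  have hsq : (0 : ℚ) < s := by exact_mod_cast hs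
  have hx0 : 0 < x := by
    rcases Nat.eq_zero_or_pos x with h | h
    · rw [h] at hx; simp at hx
    · exact h
  have hxq : (0 : ℚ) < x := by exact_mod_cast hx0
  have hnq : (n : ℚ) = (a * x + 3 * (s : ℚ) ^ 2) * ((x : ℚ) ^ 2 - 2 * b ^ 2 * ((s : ℚ) ^ 2) ^ 2) := by
    have : (n : ℚ) = ((fz a b (s ^ 2) x : ℤ) : ℚ) := by exact_mod_cast congrArg (fun z : ℤ => (z : ℚ)) hn
    rw [this]
    unfold fz
    push_cast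
    ring
  have hQ : (0 : ℚ) < (x : ℚ) ^ 2 - 2 * b ^ 2 * ((s : ℚ) ^ 2) ^ 2 := by
    have : (2 : ℚ) * b ^ 2 * ((s : ℚ) ^ 2) ^ 2 < (x : ℚ) ^ 2 := by exact_mod_cast hx
    linarith
  rcases hab with ⟨rfl, rfl⟩ | ⟨rfl, rfl⟩
  · refine ⟨((x : ℚ) ^ 2 - 2 * (s : ℚ) ^ 4) * (x + 2 * (s : ℚ) ^ 2) / (s * (x + (s : ℚ) ^ 2)),
      2 * (2 * x + 3 * (s : ℚ) ^ 2) * (x + (s : ℚ) ^ 2) * s / (x + 2 * (s : ℚ) ^ 2),
      ((x + (s : ℚ) ^ 2) ^ 4 + (s : ℚ) ^ 4 * (2 * x + 3 * (s : ℚ) ^ 2) ^ 2) /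
        (s * (x + (s : ℚ) ^ 2) * (x + 2 * (s : ℚ) ^ 2)), ?_, by positivity, by positivity, ?_, ?_⟩
    · have : (x : ℚ) ^ 2 - 2 * (s : ℚ) ^ 4 = (x : ℚ) ^ 2 - 2 * ((1 : ℕ) : ℚ) ^ 2 * ((s : ℚ) ^ 2) ^ 2 := by
        push_cast; ring
      rw [this]
      positivity
    · field_simp
      ring
    · rw [hnq]
      push_cast
      field_simp
  · refine ⟨((x : ℚ) ^ 2 - 8 * (s : ℚ) ^ 4) * (x + 4 * (s : ℚ) ^ 2) / (2 * s * (x + 2 * (s : ℚ) ^ 2)),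
      4 * (x + 3 * (s : ℚ) ^ 2) * (x + 2 * (s : ℚ) ^ 2) * s / (x + 4 * (s : ℚ) ^ 2),
      ((x + 2 * (s : ℚ) ^ 2) ^ 4 + 16 * (s : ℚ) ^ 4 * (x + 3 * (s : ℚ) ^ 2) ^ 2) /
        (2 * s * (x + 2 * (s : ℚ) ^ 2) * (x + 4 * (s : ℚ) ^ 2)), ?_, by positivity, by positivity, ?_, ?_⟩
    · have : (x : ℚ) ^ 2 - 8 * (s : ℚ) ^ 4 = (x : ℚ) ^ 2 - 2 * ((2 : ℕ) : ℚ) ^ 2 * ((s : ℚ) ^ 2) ^ 2 := by
        push_cast; ring
      rw [this]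
      positivity
    · field_simp
      ring
    · rw [hnq]
      push_cast
      field_simp
      ring

lemma tri_second {a b s x n : ℕ} (hab : a = 2 ∧ b = 1 ∨ a = 1 ∧ b = 2) (hs : 1 ≤ s)
    (hx : 2 * b ^ 2 * (s ^ 2) ^ 2 < x ^ 2) (hn : (n : ℤ) = gz a b (s ^ 2) x) : Tri n := by
  have hsq : (0 : ℚ) < s := by exact_mod_cast hs
  have hx0 : 0 < x := by
    rcases Nat.eq_zero_or_pos x with h | h
    · rw [h] at hx; simp at hx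
    · exact h
  have hxq : (0 : ℚ) < x := by exact_mod_cast hx0
  have hnq : (n : ℚ) = (a * x - (s : ℚ) ^ 2) * (((x : ℚ) + b * (s : ℚ) ^ 2) ^ 2 - 2 * b ^ 2 * ((s : ℚ) ^ 2) ^ 2) := by
    have : (n : ℚ) = ((gz a b (s ^ 2) x : ℤ) : ℚ) := by exact_mod_cast congrArg (fun z : ℤ => (z : ℚ)) hn
    rw [this]
    unfold gz
    push_cast
    ring
  have hQ0 : (2 : ℚ) * b ^ 2 * ((s : ℚ) ^ 2) ^ 2 < (x : ℚ) ^ 2 := by exact_mod_cast hx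
  have hQ : (0 : ℚ) < ((x : ℚ) + b * (s : ℚ) ^ 2) ^ 2 - 2 * b ^ 2 * ((s : ℚ) ^ 2) ^ 2 := by
    have : (0 : ℚ) ≤ b * (s : ℚ) ^ 2 := by positivity
    nlinarith
  -- `x > b s²`
  have hxb : (b : ℚ) * (s : ℚ) ^ 2 < x := by
    have h1 : ((b : ℚ) * (s : ℚ) ^ 2) ^ 2 < (x : ℚ) ^ 2 := by
      have h2 : (0 : ℚ) ≤ ((b : ℚ) * (s : ℚ) ^ 2) ^ 2 := by positivity
      have h3 : (2 : ℚ) * b ^ 2 * ((s : ℚ) ^ 2) ^ 2 = 2 * ((b : ℚ) * (s : ℚ) ^ 2) ^ 2 := by ring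
      linarith
    exact lt_of_pow_lt_pow_left₀ 2 hxq.le h1
  rcases hab with ⟨rfl, rfl⟩ | ⟨rfl, rfl⟩
  · have hd : (0 : ℚ) < x - (s : ℚ) ^ 2 := by push_cast at hxb; linarith
    have hd' : (x : ℚ) - (s : ℚ) ^ 2 ≠ 0 := hd.ne'
    have hd2 : (0 : ℚ) < 2 * x - (s : ℚ) ^ 2 := by linarith
    refine ⟨(((x : ℚ) + (s : ℚ) ^ 2) ^ 2 - 2 * (s : ℚ) ^ 4) * (x - (s : ℚ) ^ 2) / (s * x),
      2 * (2 * x - (s : ℚ) ^ 2) * x * s / (x - (s : ℚ) ^ 2),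
      ((x : ℚ) ^ 4 + (s : ℚ) ^ 4 * (2 * x - (s : ℚ) ^ 2) ^ 2) / (s * x * (x - (s : ℚ) ^ 2)), ?_, by positivity,
        by positivity, ?_, ?_⟩
    · have : ((x : ℚ) + (s : ℚ) ^ 2) ^ 2 - 2 * (s : ℚ) ^ 4 =
          ((x : ℚ) + ((1 : ℕ) : ℚ) * (s : ℚ) ^ 2) ^ 2 - 2 * ((1 : ℕ) : ℚ) ^ 2 * ((s : ℚ) ^ 2) ^ 2 := by
        push_cast; ring
      rw [this]
      positivity
    · field_simp
      ring
    · rw [hnq]
      push_cast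
      field_simp
  · have hd : (0 : ℚ) < x - 2 * (s : ℚ) ^ 2 := by push_cast at hxb; linarith
    have hd' : (x : ℚ) - 2 * (s : ℚ) ^ 2 ≠ 0 := hd.ne'
    have hd2 : (0 : ℚ) < x - (s : ℚ) ^ 2 := by
      have : (0 : ℚ) < (s : ℚ) ^ 2 := by positivity
      linarith
    refine ⟨(((x : ℚ) + 2 * (s : ℚ) ^ 2) ^ 2 - 8 * (s : ℚ) ^ 4) * (x - 2 * (s : ℚ) ^ 2) / (2 * s * x),
      4 * (x - (s : ℚ) ^ 2) * x * s / (x - 2 * (s : ℚ) ^ 2),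
      ((x : ℚ) ^ 4 + 16 * (s : ℚ) ^ 4 * (x - (s : ℚ) ^ 2) ^ 2) / (2 * s * x * (x - 2 * (s : ℚ) ^ 2)), ?_, by positivity,
        by positivity, ?_, ?_⟩
    · have : ((x : ℚ) + 2 * (s : ℚ) ^ 2) ^ 2 - 8 * (s : ℚ) ^ 4 =
          ((x : ℚ) + ((2 : ℕ) : ℚ) * (s : ℚ) ^ 2) ^ 2 - 2 * ((2 : ℕ) : ℚ) ^ 2 * ((s : ℚ) ^ 2) ^ 2 := by
        push_cast; ring
      rw [this]
      positivity
    · field_simp
      ring
    · rw [hnq]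
      push_cast
      obtain ⟨D, hD⟩ : ∃ D : ℚ, D = (x : ℚ) - 2 * (s : ℚ) ^ 2 := ⟨_, rfl⟩
      have hD0 : D ≠ 0 := by rw [hD]; exact hd'
      rw [← hD]
      field_simp
      ring

end Pool.Agent.U552.CN
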