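import Pool.Agent.U552.CN.Pell
import Pool.Agent.U552.CN.PFin

/-!
Pairs of squarefree congruent numbers at the distance `7 b² s⁶` in short intervals.
-/

set_option autoImplicit false

namespace Pool.Agent.U552.CN

open Finset

open Classical in
/-- the count of the good arguments in a window of length `C₃ R²` -/
theorem short_count (a β γ δ N W k C₁ : ℕ) (ha : 1 ≤ a) (hW : 1 ≤ W) (hk : 48 ≤ k)
    (hWp : ∀ p : ℕ, p.Prime → k < p → ¬ p ∣ W) (hap : ∀ p : ℕ, p.Prime → k < p → ¬ p ∣ a) (hN0 : 1 ≤ N)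
    (hNp : ∀ p : ℕ, p.Prime → k < p → ¬ p ∣ 2 * N) :
    ∃ C₃ : ℕ, 2 ≤ C₃ ∧ ∀ R A : ℕ, 1 ≤ R → A ≤ C₁ * R ^ 3 → γ + N < A → W * (C₃ * R ^ 2) ≤ A →
      ((C₃ * R ^ 2 : ℕ) : ℝ) / 2 ≤ (((range (C₃ * R ^ 2)).filter fun t => ∀ p : ℕ, p.Prime → k < p →
      ¬ p ^ 2 ∣ a * (A + W * t) + β ∧ ¬ p ^ 2 ∣ a * (A + W * t) - γ ∧
      ¬ ((p ^ 2 : ℕ) : ℤ) ∣ ((A + W * t : ℕ) : ℤ) ^ 2 - N ∧
      ¬ ((p ^ 2 : ℕ) : ℤ) ∣ ((A + W * t + δ : ℕ) : ℤ) ^ 2 - N).card : ℝ) := by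
  obtain ⟨C₃, hC₃⟩ : ∃ C₃ : ℕ, C₃ = 256 * (a * C₁ + β + a * W + 1) + 16 * (2 + (2 * (C₁ + δ)) ^ 2 * N ^ 2) := ⟨_, rfl⟩
  refine ⟨C₃, by omega, fun R A hR hA hpos hWA => ?_⟩
  have hC3a : 256 * (a * C₁ + β + a * W + 1) ≤ C₃ := by omega
  have hC3b : 16 * (2 + (2 * (C₁ + δ)) ^ 2 * N ^ 2) ≤ C₃ := by omega
  have hC31 : 1 ≤ C₃ := by omega
  obtain ⟨K, hK⟩ : ∃ K : ℕ, K = C₃ * R ^ 2 := ⟨_, rfl⟩
  rw [← hK]
  rw [← hK] at hWA
  have haA : A ≤ a * A := Nat.le_mul_of_pos_left _ ha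
  have hKr : (0 : ℝ) ≤ K := Nat.cast_nonneg K
  have haWp : ∀ p : ℕ, p.Prime → k < p → ¬ p ∣ a * W := fun p hp hkp h =>
    (hp.dvd_mul.1 h).elim (hap p hp hkp) (hWp p hp hkp)
  have hR3 : 1 ≤ R ^ 3 := Nat.one_le_pow _ _ hR
  have hAδ : A + δ ≤ (C₁ + δ) * R ^ 3 := by
    have : δ ≤ δ * R ^ 3 := Nat.le_mul_of_pos_right _ hR3
    rw [add_mul]
    omega
  have hMδ : (2 * (A + δ)) ^ 2 ≤ ((2 * (C₁ + δ)) ^ 2 * R ^ 2) * (R ^ 2) ^ 2 := by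
    calc (2 * (A + δ)) ^ 2 ≤ (2 * ((C₁ + δ) * R ^ 3)) ^ 2 := Nat.pow_le_pow_left (Nat.mul_le_mul_left 2 hAδ) 2
      _ = ((2 * (C₁ + δ)) ^ 2 * R ^ 2) * (R ^ 2) ^ 2 := by ring
  have hM : (2 * A) ^ 2 ≤ ((2 * (C₁ + δ)) ^ 2 * R ^ 2) * (R ^ 2) ^ 2 :=
    (Nat.pow_le_pow_left (Nat.mul_le_mul_left 2 (Nat.le_add_right A δ)) 2).trans hMδ
  have hs1 := sieve (a * A + β) (a * W) K k (by omega) (by omega) haWp
  have hs2 := sieve (a * A - γ) (a * W) K k (by omega) (by omega) haWp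
  have hs3 := sieve3 A W N K k (R ^ 2) ((2 * (C₁ + δ)) ^ 2 * R ^ 2) (by omega) hW (by omega) hWp hN0 hNp
    (by nlinarith) hWA hM
  have hs4 := sieve3 (A + δ) W N K k (R ^ 2) ((2 * (C₁ + δ)) ^ 2 * R ^ 2) (by omega) hW (by omega) hWp hN0 hNp
    (by nlinarith) (by omega) hMδ
  set B1 := (range K).filter fun t => ∃ p : ℕ, p.Prime ∧ k < p ∧ p ^ 2 ∣ a * A + β + a * W * t with hB1
  set B2 := (range K).filter fun t => ∃ p : ℕ, p.Prime ∧ k < p ∧ p ^ 2 ∣ a * A - γ + a * W * t with hB2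
  set B3 := (range K).filter fun t => ∃ p : ℕ, p.Prime ∧ k < p ∧
    ((p ^ 2 : ℕ) : ℤ) ∣ ((A + W * t : ℕ) : ℤ) ^ 2 - N with hB3
  set B4 := (range K).filter fun t => ∃ p : ℕ, p.Prime ∧ k < p ∧
    ((p ^ 2 : ℕ) : ℤ) ∣ ((A + δ + W * t : ℕ) : ℤ) ^ 2 - N with hB4
  set G := (range K).filter fun t => ∀ p : ℕ, p.Prime → k < p →
      ¬ p ^ 2 ∣ a * (A + W * t) + β ∧ ¬ p ^ 2 ∣ a * (A + W * t) - γ ∧
      ¬ ((p ^ 2 : ℕ) : ℤ) ∣ ((A + W * t : ℕ) : ℤ) ^ 2 - N ∧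
      ¬ ((p ^ 2 : ℕ) : ℤ) ∣ ((A + W * t + δ : ℕ) : ℤ) ^ 2 - N with hG
  have hcov : range K ⊆ G ∪ B1 ∪ B2 ∪ B3 ∪ B4 := by
    intro t ht
    simp only [mem_union]
    by_contra hcon
    push Not at hcon
    obtain ⟨⟨⟨⟨hg, hb1⟩, hb2⟩, hb3⟩, hb4⟩ := hcon
    refine hg (mem_filter.2 ⟨ht, fun p hp hpk => ⟨fun h => ?_, fun h => ?_, fun h => ?_, fun h => ?_⟩⟩)
    · refine hb1 (mem_filter.2 ⟨ht, p, hp, hpk, ?_⟩)
      have e : a * A + β + a * W * t = a * (A + W * t) + β := by ring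
      rw [e]; exact h
    · refine hb2 (mem_filter.2 ⟨ht, p, hp, hpk, ?_⟩)
      have e : a * (A + W * t) = a * A + a * W * t := by ring
      have e2 : a * A - γ + a * W * t = a * (A + W * t) - γ := by omega
      rw [e2]; exact h
    · exact hb3 (mem_filter.2 ⟨ht, p, hp, hpk, h⟩)
    · refine hb4 (mem_filter.2 ⟨ht, p, hp, hpk, ?_⟩)
      have e : A + δ + W * t = A + W * t + δ := by ring
      rw [e]; exact h
  have hcard : (K : ℝ) ≤ G.card + B1.card + B2.card + B3.card + B4.card := by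
    have h1 := (card_le_card hcov).trans ((card_union_le _ _).trans (add_le_add_left ((card_union_le _ _).trans
      (add_le_add_left ((card_union_le _ _).trans (add_le_add_left (card_union_le G B1) _)) _)) _))
    rw [card_range] at h1
    exact_mod_cast h1
  -- the errors
  have hkr : (48 : ℝ) ≤ k := by exact_mod_cast hk
  have e4 : (K : ℝ) / k ≤ K / 48 := div_le_div_of_nonneg_left hKr (by norm_num) hkr
  have hsq : ∀ m : ℕ, m ≤ a * A + β + a * W * K → (Nat.sqrt m : ℝ) ≤ K / 16 := by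
    intro m hm
    have h1 : ((Nat.sqrt m : ℕ) : ℝ) ^ 2 ≤ m := by exact_mod_cast Nat.sqrt_le' m
    have h2 : 256 * m ≤ K ^ 2 := by
      have h3 : m ≤ (a * C₁ + β + a * W * C₃) * R ^ 3 := by
        have h4 : a * A ≤ a * (C₁ * R ^ 3) := Nat.mul_le_mul_left a hA
        have h5 : β ≤ β * R ^ 3 := Nat.le_mul_of_pos_right _ hR3
        have h6 : a * W * K ≤ a * W * C₃ * R ^ 3 := by
          rw [hK]
          have : R ^ 2 ≤ R ^ 3 := Nat.pow_le_pow_right hR (by norm_num)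
          calc a * W * (C₃ * R ^ 2) = a * W * C₃ * R ^ 2 := by ring
            _ ≤ a * W * C₃ * R ^ 3 := Nat.mul_le_mul_left _ this
        calc m ≤ a * A + β + a * W * K := hm
          _ ≤ a * (C₁ * R ^ 3) + β * R ^ 3 + a * W * C₃ * R ^ 3 := by omega
          _ = (a * C₁ + β + a * W * C₃) * R ^ 3 := by ring
      have h7 : 256 * (a * C₁ + β + a * W * C₃) ≤ C₃ * C₃ := by
        have h8 : a * C₁ + β ≤ (a * C₁ + β) * C₃ := Nat.le_mul_of_pos_right _ hC31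
        calc 256 * (a * C₁ + β + a * W * C₃) ≤ 256 * ((a * C₁ + β) * C₃ + a * W * C₃) := by
              exact Nat.mul_le_mul_left _ (by omega)
          _ = (256 * (a * C₁ + β + a * W)) * C₃ := by ring
          _ ≤ C₃ * C₃ := Nat.mul_le_mul_right _ (by omega)
      calc 256 * m ≤ 256 * ((a * C₁ + β + a * W * C₃) * R ^ 3) := Nat.mul_le_mul_left _ h3
        _ = (256 * (a * C₁ + β + a * W * C₃)) * R ^ 3 := by ring
        _ ≤ (C₃ * C₃) * R ^ 4 := Nat.mul_le_mul h7 (Nat.pow_le_pow_right hR (by norm_num))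
        _ = K ^ 2 := by rw [hK]; ring
    have h3 : (256 : ℝ) * m ≤ (K : ℝ) ^ 2 := by exact_mod_cast h2
    have h4 : (16 * ((Nat.sqrt m : ℕ) : ℝ)) ^ 2 ≤ (K : ℝ) ^ 2 := by nlinarith
    have h5 := (abs_le.1 (abs_le_of_sq_le_sq h4 hKr)).2
    linarith
  have f1 := hsq (a * A + β + a * W * K) le_rfl
  have f2 := hsq (a * A - γ + a * W * K) (by omega)
  have f3 : 2 * ((R ^ 2 : ℕ) : ℝ) + (((2 * (C₁ + δ)) ^ 2 * R ^ 2 : ℕ) : ℝ) * N ^ 2 ≤ K / 16 := by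
    have h1 : 16 * (2 * R ^ 2 + (2 * (C₁ + δ)) ^ 2 * R ^ 2 * N ^ 2) ≤ K := by
      rw [hK]
      calc 16 * (2 * R ^ 2 + (2 * (C₁ + δ)) ^ 2 * R ^ 2 * N ^ 2) = (16 * (2 + (2 * (C₁ + δ)) ^ 2 * N ^ 2)) * R ^ 2 := by
            ring
        _ ≤ C₃ * R ^ 2 := Nat.mul_le_mul_right _ hC3b
    have h2 : (16 : ℝ) * (2 * ((R ^ 2 : ℕ) : ℝ) + (((2 * (C₁ + δ)) ^ 2 * R ^ 2 : ℕ) : ℝ) * N ^ 2) ≤ K := by
      exact_mod_cast h1
    linarith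
  linarith

/-- **Pairs of squarefree congruent numbers at the distance `7 b² s⁶` in short intervals.** -/
theorem pairs_short (a b s ρ : ℕ) (hab : a = 2 ∧ b = 1 ∨ a = 1 ∧ b = 2) (hs : 1 ≤ s)
    (h4 : ∀ x : ℕ, x ≡ ρ [MOD 8] → ¬ (4 : ℤ) ∣ fz a b (s ^ 2) x ∧ ¬ (4 : ℤ) ∣ gz a b (s ^ 2) x) :
    ∃ D X₀ : ℝ, ∀ X : ℝ, X₀ ≤ X → ∃ A : Finset ℕ, X ^ (2 / 9 : ℝ) ≤ A.card ∧ ∀ n ∈ A, X ≤ n ∧
      (n : ℝ) ≤ X + D * X ^ (8 / 9 : ℝ) ∧
      Squarefree n ∧ Squarefree (n + 7 * b ^ 2 * s ^ 6) ∧ Tri n ∧ Tri (n + 7 * b ^ 2 * s ^ 6) ∧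
        ∃ x : ℕ, x ≡ ρ [MOD 8] ∧ (n : ℤ) = fz a b (s ^ 2) x := by
  classical
  have hab2 : a * b = 2 := by rcases hab with ⟨rfl, rfl⟩ | ⟨rfl, rfl⟩ <;> rfl
  have ha : 1 ≤ a := by rcases hab with ⟨rfl, rfl⟩ | ⟨rfl, rfl⟩ <;> omega
  have ha2 : a ≤ 2 := by rcases hab with ⟨rfl, rfl⟩ | ⟨rfl, rfl⟩ <;> omega
  have hb2 : b ≤ 2 := by rcases hab with ⟨rfl, rfl⟩ | ⟨rfl, rfl⟩ <;> omega
  have hb1 : 1 ≤ b := by rcases hab with ⟨rfl, rfl⟩ | ⟨rfl, rfl⟩ <;> omega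
  obtain ⟨k, hk⟩ : ∃ k : ℕ, k = 48 + s := ⟨_, rfl⟩
  obtain ⟨W, x₁, hW, hWp, hcl⟩ := classes2 s k ρ
  have hbig : ∀ p : ℕ, p.Prime → k < p → ¬ p ∣ s ∧ ¬ p ∣ a ∧ ¬ p ∣ b ∧ ¬ p ∣ 2 := by
    intro p hp hkp
    refine ⟨fun h => ?_, fun h => ?_, fun h => ?_, fun h => ?_⟩
    · have := Nat.le_of_dvd (by omega) h; omega
    · have := Nat.le_of_dvd (by omega) h; omega
    · have := Nat.le_of_dvd (by omega) h; omega
    · have := Nat.le_of_dvd (by omega) h; omega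
  obtain ⟨N, hN⟩ : ∃ N : ℕ, N = 2 * b ^ 2 * (s ^ 2) ^ 2 := ⟨_, rfl⟩
  have hN1 : 1 ≤ N := by rw [hN]; exact Nat.succ_le_of_lt (by positivity)
  obtain ⟨C₃, hC₃, hcount⟩ := short_count a (3 * s ^ 2) (s ^ 2) (b * s ^ 2) N W k (2 + W) ha hW (by omega)
    (fun p hp hkp => hWp p hp (by omega) hkp) (fun p hp hkp => (hbig p hp hkp).2.1) hN1 (fun p hp hkp h => by
      rw [hN] at h
      obtain ⟨g1, _, g3, g4⟩ := hbig p hp hkp
      rcases hp.dvd_mul.1 h with h | h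
      · exact g4 h
      · rcases hp.dvd_mul.1 h with h | h
        · rcases hp.dvd_mul.1 h with h | h
          · exact g4 h
          · exact g3 (hp.dvd_of_dvd_pow h)
        · exact g1 (hp.dvd_of_dvd_pow (hp.dvd_of_dvd_pow h)))
  obtain ⟨z₀, hz₀⟩ : ∃ z₀ : ℕ, z₀ = x₁ + W * (N + 3 * s ^ 2 + 2) := ⟨_, rfl⟩
  have hWN : N + 3 * s ^ 2 + 2 ≤ W * (N + 3 * s ^ 2 + 2) := Nat.le_mul_of_pos_left _ hW
  have hz1 : N + 3 * s ^ 2 + 2 ≤ z₀ := by omega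
  have hfact : ∀ x : ℕ, z₀ ≤ x → 1 ≤ x ∧ 3 * s ^ 2 ≤ x ∧ 2 * b ^ 2 * (s ^ 2) ^ 2 < x ^ 2 ∧ 2 * N ≤ x ^ 2 := by
    intro x hx
    refine ⟨by omega, by omega, ?_, ?_⟩
    · rw [← hN]
      have : N + 2 ≤ x := by omega
      nlinarith
    · have : N + 2 ≤ x := by omega
      nlinarith
  have hWr : (1 : ℝ) ≤ W := by exact_mod_cast hW
  have hSr : (0 : ℝ) ≤ ((s ^ 2 : ℕ) : ℝ) := Nat.cast_nonneg _
  have har : (1 : ℝ) ≤ a := by exact_mod_cast ha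
  obtain ⟨H, hH⟩ : ∃ H : ℕ, H = 8 * (a + 3 * s ^ 2) := ⟨_, rfl⟩
  refine ⟨256 * ((W + W * C₃) * (3 * a + 6 * (s ^ 2 : ℕ)) * ((2 + W) + W * C₃) ^ 2),
    ((fz a b (s ^ 2) z₀ : ℤ) : ℝ) + 1 + (H * W * C₃ : ℕ) ^ 9, fun X hX => ?_⟩
  have hfz0 : (0 : ℝ) < ((fz a b (s ^ 2) z₀ : ℤ) : ℝ) := by
    obtain ⟨g1, _, g3, _⟩ := hfact z₀ le_rfl
    exact_mod_cast fz_pos ha g1 g3
  have hpow0 : (0 : ℝ) ≤ ((H * W * C₃ : ℕ) : ℝ) ^ 9 := by positivity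
  have hX1 : 1 ≤ X := by linarith
  have hX0 : 0 ≤ X := by linarith
  set Y : ℝ := X ^ (1 / 9 : ℝ) with hY
  have hY1 : 1 ≤ Y := Real.one_le_rpow hX1 (by norm_num)
  have hY9 : Y ^ 9 = X := by
    rw [hY, ← Real.rpow_natCast, ← Real.rpow_mul hX0]
    norm_num
  have hY8 : X ^ (8 / 9 : ℝ) = Y ^ 8 := by
    rw [hY, ← Real.rpow_natCast, ← Real.rpow_mul hX0]
    norm_num
  have hY2 : X ^ (2 / 9 : ℝ) = Y ^ 2 := by
    rw [hY, ← Real.rpow_natCast, ← Real.rpow_mul hX0]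
    norm_num
  rw [hY8, hY2]
  obtain ⟨R, hR⟩ : ∃ R : ℕ, R = ⌈Y⌉₊ := ⟨_, rfl⟩
  have hRY : Y ≤ R := by rw [hR]; exact Nat.le_ceil _
  have hRY2 : (R : ℝ) ≤ 2 * Y := by
    rw [hR]
    have := (Nat.ceil_lt_add_one (by linarith : 0 ≤ Y)).le
    linarith
  have hR1 : 1 ≤ R := by
    have : (1 : ℝ) ≤ R := by linarith
    exact_mod_cast this
  have hRr : (1 : ℝ) ≤ R := by linarith
  have hYH : ((H * W * C₃ : ℕ) : ℝ) ≤ Y := by
    refine le_of_pow_le_pow_left₀ (n := 9) (by norm_num) (by linarith) ?_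
    rw [hY9]
    linarith
  have hRH : H * W * C₃ ≤ R := by
    have : ((H * W * C₃ : ℕ) : ℝ) ≤ R := by linarith
    exact_mod_cast this
  -- real form of the value
  have hfr : ∀ x : ℕ, ((fz a b (s ^ 2) x : ℤ) : ℝ) = (a * x + 3 * (s ^ 2 : ℕ)) * ((x : ℝ) ^ 2 - N) := by
    intro x
    unfold fz
    rw [hN]
    push_cast
    ring
  -- the least member of the class with `X ≤ fz`
  have hex : ∃ i : ℕ, X ≤ ((fz a b (s ^ 2) ((z₀ + W * i : ℕ) : ℤ) : ℤ) : ℝ) := by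
    refine ⟨⌈X⌉₊, ?_⟩
    obtain ⟨g1, _, g3, g4⟩ := hfact (z₀ + W * ⌈X⌉₊) (Nat.le_add_right _ _)
    rw [hfr]
    have h1 : X ≤ ⌈X⌉₊ := Nat.le_ceil X
    have h2 : ((⌈X⌉₊ : ℕ) : ℝ) ≤ ((z₀ + W * ⌈X⌉₊ : ℕ) : ℝ) := by
      have : ⌈X⌉₊ ≤ z₀ + W * ⌈X⌉₊ := by nlinarith
      exact_mod_cast this
    set v : ℝ := ((z₀ + W * ⌈X⌉₊ : ℕ) : ℝ) with hv
    have hv1 : 1 ≤ v := by linarith
    have hvN : (1 : ℝ) ≤ v ^ 2 - N := by
      have h3 : (2 * N : ℕ) ≤ (z₀ + W * ⌈X⌉₊) ^ 2 := g4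
      have h5 : (2 : ℝ) * N ≤ v ^ 2 := by rw [hv]; exact_mod_cast h3
      have h6 : (1 : ℝ) ≤ N := by exact_mod_cast hN1
      linarith
    have h7 : v ≤ a * v + 3 * ((s ^ 2 : ℕ) : ℝ) := by nlinarith
    nlinarith
  obtain ⟨i, hi, hmin⟩ : ∃ i : ℕ, X ≤ ((fz a b (s ^ 2) ((z₀ + W * i : ℕ) : ℤ) : ℤ) : ℝ) ∧
      ∀ i' < i, ¬ X ≤ ((fz a b (s ^ 2) ((z₀ + W * i' : ℕ) : ℤ) : ℤ) : ℝ) :=
    ⟨Nat.find hex, Nat.find_spec hex, fun i' hi' => Nat.find_min hex hi'⟩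
  have hi0 : i ≠ 0 := by
    rintro rfl
    rw [Nat.mul_zero, Nat.add_zero] at hi
    linarith
  obtain ⟨i', rfl⟩ := Nat.exists_eq_succ_of_ne_zero hi0
  have hlt := hmin i' (Nat.lt_succ_self i')
  push Not at hlt
  obtain ⟨U', hU'⟩ : ∃ U' : ℕ, U' = z₀ + W * i' := ⟨_, rfl⟩
  have hzU' : z₀ ≤ U' := by omega
  have eU : z₀ + W * i'.succ = U' + W := by rw [hU', Nat.mul_succ]; omega
  rw [eU] at hi
  rw [← hU'] at hlt
  obtain ⟨U, hU⟩ : ∃ U : ℕ, U = U' + W := ⟨_, rfl⟩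
  rw [← hU] at hi
  have hzU : z₀ ≤ U := by omega
  have hUr : (U : ℝ) = U' + W := by rw [hU]; push_cast; ring
  obtain ⟨u1, u2, u3, u4⟩ := hfact U' hzU'
  have hU'r : (1 : ℝ) ≤ U' := by exact_mod_cast u1
  have hNU' : (2 : ℝ) * N ≤ (U' : ℝ) ^ 2 := by exact_mod_cast u4
  have hlt' := hlt
  rw [hfr] at hlt'
  have hi' := hi
  rw [hfr] at hi'
  have hNr : (0 : ℝ) ≤ N := Nat.cast_nonneg _
  have hXR : X ≤ (R : ℝ) ^ 9 := by
    rw [← hY9]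
    exact pow_le_pow_left₀ (by linarith) hRY 9
  -- (i)
  have hUi : (U' : ℝ) ≤ 2 * (R : ℝ) ^ 3 := by
    have h1 : (U' : ℝ) ^ 3 ≤ (2 * (R : ℝ) ^ 3) ^ 3 := by
      have h2 : (U' : ℝ) * ((U' : ℝ) ^ 2 / 2) ≤ (a * U' + 3 * ((s ^ 2 : ℕ) : ℝ)) * ((U' : ℝ) ^ 2 - N) := by
        refine mul_le_mul ?_ (by linarith) (by positivity) (by positivity)
        nlinarith
      have h3 : (2 * (R : ℝ) ^ 3) ^ 3 = 8 * (R : ℝ) ^ 9 := by ring
      rw [h3]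
      have h5 : (0 : ℝ) ≤ (R : ℝ) ^ 9 := by positivity
      nlinarith
    exact le_of_pow_le_pow_left₀ (by norm_num) (by positivity) h1
  have hUi' : U' ≤ 2 * R ^ 3 := by exact_mod_cast hUi
  have hR3 : 1 ≤ R ^ 3 := Nat.one_le_pow _ _ hR1
  -- (ii)
  have hUii : U ≤ (2 + W) * R ^ 3 := by
    have : W ≤ W * R ^ 3 := Nat.le_mul_of_pos_right _ hR3
    rw [hU, add_mul]
    omega
  -- (iii)
  have hUiii : R ^ 3 ≤ H * U := by
    have h1 : ((R : ℝ) ^ 3) ^ 3 ≤ ((H : ℝ) * U) ^ 3 := by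
      have hU0 : (0 : ℝ) ≤ U := Nat.cast_nonneg _
      have hU1r : (1 : ℝ) ≤ U := by rw [hUr]; linarith
      have h2 : X ≤ (a + 3 * ((s ^ 2 : ℕ) : ℝ)) * (U : ℝ) ^ 3 := by
        refine hi'.trans ?_
        calc (a * (U : ℝ) + 3 * ((s ^ 2 : ℕ) : ℝ)) * ((U : ℝ) ^ 2 - N) ≤
            ((a + 3 * ((s ^ 2 : ℕ) : ℝ)) * U) * (U : ℝ) ^ 2 := by
              refine mul_le_mul (by nlinarith) (by linarith) ?_ (by positivity)
              have : (U' : ℝ) ^ 2 ≤ (U : ℝ) ^ 2 := by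
                rw [hUr]
                exact pow_le_pow_left₀ (by linarith) (by linarith) 2
              linarith
          _ = (a + 3 * ((s ^ 2 : ℕ) : ℝ)) * (U : ℝ) ^ 3 := by ring
      have h3 : (R : ℝ) ^ 9 ≤ 512 * X := by
        rw [← hY9]
        calc (R : ℝ) ^ 9 ≤ (2 * Y) ^ 9 := pow_le_pow_left₀ (by positivity) hRY2 9
          _ = 512 * Y ^ 9 := by ring
      have h5 : (H : ℝ) = 8 * (a + 3 * ((s ^ 2 : ℕ) : ℝ)) := by rw [hH]; push_cast; ring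
      set q : ℝ := a + 3 * ((s ^ 2 : ℕ) : ℝ) with hq
      have hq1 : 1 ≤ q := by rw [hq]; linarith
      have hq3 : q ≤ q ^ 3 := le_self_pow₀ hq1 (by norm_num)
      have h6 : (0 : ℝ) ≤ (U : ℝ) ^ 3 := by positivity
      calc ((R : ℝ) ^ 3) ^ 3 = (R : ℝ) ^ 9 := by ring
        _ ≤ 512 * X := h3
        _ ≤ 512 * (q * (U : ℝ) ^ 3) := by linarith
        _ ≤ 512 * (q ^ 3 * (U : ℝ) ^ 3) := by
            have := mul_le_mul_of_nonneg_right hq3 h6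
            linarith
        _ = ((H : ℝ) * U) ^ 3 := by rw [h5]; ring
    have h2 : (R : ℝ) ^ 3 ≤ (H : ℝ) * U := le_of_pow_le_pow_left₀ (by norm_num) (by positivity) h1
    exact_mod_cast h2
  have hH1 : 1 ≤ H := by omega
  -- (iv)
  have hUiv : W * (C₃ * R ^ 2) ≤ U := by
    refine Nat.le_of_mul_le_mul_left ?_ (Nat.succ_le_iff.1 hH1)
    calc H * (W * (C₃ * R ^ 2)) = (H * W * C₃) * R ^ 2 := by ring
      _ ≤ R * R ^ 2 := Nat.mul_le_mul_right _ hRH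
      _ = R ^ 3 := by ring
      _ ≤ H * U := hUiii
  have hcnt := hcount R U hR1 hUii (by omega) hUiv
  obtain ⟨K, hK⟩ : ∃ K : ℕ, K = C₃ * R ^ 2 := ⟨_, rfl⟩
  rw [← hK] at hcnt
  set G := (range K).filter fun t => ∀ p : ℕ, p.Prime → k < p →
      ¬ p ^ 2 ∣ a * (U + W * t) + 3 * s ^ 2 ∧ ¬ p ^ 2 ∣ a * (U + W * t) - s ^ 2 ∧
      ¬ ((p ^ 2 : ℕ) : ℤ) ∣ ((U + W * t : ℕ) : ℤ) ^ 2 - N ∧
      ¬ ((p ^ 2 : ℕ) : ℤ) ∣ ((U + W * t + b * s ^ 2 : ℕ) : ℤ) ^ 2 - N with hG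
  set F : ℕ → ℕ := fun t => (fz a b (s ^ 2) ((U + W * t : ℕ) : ℤ)).toNat with hF
  have hFc : ∀ t, ((F t : ℕ) : ℤ) = fz a b (s ^ 2) ((U + W * t : ℕ) : ℤ) := by
    intro t
    obtain ⟨g1, _, g3, _⟩ := hfact (U + W * t) (by omega)
    rw [hF]
    exact Int.toNat_of_nonneg (fz_pos ha g1 g3).le
  have hFmono : StrictMono F := by
    refine strictMono_nat_of_lt_succ fun t => ?_
    obtain ⟨g1, _, g3, _⟩ := hfact (U + W * t) (by omega)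
    have hlt : U + W * t < U + W * (t + 1) := by
      have : W * (t + 1) = W * t + W := by ring
      omega
    have := fz_lt (b := b) (s := s) ha g1 g3 hlt
    rw [← hFc, ← hFc] at this
    exact_mod_cast this
  refine ⟨G.image F, ?_, ?_⟩
  · rw [card_image_of_injective _ hFmono.injective]
    refine le_trans ?_ hcnt
    rw [hK]
    push_cast
    have h1 : Y ^ 2 ≤ (R : ℝ) ^ 2 := pow_le_pow_left₀ (by linarith) hRY 2
    have h2 : (2 : ℝ) ≤ C₃ := by exact_mod_cast hC₃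
    have h3 : 2 * (R : ℝ) ^ 2 ≤ C₃ * (R : ℝ) ^ 2 := mul_le_mul_of_nonneg_right h2 (by positivity)
    linarith
  · intro n hn
    rw [mem_image] at hn
    obtain ⟨t, ht, rfl⟩ := hn
    rw [mem_filter, mem_range] at ht
    obtain ⟨htK, hgood⟩ := ht
    obtain ⟨g1, g2, g3, _⟩ := hfact (U + W * t) (by omega)
    have hF0 : X ≤ ((F 0 : ℕ) : ℝ) := by
      have h1 : ((F 0 : ℕ) : ℤ) = fz a b (s ^ 2) (U : ℤ) := by
        have := hFc 0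
        rw [Nat.mul_zero, Nat.add_zero] at this
        exact this
      have h2 : ((F 0 : ℕ) : ℝ) = ((fz a b (s ^ 2) (U : ℤ) : ℤ) : ℝ) := by exact_mod_cast congrArg (fun z : ℤ => (z : ℝ)) h1
      rw [h2]
      exact hi
    have hlow : X ≤ ((F t : ℕ) : ℝ) := by
      have h1 : F 0 ≤ F t := hFmono.monotone (Nat.zero_le t)
      have h2 : ((F 0 : ℕ) : ℝ) ≤ F t := by exact_mod_cast h1
      linarith
    have hhigh : ((F t : ℕ) : ℝ) ≤ X + 256 * ((W + W * C₃) * (3 * a + 6 * (s ^ 2 : ℕ)) * ((2 + W) + W * C₃) ^ 2) * Y ^ 8 := by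
      have h1 : ((F t : ℕ) : ℝ) = ((fz a b (s ^ 2) ((U + W * t : ℕ) : ℤ) : ℤ) : ℝ) := by
        exact_mod_cast congrArg (fun z : ℤ => (z : ℝ)) (hFc t)
      rw [h1, hfr]
      set x : ℝ := ((U + W * t : ℕ) : ℝ) with hx
      have hxU : (U' : ℝ) ≤ x := by
        rw [hx]
        push_cast
        rw [hUr]
        have : (0 : ℝ) ≤ W * t := by positivity
        linarith
      have hx1 : (1 : ℝ) ≤ x := by linarith
      have hR3r : (1 : ℝ) ≤ (R : ℝ) ^ 3 := one_le_pow₀ hRr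
      have htr : (t : ℝ) ≤ C₃ * (R : ℝ) ^ 2 := by
        have : t ≤ C₃ * R ^ 2 := by omega
        exact_mod_cast this
      have hxd : x - U' ≤ (W + W * C₃) * (R : ℝ) ^ 2 := by
        rw [hx]
        push_cast
        rw [hUr]
        have h5 : (W : ℝ) * t ≤ W * (C₃ * (R : ℝ) ^ 2) := mul_le_mul_of_nonneg_left htr (by linarith)
        have h6 : (1 : ℝ) ≤ (R : ℝ) ^ 2 := one_le_pow₀ hRr
        nlinarith
      have hxV : x ≤ ((2 + W) + W * C₃) * (R : ℝ) ^ 3 := by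
        have h5 : (R : ℝ) ^ 2 ≤ (R : ℝ) ^ 3 := pow_le_pow_right₀ hRr (by norm_num)
        have h6 : (W : ℝ) * t ≤ W * (C₃ * (R : ℝ) ^ 3) :=
          mul_le_mul_of_nonneg_left (htr.trans (mul_le_mul_of_nonneg_left h5 (Nat.cast_nonneg _))) (by linarith)
        have h7 : (U : ℝ) ≤ (2 + W) * (R : ℝ) ^ 3 := by exact_mod_cast hUii
        rw [hx]
        push_cast
        nlinarith
      -- the increment
      have hinc : (a * x + 3 * ((s ^ 2 : ℕ) : ℝ)) * (x ^ 2 - N) - (a * U' + 3 * ((s ^ 2 : ℕ) : ℝ)) * ((U' : ℝ) ^ 2 - N) ≤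
          (x - U') * ((3 * a + 6 * ((s ^ 2 : ℕ) : ℝ)) * x ^ 2) := by
        have e : (a * x + 3 * ((s ^ 2 : ℕ) : ℝ)) * (x ^ 2 - N) - (a * U' + 3 * ((s ^ 2 : ℕ) : ℝ)) * ((U' : ℝ) ^ 2 - N) =
            (x - U') * (a * (x ^ 2 + x * U' + (U' : ℝ) ^ 2) + 3 * ((s ^ 2 : ℕ) : ℝ) * (x + U') - a * N) := by ring
        rw [e]
        refine mul_le_mul_of_nonneg_left ?_ (by linarith)
        have h5 : (U' : ℝ) ^ 2 ≤ x ^ 2 := pow_le_pow_left₀ (by linarith) hxU 2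
        have h6 : x * U' ≤ x ^ 2 := by nlinarith
        have h7 : x + U' ≤ 2 * x ^ 2 := by nlinarith
        have h8 : (0 : ℝ) ≤ a * N := by positivity
        have h9 : a * (x ^ 2 + x * U' + (U' : ℝ) ^ 2) ≤ a * (3 * x ^ 2) := mul_le_mul_of_nonneg_left (by linarith) (by linarith)
        have h10 : 3 * ((s ^ 2 : ℕ) : ℝ) * (x + U') ≤ 3 * ((s ^ 2 : ℕ) : ℝ) * (2 * x ^ 2) :=
          mul_le_mul_of_nonneg_left h7 (by linarith)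
        linarith
      have hx2 : x ^ 2 ≤ (((2 + W) + W * C₃) * (R : ℝ) ^ 3) ^ 2 := pow_le_pow_left₀ (by linarith) hxV 2
      have hfin : (x - U') * ((3 * a + 6 * ((s ^ 2 : ℕ) : ℝ)) * x ^ 2) ≤
          ((W + W * C₃) * (R : ℝ) ^ 2) * ((3 * a + 6 * ((s ^ 2 : ℕ) : ℝ)) * (((2 + W) + W * C₃) * (R : ℝ) ^ 3) ^ 2) := by
        refine mul_le_mul hxd (mul_le_mul_of_nonneg_left hx2 (by positivity)) (by positivity) (by positivity)
      have hR8 : (R : ℝ) ^ 8 ≤ 256 * Y ^ 8 := by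
        calc (R : ℝ) ^ 8 ≤ (2 * Y) ^ 8 := pow_le_pow_left₀ (by positivity) hRY2 8
          _ = 256 * Y ^ 8 := by ring
      have hlast : ((W + W * C₃) * (R : ℝ) ^ 2) * ((3 * a + 6 * ((s ^ 2 : ℕ) : ℝ)) * (((2 + W) + W * C₃) * (R : ℝ) ^ 3) ^ 2) ≤
          256 * ((W + W * C₃) * (3 * a + 6 * (s ^ 2 : ℕ)) * ((2 + W) + W * C₃) ^ 2) * Y ^ 8 := by
        have e : ((W + W * C₃) * (R : ℝ) ^ 2) * ((3 * a + 6 * ((s ^ 2 : ℕ) : ℝ)) * (((2 + W) + W * C₃) * (R : ℝ) ^ 3) ^ 2) =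
            ((W + W * C₃) * (3 * a + 6 * ((s ^ 2 : ℕ) : ℝ)) * ((2 + W) + W * C₃) ^ 2) * (R : ℝ) ^ 8 := by ring
        rw [e]
        have h5 : (0 : ℝ) ≤ (W + W * C₃) * (3 * a + 6 * ((s ^ 2 : ℕ) : ℝ)) * ((2 + W) + W * C₃) ^ 2 := by positivity
        have h6 := mul_le_mul_of_nonneg_left hR8 h5
        linarith
      linarith
    obtain ⟨x, hx⟩ : ∃ x : ℕ, x = U + W * t := ⟨_, rfl⟩
    have hFt := hFc t
    rw [← hx] at g1 g2 g3 hFt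
    have hxmod : x ≡ x₁ [MOD W] := by
      have e : x = x₁ + W * ((N + 3 * s ^ 2 + 2) + i' + 1 + t) := by
        rw [hx, hU, hU', hz₀]
        ring
      rw [e]
      exact ((Nat.modEq_zero_iff_dvd.2 (dvd_mul_right W _)).add_left x₁).trans (by rw [Nat.add_zero])
    obtain ⟨hx8, hxs⟩ := hcl x hxmod
    have hgz : ((F t + 7 * b ^ 2 * s ^ 6 : ℕ) : ℤ) = gz a b (s ^ 2) x := by
      rw [gz_eq hab2, ← hFt]
      push_cast
      ring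
    have hax : s ^ 2 ≤ a * x := by
      have : x ≤ a * x := Nat.le_mul_of_pos_left x ha
      omega
    have hall : ∀ p : ℕ, p.Prime → ¬ ((p ^ 2 : ℕ) : ℤ) ∣ fz a b (s ^ 2) x ∧ ¬ ((p ^ 2 : ℕ) : ℤ) ∣ gz a b (s ^ 2) x := by
      intro p hp
      rcases le_or_gt p k with hpk | hpk
      · rcases (show p = 2 ∨ 2 < p by have := hp.two_le; omega) with h2 | h2
        · subst h2
          exact h4 x hx8
        · exact small_odd hab2 hp h2 ((hxs p hp h2 hpk).1) ((hxs p hp h2 hpk).2)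
      · obtain ⟨q1, q2, q3, q4⟩ := hgood p hp hpk
        rw [← hx] at q1 q2 q3 q4
        rw [hN] at q3 q4
        exact large hab2 hp (hbig p hp hpk).1 hax q1 q2 q3 q4
    refine ⟨hlow, hhigh, ?_, ?_, tri_first hab hs g3 hFt, tri_second hab hs g3 hgz, x, hx8, hFt⟩
    · rw [Nat.squarefree_iff_prime_squarefree]
      intro p hp hd
      refine (hall p hp).1 ?_
      rw [← hFt, pow_two]
      exact_mod_cast hd
    · rw [Nat.squarefree_iff_prime_squarefree]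
      intro p hp hd
      refine (hall p hp).2 ?_
      rw [← hgz, pow_two]
      exact_mod_cast hd

end Pool.Agent.U552.CN
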