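import Pool.Agent.U552.CN.Sieve

/-!
Squarefree values of products of linear and quadratic factors along progressions: the squares of large primes.
-/

set_option autoImplicit false

namespace Pool.Agent.U552.CN

open Finset

/-- few primes -/
lemma few_primes (δ : ℝ) (hδ : 0 < δ) : ∃ Y₀ : ℕ, ∀ Y : ℕ, Y₀ ≤ Y → (Nat.primeCounting Y : ℝ) ≤ δ * Y := by
  have h1 := Chebyshev.eventually_primeCounting_le (ε := 1) one_pos
  have h2 : ∀ᶠ x : ℝ in Filter.atTop, (Real.log 4 + 1) / δ ≤ Real.log x :=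
    Real.tendsto_log_atTop.eventually_ge_atTop _
  obtain ⟨x₀, hx₀⟩ := Filter.eventually_atTop.1 (h1.and h2)
  refine ⟨⌈x₀⌉₊ + 2, fun Y hY => ?_⟩
  have hY1 : x₀ ≤ (Y : ℝ) := (Nat.le_ceil x₀).trans (by exact_mod_cast (by omega : ⌈x₀⌉₊ ≤ Y))
  obtain ⟨h3, h4⟩ := hx₀ Y hY1
  rw [Nat.floor_natCast] at h3
  refine h3.trans ?_
  have hY2 : (1 : ℝ) < Y := by exact_mod_cast (by omega : 1 < Y)
  have hlog : 0 < Real.log Y := Real.log_pos hY2
  rw [div_le_iff₀ hlog]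
  rw [div_le_iff₀ hδ] at h4
  nlinarith

open Classical in
/-- at most two classes modulo `p²` -/
lemma two_classes (A B N K p : ℕ) (hp : p.Prime) (hB : ¬ p ∣ B) (hN : ¬ p ∣ 2 * N) :
    ((range K).filter fun t => ((p ^ 2 : ℕ) : ℤ) ∣ ((A + B * t : ℕ) : ℤ) ^ 2 - N).card ≤ 2 * (K / p ^ 2 + 1) := by
  set T := (range K).filter fun t => ((p ^ 2 : ℕ) : ℤ) ∣ ((A + B * t : ℕ) : ℤ) ^ 2 - N with hT
  rcases T.eq_empty_or_nonempty with he | ⟨t₀, ht₀⟩
  · rw [he]; simp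
  have hpz : Prime (p : ℤ) := Nat.prime_iff_prime_int.1 hp
  have hcop : IsCoprime (((p ^ 2 : ℕ)) : ℤ) (B : ℤ) := by
    rw [Nat.isCoprime_iff_coprime]
    exact Nat.Coprime.pow_left 2 ((Nat.Prime.coprime_iff_not_dvd hp).2 hB)
  have hkey : ∀ t ∈ T, ((p ^ 2 : ℕ) : ℤ) ∣ (t : ℤ) - t₀ ∨ ((p ^ 2 : ℕ) : ℤ) ∣ 2 * A + B * ((t : ℤ) + t₀) := by
    intro t ht
    have h1 := (mem_filter.1 ht).2
    have h0 := (mem_filter.1 ht₀).2
    have h2 := dvd_sub h1 h0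
    have e : ((A + B * t : ℕ) : ℤ) ^ 2 - N - (((A + B * t₀ : ℕ) : ℤ) ^ 2 - N) =
        (B * ((t : ℤ) - t₀)) * (2 * A + B * ((t : ℤ) + t₀)) := by
      push_cast; ring
    rw [e] at h2
    by_cases hd : (p : ℤ) ∣ 2 * A + B * ((t : ℤ) + t₀)
    · by_cases hd' : (p : ℤ) ∣ B * ((t : ℤ) - t₀)
      · exfalso
        have h3 : (p : ℤ) ∣ 2 * ((A + B * t₀ : ℕ) : ℤ) := by
          have := dvd_sub hd hd'
          have e2 : 2 * (A : ℤ) + B * ((t : ℤ) + t₀) - B * ((t : ℤ) - t₀) = 2 * ((A + B * t₀ : ℕ) : ℤ) := by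
            push_cast; ring
          rwa [e2] at this
        have h4 : (p : ℤ) ∣ ((A + B * t₀ : ℕ) : ℤ) ^ 2 - N := by
          refine Dvd.dvd.trans ?_ h0
          push_cast
          exact dvd_pow_self _ (by norm_num)
        have h5 : (p : ℤ) ∣ 2 * N := by
          have h6 : (2 : ℤ) * N = (2 * ((A + B * t₀ : ℕ) : ℤ)) * ((A + B * t₀ : ℕ) : ℤ) -
              2 * (((A + B * t₀ : ℕ) : ℤ) ^ 2 - N) := by ring
          rw [h6]
          exact dvd_sub (Dvd.dvd.mul_right h3 _) (Dvd.dvd.mul_left h4 _)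
        exact hN (by exact_mod_cast h5)
      · right
        have hc : IsCoprime (((p ^ 2 : ℕ)) : ℤ) (B * ((t : ℤ) - t₀)) := by
          push_cast
          exact IsCoprime.pow_left ((Prime.coprime_iff_not_dvd hpz).2 hd')
        exact hc.dvd_of_dvd_mul_left h2
    · left
      have hc : IsCoprime (((p ^ 2 : ℕ)) : ℤ) (2 * A + B * ((t : ℤ) + t₀)) := by
        push_cast
        exact IsCoprime.pow_left ((Prime.coprime_iff_not_dvd hpz).2 hd)
      have h3 := hc.dvd_of_dvd_mul_right h2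
      exact hcop.dvd_of_dvd_mul_left h3
  have hmod : ∀ s t : ℕ, ((p ^ 2 : ℕ) : ℤ) ∣ (s : ℤ) - t → s % p ^ 2 = t % p ^ 2 := by
    intro s t h
    have : (t : ℤ) ≡ s [ZMOD ((p ^ 2 : ℕ) : ℤ)] := Int.modEq_iff_dvd.2 h
    exact (Int.natCast_modEq_iff.1 this).symm
  have hsub : T ⊆ (T.filter fun t => ((p ^ 2 : ℕ) : ℤ) ∣ (t : ℤ) - t₀) ∪
      (T.filter fun t => ((p ^ 2 : ℕ) : ℤ) ∣ 2 * A + B * ((t : ℤ) + t₀)) := by
    intro t ht
    rcases hkey t ht with h | h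
    · exact mem_union_left _ (mem_filter.2 ⟨ht, h⟩)
    · exact mem_union_right _ (mem_filter.2 ⟨ht, h⟩)
  refine (card_le_card hsub).trans ((card_union_le _ _).trans ?_)
  have hc1 := res_card (p ^ 2) K (pow_pos hp.pos 2) (T.filter fun t => ((p ^ 2 : ℕ) : ℤ) ∣ (t : ℤ) - t₀)
    (fun t ht => mem_range.1 (mem_filter.1 (mem_filter.1 ht).1).1) (by
      intro s hs t ht
      refine hmod s t ?_
      have := dvd_sub (mem_filter.1 hs).2 (mem_filter.1 ht).2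
      have e : (s : ℤ) - t₀ - ((t : ℤ) - t₀) = s - t := by ring
      rwa [e] at this)
  have hc2 := res_card (p ^ 2) K (pow_pos hp.pos 2) (T.filter fun t => ((p ^ 2 : ℕ) : ℤ) ∣ 2 * A + B * ((t : ℤ) + t₀))
    (fun t ht => mem_range.1 (mem_filter.1 (mem_filter.1 ht).1).1) (by
      intro s hs t ht
      refine hmod s t ?_
      have := dvd_sub (mem_filter.1 hs).2 (mem_filter.1 ht).2
      have e : 2 * (A : ℤ) + B * ((s : ℤ) + t₀) - (2 * A + B * ((t : ℤ) + t₀)) = B * (s - t) := by ring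
      rw [e] at this
      exact hcop.dvd_of_dvd_mul_left this)
  omega

open Classical in
/-- squares of large primes dividing `(A + B t)² - N`; all values are less than `(Y + 1)²` -/
lemma sieve2 (A B N K k Y : ℕ) (hk : 1 ≤ k) (hB : ∀ p : ℕ, p.Prime → k < p → ¬ p ∣ B)
    (hN : ∀ p : ℕ, p.Prime → k < p → ¬ p ∣ 2 * N) (hpos : ∀ t < K, N < (A + B * t) ^ 2)
    (hY : A + B * K ≤ Y) :
    (((range K).filter fun t => ∃ p : ℕ, p.Prime ∧ k < p ∧ ((p ^ 2 : ℕ) : ℤ) ∣ ((A + B * t : ℕ) : ℤ) ^ 2 - N).card : ℝ) ≤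
      2 * (K / k) + 2 * Nat.primeCounting Y := by
  have hcov : ((range K).filter fun t => ∃ p : ℕ, p.Prime ∧ k < p ∧ ((p ^ 2 : ℕ) : ℤ) ∣ ((A + B * t : ℕ) : ℤ) ^ 2 - N) ⊆
      ((Ioc k Y).filter Nat.Prime).biUnion fun p => (range K).filter fun t =>
        ((p ^ 2 : ℕ) : ℤ) ∣ ((A + B * t : ℕ) : ℤ) ^ 2 - N := by
    intro t ht
    rw [mem_filter, mem_range] at ht
    obtain ⟨ht, p, hp, hkp, hd⟩ := ht
    rw [mem_biUnion]
    refine ⟨p, ?_, mem_filter.2 ⟨mem_range.2 ht, hd⟩⟩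
    rw [mem_filter, mem_Ioc]
    refine ⟨⟨hkp, ?_⟩, hp⟩
    have h1 := hpos t ht
    have h2 : (0 : ℤ) < ((A + B * t : ℕ) : ℤ) ^ 2 - N := by
      have : (N : ℤ) < ((A + B * t : ℕ) : ℤ) ^ 2 := by exact_mod_cast h1
      linarith
    have h3 := Int.le_of_dvd h2 hd
    have h4 : p ^ 2 ≤ (A + B * t) ^ 2 := by
      have : ((p ^ 2 : ℕ) : ℤ) ≤ ((A + B * t : ℕ) : ℤ) ^ 2 := by
        have : (0 : ℤ) ≤ N := Int.natCast_nonneg N
        linarith
      exact_mod_cast this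
    have h5 : p ≤ A + B * t := le_of_pow_le_pow_left₀ (by norm_num) (Nat.zero_le _) h4
    have := Nat.mul_le_mul_left B ht.le
    omega
  have h1 := (card_le_card hcov).trans card_biUnion_le
  have h2 : ∀ p ∈ (Ioc k Y).filter Nat.Prime, (((range K).filter fun t =>
      ((p ^ 2 : ℕ) : ℤ) ∣ ((A + B * t : ℕ) : ℤ) ^ 2 - N).card : ℝ) ≤ 2 * (K * ((p : ℝ) ^ 2)⁻¹) + 2 := by
    intro p hp
    rw [mem_filter, mem_Ioc] at hp
    obtain ⟨⟨hkp, _⟩, hpp⟩ := hp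
    have h3 := two_classes A B N K p hpp (hB p hpp hkp) (hN p hpp hkp)
    have h8 : (((K / p ^ 2 : ℕ)) : ℝ) ≤ K / ((p : ℝ) ^ 2) := by
      have := Nat.cast_div_le (α := ℝ) (m := K) (n := p ^ 2)
      push_cast at this
      exact this
    have h9 : (((range K).filter fun t => ((p ^ 2 : ℕ) : ℤ) ∣ ((A + B * t : ℕ) : ℤ) ^ 2 - N).card : ℝ) ≤
        2 * (((K / p ^ 2 : ℕ) : ℝ) + 1) := by
      exact_mod_cast h3
    rw [← div_eq_mul_inv]
    linarith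
  have h3 : (((range K).filter fun t => ∃ p : ℕ, p.Prime ∧ k < p ∧
      ((p ^ 2 : ℕ) : ℤ) ∣ ((A + B * t : ℕ) : ℤ) ^ 2 - N).card : ℝ) ≤
      ∑ p ∈ (Ioc k Y).filter Nat.Prime, (2 * (K * ((p : ℝ) ^ 2)⁻¹) + 2) := by
    refine le_trans ?_ (sum_le_sum h2)
    exact_mod_cast h1
  refine h3.trans ?_
  rw [sum_add_distrib, sum_const, nsmul_eq_mul, ← mul_sum, ← mul_sum]
  have hkr : (0 : ℝ) < k := by exact_mod_cast hk
  have h4 : ∑ p ∈ (Ioc k Y).filter Nat.Prime, ((p : ℝ) ^ 2)⁻¹ ≤ (k : ℝ)⁻¹ := by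
    refine (sum_le_sum_of_subset_of_nonneg (filter_subset _ _) (fun p _ _ => by positivity)).trans ?_
    rcases le_or_gt k Y with h | h
    · refine (sum_Ioc_inv_sq_le_sub (by omega) h).trans ?_
      have : (0 : ℝ) ≤ (Y : ℝ)⁻¹ := by positivity
      linarith
    · rw [Ioc_eq_empty (by omega), sum_empty]
      positivity
  have h5 : (((Ioc k Y).filter Nat.Prime).card : ℝ) ≤ Nat.primeCounting Y := by
    have : ((Ioc k Y).filter Nat.Prime) ⊆ Nat.primesLE Y := by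
      intro p hp
      rw [mem_filter, mem_Ioc] at hp
      exact Nat.mem_primesLE.2 ⟨hp.1.2, hp.2⟩
    have h6 := card_le_card this
    rw [Nat.primesLE_card_eq_primeCounting] at h6
    exact_mod_cast h6
  have h6 := mul_le_mul_of_nonneg_left h4 (Nat.cast_nonneg K : (0 : ℝ) ≤ K)
  rw [← div_eq_mul_inv (K : ℝ) (k : ℝ)] at h6
  linarith

end Pool.Agent.U552.CN
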