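import Pool.Agent.U552.CN.PMain

/-!
Squares of large numbers dividing `x² - N` in short windows: for fixed `m` the equation `x² - m p² = N` has at most `N²`
solutions with `U ≤ x ≤ 2 U`.
-/

set_option autoImplicit false

namespace Pool.Agent.U552.CN

open Finset

lemma pell_gap {N x y p q m : ℤ} (hN : 0 < N) (hx0 : 0 < x) (hy0 : 0 < y) (hp0 : 0 < p) (hq0 : 0 < q) (hm : 0 < m)
    (hx : x ^ 2 - N = m * p ^ 2) (hy : y ^ 2 - N = m * q ^ 2) (hxy : y < x) (h1 : N ∣ x - y) (h2 : N ∣ p - q) :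
    2 * y < x := by
  obtain ⟨α, hα⟩ := h1
  obtain ⟨β, hβ⟩ := h2
  have ex : x = y + N * α := by linarith
  have ep : p = q + N * β := by linarith
  -- u, v
  obtain ⟨u, hu⟩ : ∃ u, u = 1 + y * α - m * q * β := ⟨_, rfl⟩
  obtain ⟨v, hv⟩ : ∃ v, v = y * β - q * α := ⟨_, rfl⟩
  have hy' : y ^ 2 - m * q ^ 2 = N := by linarith
  have hNu : N * u = x * y - m * p * q := by
    rw [hu, ex, ep]
    linear_combination -hy'
  have hNv : N * v = y * p - x * q := by
    rw [hv, ex, ep]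
    ring
  have hv0 : 0 < v := by
    have h3 : (x * q) ^ 2 < (y * p) ^ 2 := by
      have h4 : m * ((y * p) ^ 2 - (x * q) ^ 2) = N * (x ^ 2 - y ^ 2) := by
        linear_combination (-y ^ 2) * hx + x ^ 2 * hy
      have h5 : 0 < N * (x ^ 2 - y ^ 2) := mul_pos hN (by nlinarith)
      rw [← h4] at h5
      have := (mul_pos_iff_of_pos_left hm).1 h5
      linarith
    have h6 : x * q < y * p := lt_of_pow_lt_pow_left₀ 2 (by positivity) h3
    have h7 : 0 < N * v := by rw [hNv]; linarith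
    exact (mul_pos_iff_of_pos_left hN).1 h7
  have hu0 : 0 < u := by
    have h3 : (m * p * q) ^ 2 < (x * y) ^ 2 := by
      have h4 : (x * y) ^ 2 = (m * p ^ 2 + N) * (m * q ^ 2 + N) := by
        rw [← hx, ← hy]; ring
      rw [h4]
      have h5 : 0 < m * p ^ 2 := by positivity
      have h6 : 0 < m * q ^ 2 := by positivity
      nlinarith
    have h6 : m * p * q < x * y := lt_of_pow_lt_pow_left₀ 2 (by positivity) h3
    have h7 : 0 < N * u := by rw [hNu]; linarith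
    exact (mul_pos_iff_of_pos_left hN).1 h7
  have huv : u ^ 2 - m * v ^ 2 = 1 := by
    have h3 : N ^ 2 * (u ^ 2 - m * v ^ 2) = N ^ 2 * 1 := by
      have h4 : N ^ 2 * (u ^ 2 - m * v ^ 2) = (N * u) ^ 2 - m * (N * v) ^ 2 := by ring
      rw [h4, hNu, hNv]
      have h5 : (x * y - m * p * q) ^ 2 - m * (y * p - x * q) ^ 2 = (x ^ 2 - m * p ^ 2) * (y ^ 2 - m * q ^ 2) := by ring
      rw [h5, hy', show x ^ 2 - m * p ^ 2 = N by linarith]
      ring
    exact mul_left_cancel₀ (by positivity) h3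
  have hu2 : 2 ≤ u := by
    by_contra hcon
    have h3 : u = 1 := by omega
    rw [h3] at huv
    have : 0 < m * v ^ 2 := by positivity
    linarith
  have hxe : N * x = N * (u * y + m * v * q) := by
    have h3 : N * (u * y + m * v * q) = (N * u) * y + m * (N * v) * q := by ring
    rw [h3, hNu, hNv]
    linear_combination (-x) * hy'
  have hxe2 := mul_left_cancel₀ hN.ne' hxe
  have h4 : 0 < m * v * q := by positivity
  nlinarith

lemma pell_count (N U P M : ℕ) (hN : 1 ≤ N) (hU : 1 ≤ U) (hM : (2 * U) ^ 2 ≤ M * P ^ 2) (S : Finset ℕ)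
    (hS : ∀ x ∈ S, U ≤ x ∧ x ≤ 2 * U ∧ ∃ p : ℕ, P < p ∧ N < x ^ 2 ∧ ((p ^ 2 : ℕ) : ℤ) ∣ (x : ℤ) ^ 2 - N) :
    S.card ≤ M * N ^ 2 := by
  classical
  have hch : ∀ x : ℕ, ∃ p m : ℕ, x ∈ S → P < p ∧ 0 < m ∧ (x : ℤ) ^ 2 - N = m * (p : ℤ) ^ 2 := by
    intro x
    by_cases hx : x ∈ S
    · obtain ⟨_, _, p, hp, hNx, m, hm⟩ := hS x hx
      have hNz : (0 : ℤ) < (x : ℤ) ^ 2 - N := by
        have : (N : ℤ) < (x : ℤ) ^ 2 := by exact_mod_cast hNx
        linarith
      have hp2 : (0 : ℤ) < ((p ^ 2 : ℕ) : ℤ) := by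
        have : 0 < p ^ 2 := pow_pos (by omega) 2
        exact_mod_cast this
      have hm0 : 0 < m := by
        rw [hm] at hNz
        exact (mul_pos_iff_of_pos_left hp2).1 hNz
      refine ⟨p, m.toNat, fun _ => ⟨hp, by omega, ?_⟩⟩
      rw [hm, Int.toNat_of_nonneg hm0.le]
      push_cast
      ring
    · exact ⟨0, 0, fun h => absurd h hx⟩
  choose p m hpm using hch
  have hmaps : ∀ x ∈ S, (m x, x % N, p x % N) ∈ (Ioc 0 M) ×ˢ (range N ×ˢ range N) := by
    intro x hx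
    obtain ⟨h1, h2, h3⟩ := hpm x hx
    obtain ⟨g1, g2, _⟩ := hS x hx
    rw [mem_product, mem_product, mem_Ioc, mem_range, mem_range]
    refine ⟨⟨h2, ?_⟩, Nat.mod_lt _ hN, Nat.mod_lt _ hN⟩
    have h4 : m x * (p x) ^ 2 ≤ x ^ 2 := by
      have : (m x : ℤ) * (p x : ℤ) ^ 2 ≤ (x : ℤ) ^ 2 := by
        rw [← h3]
        have : (0 : ℤ) ≤ N := Int.natCast_nonneg N
        linarith
      exact_mod_cast this
    have h5 : x ^ 2 ≤ (2 * U) ^ 2 := Nat.pow_le_pow_left g2 2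
    by_contra hcon
    have h6 : M + 1 ≤ m x := by simp only at hcon; omega
    have h7 : (P + 1) ^ 2 ≤ (p x) ^ 2 := Nat.pow_le_pow_left h1 2
    have h8 : (M + 1) * (P + 1) ^ 2 ≤ m x * (p x) ^ 2 := Nat.mul_le_mul h6 h7
    have h9 : M * P ^ 2 < (M + 1) * (P + 1) ^ 2 := by nlinarith
    omega
  have hinj : Set.InjOn (fun x => (m x, x % N, p x % N)) S := by
    have key : ∀ x ∈ S, ∀ y ∈ S, (m x, x % N, p x % N) = (m y, y % N, p y % N) → ¬ y < x := by
      intro x hx y hy hxy hlt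
      obtain ⟨h1, h2, h3⟩ := hpm x hx
      obtain ⟨h1', h2', h3'⟩ := hpm y hy
      obtain ⟨g1, g2, _⟩ := hS x hx
      obtain ⟨g1', g2', _⟩ := hS y hy
      simp only [Prod.mk.injEq] at hxy
      obtain ⟨e1, e2, e3⟩ := hxy
      rw [← e1] at h3' h2'
      have hdvd : ∀ a b : ℕ, a % N = b % N → (N : ℤ) ∣ (a : ℤ) - b := by
        intro a b h
        have : b ≡ a [MOD N] := h.symm
        exact Nat.modEq_iff_dvd.1 this
      have := pell_gap (N := N) (x := x) (y := y) (p := p x) (q := p y) (m := m x) (by exact_mod_cast hN)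
        (by exact_mod_cast (by omega : 0 < x)) (by exact_mod_cast (by omega : 0 < y))
        (by exact_mod_cast (by omega : 0 < p x)) (by exact_mod_cast (by omega : 0 < p y)) (by exact_mod_cast h2)
        h3 h3' (by exact_mod_cast hlt) (hdvd _ _ e2) (hdvd _ _ e3)
      have h4 : 2 * y < x := by exact_mod_cast this
      omega
    intro x hx y hy hxy
    have k1 := key x hx y hy hxy
    have k2 := key y hy x hx hxy.symm
    omega
  have := Finset.card_le_card_of_injOn _ hmaps hinj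
  rw [card_product, card_product, Nat.card_Ioc, card_range, Nat.sub_zero] at this
  rw [pow_two]
  exact this

open Classical in
/-- squares of large primes dividing `(A + B t)² - N` in a short window -/
lemma sieve3 (A B N K k P M : ℕ) (hA : 1 ≤ A) (hB0 : 1 ≤ B) (hk : 1 ≤ k) (hB : ∀ p : ℕ, p.Prime → k < p → ¬ p ∣ B)
    (hN0 : 1 ≤ N) (hN : ∀ p : ℕ, p.Prime → k < p → ¬ p ∣ 2 * N) (hpos : N < A ^ 2)
    (hBK : B * K ≤ A) (hM : (2 * A) ^ 2 ≤ M * P ^ 2) :
    (((range K).filter fun t => ∃ p : ℕ, p.Prime ∧ k < p ∧ ((p ^ 2 : ℕ) : ℤ) ∣ ((A + B * t : ℕ) : ℤ) ^ 2 - N).card : ℝ) ≤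
      2 * (K / k) + 2 * P + M * N ^ 2 := by
  set T := (range K).filter fun t => ∃ p : ℕ, p.Prime ∧ P < p ∧ ((p ^ 2 : ℕ) : ℤ) ∣ ((A + B * t : ℕ) : ℤ) ^ 2 - N with hT
  have hTc : T.card ≤ M * N ^ 2 := by
    have hinj : Function.Injective fun t : ℕ => A + B * t := by
      intro s t h
      have : B * s = B * t := by simpa using h
      exact Nat.eq_of_mul_eq_mul_left hB0 this
    rw [← card_image_of_injective T hinj]
    refine pell_count N A P M hN0 hA hM _ ?_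
    intro x hx
    rw [mem_image] at hx
    obtain ⟨t, ht, rfl⟩ := hx
    rw [mem_filter, mem_range] at ht
    obtain ⟨ht, p, hp, hPp, hd⟩ := ht
    have h1 : B * t ≤ B * K := Nat.mul_le_mul_left B ht.le
    refine ⟨by omega, by omega, p, hPp, ?_, hd⟩
    have : A ^ 2 ≤ (A + B * t) ^ 2 := Nat.pow_le_pow_left (by omega) 2
    omega
  have hcov : ((range K).filter fun t => ∃ p : ℕ, p.Prime ∧ k < p ∧ ((p ^ 2 : ℕ) : ℤ) ∣ ((A + B * t : ℕ) : ℤ) ^ 2 - N) ⊆
      T ∪ ((Ioc k P).filter Nat.Prime).biUnion fun p => (range K).filter fun t =>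
        ((p ^ 2 : ℕ) : ℤ) ∣ ((A + B * t : ℕ) : ℤ) ^ 2 - N := by
    intro t ht
    rw [mem_filter] at ht
    obtain ⟨ht, p, hp, hkp, hd⟩ := ht
    rw [mem_union]
    rcases lt_or_ge P p with h | h
    · exact Or.inl (mem_filter.2 ⟨ht, p, hp, h, hd⟩)
    · right
      rw [mem_biUnion]
      exact ⟨p, mem_filter.2 ⟨mem_Ioc.2 ⟨hkp, h⟩, hp⟩, mem_filter.2 ⟨ht, hd⟩⟩
  have h1 := (card_le_card hcov).trans ((card_union_le _ _).trans (add_le_add_right card_biUnion_le _))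
  have h2 : ∀ p ∈ (Ioc k P).filter Nat.Prime, (((range K).filter fun t =>
      ((p ^ 2 : ℕ) : ℤ) ∣ ((A + B * t : ℕ) : ℤ) ^ 2 - N).card : ℝ) ≤ 2 * (K * ((p : ℝ) ^ 2)⁻¹) + 2 := by
    intro p hp
    rw [mem_filter, mem_Ioc] at hp
    obtain ⟨⟨hkp, _⟩, hpp⟩ := hp
    have h3 := two_classes A B N K p hpp (hB p hpp hkp) (hN p hpp hkp)
    have h8 : (((K / p ^ 2 : ℕ)) : ℝ) ≤ K / ((p : ℝ) ^ 2) := by
      have := Nat.cast_div_le (α := ℝ) (m := K) (n := p ^ 2)
      push_cast at this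
      exact this
    have h9 : (((range K).filter fun t => ((p ^ 2 : ℕ) : ℤ) ∣ ((A + B * t : ℕ) : ℤ) ^ 2 - N).card : ℝ) ≤
        2 * (((K / p ^ 2 : ℕ) : ℝ) + 1) := by
      exact_mod_cast h3
    rw [← div_eq_mul_inv]
    linarith
  have h3 : (((range K).filter fun t => ∃ p : ℕ, p.Prime ∧ k < p ∧
      ((p ^ 2 : ℕ) : ℤ) ∣ ((A + B * t : ℕ) : ℤ) ^ 2 - N).card : ℝ) ≤
      T.card + ∑ p ∈ (Ioc k P).filter Nat.Prime, (2 * (K * ((p : ℝ) ^ 2)⁻¹) + 2) := by
    refine le_trans ?_ (add_le_add_right (sum_le_sum h2) _)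
    exact_mod_cast h1
  refine h3.trans ?_
  have hTc' : (T.card : ℝ) ≤ M * N ^ 2 := by exact_mod_cast hTc
  rw [sum_add_distrib, sum_const, nsmul_eq_mul, ← mul_sum, ← mul_sum]
  have hkr : (0 : ℝ) < k := by exact_mod_cast hk
  have h4 : ∑ p ∈ (Ioc k P).filter Nat.Prime, ((p : ℝ) ^ 2)⁻¹ ≤ (k : ℝ)⁻¹ := by
    refine (sum_le_sum_of_subset_of_nonneg (filter_subset _ _) (fun p _ _ => by positivity)).trans ?_
    rcases le_or_gt k P with h | h
    · refine (sum_Ioc_inv_sq_le_sub (by omega) h).trans ?_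
      have : (0 : ℝ) ≤ (P : ℝ)⁻¹ := by positivity
      linarith
    · rw [Ioc_eq_empty (by omega), sum_empty]
      positivity
  have h5 : (((Ioc k P).filter Nat.Prime).card : ℝ) ≤ P := by
    have := (card_filter_le (Ioc k P) Nat.Prime).trans_eq (Nat.card_Ioc k P)
    have h6 : ((Ioc k P).filter Nat.Prime).card ≤ P := this.trans (Nat.sub_le P k)
    exact_mod_cast h6
  have h6 := mul_le_mul_of_nonneg_left h4 (Nat.cast_nonneg K : (0 : ℝ) ≤ K)
  rw [← div_eq_mul_inv (K : ℝ) (k : ℝ)] at h6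
  linarith

end Pool.Agent.U552.CN
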