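import Pool.Agent.U552.CN.Fin

/-!
The common form of the results on congruent numbers.
-/

set_option autoImplicit false

namespace Pool.Agent.U552.CN

open Polynomial

/-- No nontrivial integral combination of the polynomials has only rational coefficients in positive degrees. -/
def Indep {m : ℕ} (P : Fin m → ℝ[X]) : Prop :=
  ∀ h : Fin m → ℤ, h ≠ 0 → ∃ j : ℕ, 1 ≤ j ∧ Irrational (∑ i, (h i : ℝ) * (P i).coeff j)

/-- Modulo one the values `P i n` lie between `a i` and `b i`. -/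
def Box {m : ℕ} (P : Fin m → ℝ[X]) (a b : Fin m → ℝ) (n : ℕ) : Prop :=
  ∀ i, ∃ k : ℤ, a i < (P i).eval (n : ℝ) + k ∧ (P i).eval (n : ℝ) + k < b i

theorem box_count {m : ℕ} (P : Fin m → ℝ[X]) (hP : Indep P) (a b : Fin m → ℝ) (hab : ∀ i, a i < b i)
    (M n₀ : ℕ) (hM : 1 ≤ M) (hn : Squarefree n₀) :
    ∃ c D X₀ : ℝ, 0 < c ∧ ∀ X : ℝ, X₀ ≤ X → ∀ Q : ℕ → Prop,
      (∀ u : ℕ, 1 ≤ u → Squarefree (nn M u) → nn M u ≡ n₀ [MOD 8 * M] → Box P a b (nn M u) → Q (nn M u)) →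
      c * X ^ (1 / 6 : ℝ) ≤ (({n : ℕ | X ≤ n ∧ (n : ℝ) ≤ X + D * X ^ (5 / 6 : ℝ) ∧ Q n}.ncard : ℕ) : ℝ) := by
  obtain ⟨hO, hne⟩ := box a b hab
  obtain ⟨c, D, X₀, hc, h⟩ := main P (fun k hk => by
    obtain ⟨j, hj, hirr⟩ := hP k hk
    refine ⟨j, hj, ?_⟩
    rw [finset_sum_coeff]
    simpa only [coeff_C_mul] using hirr) _ hO hne M n₀ hM hn
  refine ⟨c, D, X₀, hc, fun X hX Q hQ => ?_⟩
  obtain ⟨A, hA, hA2⟩ := h X hX
  refine hA.trans ?_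
  have hfin : {n : ℕ | X ≤ n ∧ (n : ℝ) ≤ X + D * X ^ (5 / 6 : ℝ) ∧ Q n}.Finite := by
    refine (Set.finite_Iic ⌊X + D * X ^ (5 / 6 : ℝ)⌋₊).subset ?_
    intro n hn
    exact Nat.le_floor hn.2.1
  have hsub : (A : Set ℕ) ⊆ {n : ℕ | X ≤ n ∧ (n : ℝ) ≤ X + D * X ^ (5 / 6 : ℝ) ∧ Q n} := by
    intro n hn
    obtain ⟨h1, h2, h3, h4, ⟨u, hu, rfl⟩, h5⟩ := hA2 n hn
    exact ⟨h1, h2, hQ u hu h3 h4 fun i => box_mem h5 i⟩
  have := Set.ncard_le_ncard hsub hfin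
  rw [Set.ncard_coe_finset] at this
  exact_mod_cast this

/-- the polynomials `-(X - β) / α` -/
noncomputable def bp {m : ℕ} (α β : Fin m → ℝ) (i : Fin m) : ℝ[X] := C (-(α i)⁻¹) * X + C (β i / α i)

lemma bp_indep {m : ℕ} {α β : Fin m → ℝ} (h : ∀ k : Fin m → ℤ, k ≠ 0 → Irrational (∑ i, (k i : ℝ) / α i)) :
    Indep (bp α β) := by
  intro k hk
  refine ⟨1, le_rfl, ?_⟩
  have h1 : ∑ i, (k i : ℝ) * (bp α β i).coeff 1 = -∑ i, (k i : ℝ) / α i := by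
    rw [← Finset.sum_neg_distrib]
    refine Finset.sum_congr rfl fun i _ => ?_
    unfold bp
    rw [coeff_add, coeff_C_mul, coeff_X_one, coeff_C_succ]
    ring
  rw [h1]
  exact (h k hk).neg

lemma bp_floor {m : ℕ} {α β : Fin m → ℝ} (hα : ∀ i, 0 < α i) {n : ℕ}
    (h : Box (bp α β) (fun _ => 0) (fun i => (α i)⁻¹) n) (i : Fin m) : ∃ k : ℤ, (n : ℤ) = ⌊α i * k + β i⌋ := by
  obtain ⟨k, h1, h2⟩ := h i
  refine ⟨k, ?_⟩
  symm
  unfold bp at h1 h2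
  rw [eval_add, eval_mul, eval_C, eval_X, eval_C] at h1 h2
  have ha := hα i
  have h3 : α i * (-(α i)⁻¹ * n + β i / α i + k) = α i * k + β i - n := by
    field_simp
    ring
  have h4 : 0 < α i * (-(α i)⁻¹ * n + β i / α i + k) := mul_pos ha h1
  have h5 : α i * (-(α i)⁻¹ * n + β i / α i + k) < 1 := by
    calc α i * (-(α i)⁻¹ * n + β i / α i + k) < α i * (α i)⁻¹ := mul_lt_mul_of_pos_left h2 ha
      _ = 1 := mul_inv_cancel₀ ha.ne'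
  rw [h3] at h4 h5
  rw [Int.floor_eq_iff]
  push_cast
  constructor <;> linarith

end Pool.Agent.U552.CN
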