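import Pool.Agent.U552.CN.PFin

/-!
Pairs of congruent numbers: residue classes modulo `8`, the second definition of congruent numbers.
-/

set_option autoImplicit false

namespace Pool.Agent.U552.CN

open Finset

lemma fz_mod (a b S x : ℕ) : fz a b S x % 8 = fz a b (S % 8) ((x % 8 : ℕ) : ℤ) % 8 := by
  have h1 : (S : ℤ) ≡ ((S % 8 : ℕ) : ℤ) [ZMOD 8] := (Int.natCast_modEq_iff (n := 8)).2 (Nat.mod_modEq S 8).symm
  have h2 : (x : ℤ) ≡ ((x % 8 : ℕ) : ℤ) [ZMOD 8] := (Int.natCast_modEq_iff (n := 8)).2 (Nat.mod_modEq x 8).symm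
  exact ((h2.mul_left a).add (h1.mul_left 3)).mul ((h2.pow 2).sub ((h1.pow 2).mul_left _))

lemma gz_mod (a b S x : ℕ) : gz a b S x % 8 = gz a b (S % 8) ((x % 8 : ℕ) : ℤ) % 8 := by
  have h1 : (S : ℤ) ≡ ((S % 8 : ℕ) : ℤ) [ZMOD 8] := (Int.natCast_modEq_iff (n := 8)).2 (Nat.mod_modEq S 8).symm
  have h2 : (x : ℤ) ≡ ((x % 8 : ℕ) : ℤ) [ZMOD 8] := (Int.natCast_modEq_iff (n := 8)).2 (Nat.mod_modEq x 8).symm
  exact ((h2.mul_left a).sub h1).mul (((h2.add (h1.mul_left b)).pow 2).sub ((h1.pow 2).mul_left _))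

/-- the pairs `n`, `n + h` in the classes `i`, `j` modulo `8` -/
theorem run (a b s ρ i j : ℕ) (hab : a = 2 ∧ b = 1 ∨ a = 1 ∧ b = 2) (hs : 1 ≤ s) (hρ : ρ < 8)
    (hf : fz a b (s ^ 2 % 8) ρ % 8 = i) (hg : gz a b (s ^ 2 % 8) ρ % 8 = j) (hi : i % 4 ≠ 0) (hj : j % 4 ≠ 0) :
    ∃ c X₀ : ℝ, 0 < c ∧ ∀ X : ℝ, X₀ ≤ X → ∀ Q : ℕ → Prop,
      (∀ n : ℕ, n % 8 = i → (n + 7 * b ^ 2 * s ^ 6) % 8 = j → Squarefree n → Squarefree (n + 7 * b ^ 2 * s ^ 6) →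
        Tri n → Tri (n + 7 * b ^ 2 * s ^ 6) → Q n) →
      c * X ^ (1 / 3 : ℝ) ≤ (({n : ℕ | (n : ℝ) ≤ X ∧ Q n}.ncard : ℕ) : ℝ) := by
  have hab2 : a * b = 2 := by rcases hab with ⟨rfl, rfl⟩ | ⟨rfl, rfl⟩ <;> rfl
  have hcl : ∀ x : ℕ, x ≡ ρ [MOD 8] → fz a b (s ^ 2) x % 8 = i ∧ gz a b (s ^ 2) x % 8 = j := by
    intro x hx
    have hx8 : x % 8 = ρ := by
      have : x % 8 = ρ % 8 := hx
      omega
    rw [fz_mod, gz_mod, hx8]
    exact ⟨hf, hg⟩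
  obtain ⟨c, X₀, hc, h⟩ := pairs a b s ρ hab hs (fun x hx => by
    obtain ⟨h1, h2⟩ := hcl x hx
    constructor
    · intro hd; omega
    · intro hd; omega)
  refine ⟨c, X₀, hc, fun X hX Q hQ => ?_⟩
  obtain ⟨A, hA, hA2⟩ := h X hX
  refine hA.trans ?_
  have hfin : {n : ℕ | (n : ℝ) ≤ X ∧ Q n}.Finite := by
    refine (Set.finite_Iic ⌊X⌋₊).subset ?_
    intro n hn
    exact Nat.le_floor hn.1
  have hsub : (A : Set ℕ) ⊆ {n : ℕ | (n : ℝ) ≤ X ∧ Q n} := by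
    intro n hn
    obtain ⟨h1, h2, h3, h4, h5, x, hx, hxn⟩ := hA2 n hn
    obtain ⟨g1, g2⟩ := hcl x hx
    refine ⟨h1, hQ n ?_ ?_ h2 h3 h4 h5⟩
    · rw [← hxn] at g1
      omega
    · rw [gz_eq hab2, ← hxn] at g2
      have e : ((n + 7 * b ^ 2 * s ^ 6 : ℕ) : ℤ) = (n : ℤ) + 7 * (b : ℤ) ^ 2 * ((s ^ 2 : ℕ) : ℤ) ^ 3 := by
        push_cast; ring
      rw [← e] at g2
      omega
  have := Set.ncard_le_ncard hsub hfin
  rw [Set.ncard_coe_finset] at this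
  exact_mod_cast this

lemma odd_sq {s : ℕ} (h : Odd s) : s ^ 2 % 8 = 1 := by
  obtain ⟨k, rfl⟩ := h
  have h1 : (2 * k + 1) ^ 2 = 4 * (k * (k + 1)) + 1 := by ring
  have h2 : 2 ∣ k * (k + 1) := (Nat.even_mul_succ_self k).two_dvd
  rw [h1]
  omega

lemma even_sq (s : ℕ) : (2 * s) ^ 2 % 8 = 0 ∨ (2 * s) ^ 2 % 8 = 4 := by
  have h1 : (2 * s) ^ 2 = 4 * s ^ 2 := by ring
  omega

/-- from triangles to squares -/
lemma tri_sq {n : ℕ} (h : Tri n) : ∃ x y z t : ℕ, 0 < x ∧ 0 < y ∧ 0 < z ∧ 0 < t ∧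
    (x : ℤ) ^ 2 + n * (y : ℤ) ^ 2 = (z : ℤ) ^ 2 ∧ (x : ℤ) ^ 2 - n * (y : ℤ) ^ 2 = (t : ℤ) ^ 2 := by
  obtain ⟨a, b, c, ha, hb, hc, h1, h2⟩ := h
  obtain ⟨D, hD, A, B, C, hA, hB, hC, ea, eb, ec⟩ : ∃ D : ℕ, 0 < D ∧ ∃ A B C : ℕ, 0 < A ∧ 0 < B ∧ 0 < C ∧
      a = A / D ∧ b = B / D ∧ c = C / D := by
    have hna : 0 < a.num := Rat.num_pos.2 ha
    have hnb : 0 < b.num := Rat.num_pos.2 hb
    have hnc : 0 < c.num := Rat.num_pos.2 hc
    obtain ⟨u, hu⟩ := Int.eq_ofNat_of_zero_le hna.le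
    obtain ⟨v, hv⟩ := Int.eq_ofNat_of_zero_le hnb.le
    obtain ⟨w, hw⟩ := Int.eq_ofNat_of_zero_le hnc.le
    have hu0 : 0 < u := by omega
    have hv0 : 0 < v := by omega
    have hw0 : 0 < w := by omega
    have da : (0 : ℕ) < a.den := a.pos
    have db : (0 : ℕ) < b.den := b.pos
    have dc : (0 : ℕ) < c.den := c.pos
    have qa : (a.den : ℚ) ≠ 0 := by exact_mod_cast da.ne'
    have qb : (b.den : ℚ) ≠ 0 := by exact_mod_cast db.ne'
    have qc : (c.den : ℚ) ≠ 0 := by exact_mod_cast dc.ne'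
    refine ⟨a.den * b.den * c.den, by positivity, u * b.den * c.den, v * a.den * c.den, w * a.den * b.den,
      by positivity, by positivity, by positivity, ?_, ?_, ?_⟩
    · have : a = (a.num : ℚ) / a.den := (Rat.num_div_den a).symm
      rw [hu] at this
      conv_lhs => rw [this]
      push_cast
      field_simp
    · have : b = (b.num : ℚ) / b.den := (Rat.num_div_den b).symm
      rw [hv] at this
      conv_lhs => rw [this]
      push_cast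
      field_simp
    · have : c = (c.num : ℚ) / c.den := (Rat.num_div_den c).symm
      rw [hw] at this
      conv_lhs => rw [this]
      push_cast
      field_simp
  subst ea eb ec
  have hDq : (D : ℚ) ≠ 0 := by exact_mod_cast hD.ne'
  have g1 : A ^ 2 + B ^ 2 = C ^ 2 := by
    field_simp at h1
    exact_mod_cast h1
  have g2 : 2 * D ^ 2 * n = A * B := by
    have : (2 : ℚ) * D ^ 2 * n = A * B := by
      rw [h2]
      field_simp
    exact_mod_cast this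
  have hne : A ≠ B := by
    intro hAB
    rw [hAB] at g1
    have g3 : (2 : ℕ) * B ^ 2 = C ^ 2 := by omega
    have h4 : Irrational (Real.sqrt 2) := irrational_sqrt_two
    apply h4
    refine ⟨(C : ℚ) / B, ?_⟩
    have hB' : (B : ℝ) ≠ 0 := by positivity
    push_cast
    symm
    rw [Real.sqrt_eq_iff_mul_self_eq (by norm_num) (by positivity)]
    have : (2 : ℝ) * (B : ℝ) ^ 2 = (C : ℝ) ^ 2 := by exact_mod_cast g3
    field_simp
    linarith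
  have g1z : (A : ℤ) ^ 2 + (B : ℤ) ^ 2 = (C : ℤ) ^ 2 := by exact_mod_cast g1
  have g2z : (2 : ℤ) * D ^ 2 * n = A * B := by exact_mod_cast g2
  refine ⟨C, 2 * D, A + B, ((A : ℤ) - B).natAbs, hC, by positivity, by positivity, ?_, ?_, ?_⟩
  · rw [Int.natAbs_pos]
    intro h
    exact hne (by omega)
  · push_cast
    linear_combination -g1z + 2 * g2z
  · rw [Int.natCast_natAbs, sq_abs]
    push_cast
    linear_combination -g1z - 2 * g2z

end Pool.Agent.U552.CN
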