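import Pool.Agent.U552.CN.PShort
import Pool.Agent.U552.CN.Res2

/-!
Pairs of congruent numbers in short intervals: residue classes modulo `8`.
-/

set_option autoImplicit false

namespace Pool.Agent.U552.CN

open Finset

/-- the pairs `n`, `n + h` in the classes `i`, `j` modulo `8`, in short intervals -/
theorem run_short (a b s ρ i j : ℕ) (hab : a = 2 ∧ b = 1 ∨ a = 1 ∧ b = 2) (hs : 1 ≤ s) (hρ : ρ < 8)
    (hf : fz a b (s ^ 2 % 8) ρ % 8 = i) (hg : gz a b (s ^ 2 % 8) ρ % 8 = j) (hi : i % 4 ≠ 0) (hj : j % 4 ≠ 0) :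
    ∃ D X₀ : ℝ, ∀ X : ℝ, X₀ ≤ X → ∀ Q : ℕ → Prop,
      (∀ n : ℕ, n % 8 = i → (n + 7 * b ^ 2 * s ^ 6) % 8 = j → Squarefree n → Squarefree (n + 7 * b ^ 2 * s ^ 6) →
        Tri n → Tri (n + 7 * b ^ 2 * s ^ 6) → Q n) →
      X ^ (2 / 9 : ℝ) ≤ (({n : ℕ | X ≤ n ∧ (n : ℝ) ≤ X + D * X ^ (8 / 9 : ℝ) ∧ Q n}.ncard : ℕ) : ℝ) := by
  have hab2 : a * b = 2 := by rcases hab with ⟨rfl, rfl⟩ | ⟨rfl, rfl⟩ <;> rfl
  have hcl : ∀ x : ℕ, x ≡ ρ [MOD 8] → fz a b (s ^ 2) x % 8 = i ∧ gz a b (s ^ 2) x % 8 = j := by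
    intro x hx
    have hx8 : x % 8 = ρ := by
      have : x % 8 = ρ % 8 := hx
      omega
    rw [fz_mod, gz_mod, hx8]
    exact ⟨hf, hg⟩
  obtain ⟨D, X₀, h⟩ := pairs_short a b s ρ hab hs (fun x hx => by
    obtain ⟨h1, h2⟩ := hcl x hx
    constructor
    · intro hd; omega
    · intro hd; omega)
  refine ⟨D, X₀, fun X hX Q hQ => ?_⟩
  obtain ⟨A, hA, hA2⟩ := h X hX
  refine hA.trans ?_
  have hfin : {n : ℕ | X ≤ n ∧ (n : ℝ) ≤ X + D * X ^ (8 / 9 : ℝ) ∧ Q n}.Finite := by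
    refine (Set.finite_Iic ⌊X + D * X ^ (8 / 9 : ℝ)⌋₊).subset ?_
    intro n hn
    exact Nat.le_floor hn.2.1
  have hsub : (A : Set ℕ) ⊆ {n : ℕ | X ≤ n ∧ (n : ℝ) ≤ X + D * X ^ (8 / 9 : ℝ) ∧ Q n} := by
    intro n hn
    obtain ⟨h0, h1, h2, h3, h4, h5, x, hx, hxn⟩ := hA2 n hn
    obtain ⟨g1, g2⟩ := hcl x hx
    refine ⟨h0, h1, hQ n ?_ ?_ h2 h3 h4 h5⟩
    · rw [← hxn] at g1
      omega
    · rw [gz_eq hab2, ← hxn] at g2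
      have e : ((n + 7 * b ^ 2 * s ^ 6 : ℕ) : ℤ) = (n : ℤ) + 7 * (b : ℤ) ^ 2 * ((s ^ 2 : ℕ) : ℤ) ^ 3 := by
        push_cast; ring
      rw [← e] at g2
      omega
  have := Set.ncard_le_ncard hsub hfin
  rw [Set.ncard_coe_finset] at this
  exact_mod_cast this

end Pool.Agent.U552.CN
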