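import Pool.Agent.U552.CN.Weyl

/-!
Squarefree values of `u (4 M² u - 1) (4 M² u + 1)` in short windows, with prescribed fractional parts.
-/

set_option autoImplicit false

namespace Pool.Agent.U552.CN

open Finset Polynomial
open Pool.Agent.Helper602.MK (ee)

/-- the congruent numbers of the family -/
def nn (M u : ℕ) : ℕ := u * (4 * M ^ 2 * u - 1) * (4 * M ^ 2 * u + 1)

lemma res_card (m T : ℕ) (hm : 0 < m) (S : Finset ℕ) (hS : ∀ t ∈ S, t < T)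
    (h : ∀ s ∈ S, ∀ t ∈ S, s % m = t % m) : S.card ≤ T / m + 1 := by
  have hmaps : ∀ t ∈ S, t / m ∈ range (T / m + 1) := by
    intro t ht
    rw [mem_range, Nat.lt_succ_iff]
    exact Nat.div_le_div_right (hS t ht).le
  have hinj : Set.InjOn (fun t => t / m) S := by
    intro s hs t ht hst
    have h1 := Nat.div_add_mod s m
    have h2 := Nat.div_add_mod t m
    have h3 := h s hs t ht
    simp only at hst
    rw [← h1, ← h2, hst, h3]
  have := Finset.card_le_card_of_injOn (fun t => t / m) hmaps hinj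
  rwa [card_range] at this

open Classical in
/-- squares of large primes dividing the members of a progression -/
lemma sieve (A B K k : ℕ) (hA : 1 ≤ A) (hk : 1 ≤ k) (hB : ∀ p : ℕ, p.Prime → k < p → ¬ p ∣ B) :
    (((range K).filter fun t => ∃ p : ℕ, p.Prime ∧ k < p ∧ p ^ 2 ∣ A + B * t).card : ℝ) ≤
      K / k + Nat.sqrt (A + B * K) := by
  set Y := Nat.sqrt (A + B * K) with hY
  have hcov : ((range K).filter fun t => ∃ p : ℕ, p.Prime ∧ k < p ∧ p ^ 2 ∣ A + B * t) ⊆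
      ((Ioc k Y).filter Nat.Prime).biUnion fun p => (range K).filter fun t => p ^ 2 ∣ A + B * t := by
    intro t ht
    rw [mem_filter, mem_range] at ht
    obtain ⟨ht, p, hp, hkp, hd⟩ := ht
    rw [mem_biUnion]
    refine ⟨p, ?_, ?_⟩
    · rw [mem_filter, mem_Ioc]
      refine ⟨⟨hkp, ?_⟩, hp⟩
      rw [hY, Nat.le_sqrt']
      refine (Nat.le_of_dvd (by omega) hd).trans ?_
      have := Nat.mul_le_mul_left B ht.le
      omega
    · rw [mem_filter, mem_range]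
      exact ⟨ht, hd⟩
  have h1 := (card_le_card hcov).trans card_biUnion_le
  have h2 : ∀ p ∈ (Ioc k Y).filter Nat.Prime, (((range K).filter fun t => p ^ 2 ∣ A + B * t).card : ℝ) ≤
      K * ((p : ℝ) ^ 2)⁻¹ + 1 := by
    intro p hp
    rw [mem_filter, mem_Ioc] at hp
    obtain ⟨⟨hkp, _⟩, hpp⟩ := hp
    have h3 := res_card (p ^ 2) K (pow_pos hpp.pos 2) ((range K).filter fun t => p ^ 2 ∣ A + B * t)
      (fun t ht => mem_range.1 (mem_filter.1 ht).1) (by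
        intro s hs t ht
        have h4 := (mem_filter.1 hs).2
        have h5 := (mem_filter.1 ht).2
        have h6 : A + B * s ≡ A + B * t [MOD p ^ 2] :=
          ((Nat.modEq_zero_iff_dvd.2 h4).trans (Nat.modEq_zero_iff_dvd.2 h5).symm)
        have h7 : B * s ≡ B * t [MOD p ^ 2] := Nat.ModEq.add_left_cancel' A h6
        have hcop : Nat.gcd (p ^ 2) B = 1 :=
          Nat.Coprime.pow_left 2 ((Nat.Prime.coprime_iff_not_dvd hpp).2 (hB p hpp hkp))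
        exact Nat.ModEq.cancel_left_of_coprime hcop h7)
    have h8 : (((K / p ^ 2 : ℕ)) : ℝ) ≤ K / ((p : ℝ) ^ 2) := by
      have := Nat.cast_div_le (α := ℝ) (m := K) (n := p ^ 2)
      push_cast at this
      exact this
    have h9 : (((range K).filter fun t => p ^ 2 ∣ A + B * t).card : ℝ) ≤ ((K / p ^ 2 : ℕ) : ℝ) + 1 := by
      exact_mod_cast h3
    rw [← div_eq_mul_inv]
    linarith
  have h3 : (((range K).filter fun t => ∃ p : ℕ, p.Prime ∧ k < p ∧ p ^ 2 ∣ A + B * t).card : ℝ) ≤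
      ∑ p ∈ (Ioc k Y).filter Nat.Prime, (K * ((p : ℝ) ^ 2)⁻¹ + 1) := by
    refine le_trans ?_ (sum_le_sum h2)
    exact_mod_cast h1
  refine h3.trans ?_
  have hsub : ∑ p ∈ (Ioc k Y).filter Nat.Prime, (K * ((p : ℝ) ^ 2)⁻¹ + 1) ≤
      ∑ p ∈ Ioc k Y, (K * ((p : ℝ) ^ 2)⁻¹ + 1) :=
    sum_le_sum_of_subset_of_nonneg (filter_subset _ _) (fun p _ _ => by positivity)
  refine hsub.trans ?_
  rw [sum_add_distrib, ← mul_sum, sum_const, Nat.card_Ioc, nsmul_eq_mul, mul_one]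
  have hkr : (0 : ℝ) < k := by exact_mod_cast hk
  have h4 : ∑ p ∈ Ioc k Y, ((p : ℝ) ^ 2)⁻¹ ≤ (k : ℝ)⁻¹ := by
    rcases le_or_gt k Y with h | h
    · refine (sum_Ioc_inv_sq_le_sub (by omega) h).trans ?_
      have : (0 : ℝ) ≤ (Y : ℝ)⁻¹ := by positivity
      linarith
    · rw [Ioc_eq_empty (by omega), sum_empty]
      positivity
  have h5 : ((Y - k : ℕ) : ℝ) ≤ Y := by
    exact_mod_cast Nat.sub_le Y k
  have h6 := mul_le_mul_of_nonneg_left h4 (Nat.cast_nonneg K : (0 : ℝ) ≤ K)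
  rw [← div_eq_mul_inv (K : ℝ) (k : ℝ)] at h6
  linarith

lemma sq_free_nn {M u : ℕ} (hM : 1 ≤ M) (hu : 1 ≤ u)
    (h : ∀ p : ℕ, p.Prime → ¬ p ^ 2 ∣ u ∧ ¬ p ^ 2 ∣ 4 * M ^ 2 * u - 1 ∧ ¬ p ^ 2 ∣ 4 * M ^ 2 * u + 1) :
    Squarefree (nn M u) := by
  have hb : 1 ≤ 4 * M ^ 2 * u := Nat.succ_le_of_lt (by positivity)
  obtain ⟨v, hv⟩ : ∃ v, 4 * M ^ 2 * u = v + 1 := ⟨4 * M ^ 2 * u - 1, by omega⟩
  have hcopu : ∀ w : ℕ, (w = v ∨ w = v + 2) → Nat.Coprime u w := by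
    intro w hw
    rw [Nat.coprime_iff_gcd_eq_one, ← Nat.dvd_one]
    have h1 : Nat.gcd u w ∣ u := Nat.gcd_dvd_left _ _
    have h2 : Nat.gcd u w ∣ w := Nat.gcd_dvd_right _ _
    have h3 : Nat.gcd u w ∣ v + 1 := hv ▸ Dvd.dvd.mul_left h1 _
    rcases hw with rfl | rfl
    · exact (Nat.dvd_add_right h2).1 h3
    · have h4 : v + 2 = (v + 1) + 1 := by ring
      rw [h4] at h2
      exact (Nat.dvd_add_right h3).1 h2
  have hcopv : Nat.Coprime v (v + 2) := by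
    rw [Nat.coprime_iff_gcd_eq_one]
    have h1 : Nat.gcd v (v + 2) ∣ v := Nat.gcd_dvd_left _ _
    have h2 : Nat.gcd v (v + 2) ∣ v + 2 := Nat.gcd_dvd_right _ _
    have h3 : Nat.gcd v (v + 2) ∣ 2 := (Nat.dvd_add_right h1).1 h2
    have hodd : ¬ 2 ∣ v := by
      intro h2v
      have h4 : 2 ∣ v + 1 := by
        rw [← hv]
        exact ⟨2 * M ^ 2 * u, by ring⟩
      omega
    rcases (Nat.dvd_prime Nat.prime_two).1 h3 with h4 | h4
    · exact h4
    · rw [h4] at h1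
      exact absurd h1 hodd
  have hsq : ∀ w : ℕ, (∀ p : ℕ, p.Prime → ¬ p ^ 2 ∣ w) → Squarefree w := by
    intro w hw
    rw [Nat.squarefree_iff_prime_squarefree]
    intro p hp hd
    rw [← pow_two] at hd
    exact hw p hp hd
  have e1 : 4 * M ^ 2 * u - 1 = v := by omega
  have e2 : 4 * M ^ 2 * u + 1 = v + 2 := by omega
  unfold nn
  rw [e1, e2]
  rw [e1, e2] at h
  rw [Nat.squarefree_mul (Nat.Coprime.mul_left (hcopu _ (Or.inr rfl)) hcopv),
    Nat.squarefree_mul (hcopu _ (Or.inl rfl))]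
  exact ⟨⟨hsq u fun p hp => (h p hp).1, hsq v fun p hp => (h p hp).2.1⟩, hsq _ fun p hp => (h p hp).2.2⟩

/-- the value as an integer -/
lemma nn_int (M u : ℕ) (hM : 1 ≤ M) (hu : 1 ≤ u) :
    ((nn M u : ℕ) : ℤ) = 16 * (M : ℤ) ^ 4 * (u : ℤ) ^ 3 - u := by
  have hb : 1 ≤ 4 * M ^ 2 * u := Nat.succ_le_of_lt (by positivity)
  unfold nn
  push_cast [Nat.cast_sub hb]
  ring

lemma nn_mod (M u n₀ : ℕ) (hM : 1 ≤ M) (hu : 1 ≤ u) (h : u + n₀ ≡ 0 [MOD 8 * M]) :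
    nn M u ≡ n₀ [MOD 8 * M] := by
  have h1 : ((8 * M : ℕ) : ℤ) ∣ (u : ℤ) + n₀ := by
    have := (Nat.modEq_zero_iff_dvd.1 h)
    exact_mod_cast this
  rw [← Int.natCast_modEq_iff, nn_int M u hM hu]
  refine (Int.modEq_iff_dvd.2 ?_)
  obtain ⟨k, hk⟩ := h1
  refine ⟨k - 2 * (M : ℤ) ^ 3 * (u : ℤ) ^ 3, ?_⟩
  push_cast at hk ⊢
  linear_combination hk

/-- the residue classes -/
lemma classes (M n₀ k : ℕ) (hM : 1 ≤ M) (hn : Squarefree n₀) :
    ∃ W u₁ : ℕ, 0 < W ∧ 1 ≤ u₁ ∧ (∀ p : ℕ, p.Prime → 8 * M < p → k < p → ¬ p ∣ 4 * M ^ 2 * W) ∧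
      ∀ u : ℕ, u ≡ u₁ [MOD W] → u + n₀ ≡ 0 [MOD 8 * M] ∧ ∀ p : ℕ, p.Prime → p ≤ k →
        ¬ p ^ 2 ∣ u ∧ ¬ p ∣ 4 * M ^ 2 * u - 1 ∧ ¬ p ∣ 4 * M ^ 2 * u + 1 ∨ 4 * M ^ 2 * u = 0 := by
  classical
  set S : Finset ℕ := (range (k + 1)).filter (fun p => p.Prime ∧ ¬ p ∣ 2 * M) with hS
  set R : ℕ := ∏ p ∈ S, p with hR
  have hSp : ∀ p ∈ S, p.Prime := fun p hp => (mem_filter.1 hp).2.1
  have hR0 : 0 < R := Finset.prod_pos fun p hp => (hSp p hp).pos
  have hpR : ∀ p : ℕ, p.Prime → p ∣ R → p ∈ S := by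
    intro p hp h
    rw [hR, (Nat.Prime.prime hp).dvd_finset_prod_iff] at h
    obtain ⟨l, hl, hpl⟩ := h
    rw [(Nat.prime_dvd_prime_iff_eq hp (hSp l hl)).1 hpl]
    exact hl
  have hRsq : Squarefree R := by
    rw [hR]
    refine Finset.squarefree_prod_of_pairwise_isCoprime ?_ fun p hp => (hSp p hp).squarefree
    intro p hp l hl hpl
    rw [Function.onFun, ← Nat.coprime_iff_isRelPrime]
    exact (Nat.coprime_primes (hSp p hp) (hSp l hl)).2 hpl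
  have hcop : Nat.Coprime ((8 * M) ^ 2) (R ^ 2) := by
    refine Nat.Coprime.pow 2 2 ?_
    refine Nat.Coprime.symm (Nat.Coprime.prod_left fun p hp => ?_)
    rw [Nat.Prime.coprime_iff_not_dvd (hSp p hp)]
    intro h
    have h2 : ¬ p ∣ 2 * M := (mem_filter.1 hp).2.2
    rcases (hSp p hp).dvd_mul.1 h with h3 | h3
    · have h4 : p ∣ 2 := (hSp p hp).dvd_of_dvd_pow (show p ∣ 2 ^ 3 by simpa using h3)
      exact h2 (Dvd.dvd.mul_right h4 M)
    · exact h2 (Dvd.dvd.mul_left h3 2)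
  have hn0 : n₀ ≤ (8 * M) ^ 2 * n₀ := Nat.le_mul_of_pos_left _ (by positivity)
  obtain ⟨u₁, hu1, hu2⟩ := Nat.chineseRemainder hcop ((8 * M) ^ 2 * n₀ - n₀) R
  have hW0 : 0 < (8 * M) ^ 2 * R ^ 2 := by positivity
  refine ⟨(8 * M) ^ 2 * R ^ 2, u₁ + (8 * M) ^ 2 * R ^ 2, hW0, by omega, ?_, ?_⟩
  · intro p hp h8 hk hd
    have h1 : ¬ p ∣ 8 * M := fun h => by
      have := Nat.le_of_dvd (by positivity) h
      omega
    have h2 : ¬ p ∣ R := fun h => by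
      have := mem_range.1 (mem_filter.1 (hpR p hp h)).1
      omega
    have h3 : 4 * M ^ 2 ∣ (8 * M) ^ 2 := ⟨16, by ring⟩
    rcases hp.dvd_mul.1 hd with h | h
    · exact h1 (hp.dvd_of_dvd_pow (h.trans h3))
    · rcases hp.dvd_mul.1 h with h | h
      · exact h1 (hp.dvd_of_dvd_pow h)
      · exact h2 (hp.dvd_of_dvd_pow h)
  · intro u hu
    have hu' : u ≡ u₁ [MOD (8 * M) ^ 2 * R ^ 2] := by
      refine hu.trans ?_
      exact (Nat.modEq_iff_dvd' (by omega)).2 ⟨1, by omega⟩ |>.symm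
    have ha : u ≡ (8 * M) ^ 2 * n₀ - n₀ [MOD (8 * M) ^ 2] := (hu'.of_mul_right _).trans hu1
    have hb : u ≡ R [MOD R ^ 2] := (hu'.of_mul_left _).trans hu2
    have ha' : u + n₀ ≡ 0 [MOD (8 * M) ^ 2] := by
      have := ha.add_right n₀
      rw [Nat.sub_add_cancel hn0] at this
      exact this.trans (Nat.modEq_zero_iff_dvd.2 (dvd_mul_right _ _))
    refine ⟨ha'.of_dvd (by rw [pow_two]; exact dvd_mul_right _ _), fun p hp hpk => ?_⟩
    rcases Nat.eq_zero_or_pos (4 * M ^ 2 * u) with h0 | h0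
    · exact Or.inr h0
    left
    by_cases hpM : p ∣ 2 * M
    · have h1 : p ^ 2 ∣ (8 * M) ^ 2 := pow_dvd_pow_of_dvd (hpM.trans ⟨4, by ring⟩) 2
      have h2 : p ∣ 4 * M ^ 2 * u := by
        refine Dvd.dvd.mul_right ?_ u
        exact hpM.trans ⟨2 * M, by ring⟩
      refine ⟨fun h => ?_, fun h => ?_, fun h => ?_⟩
      · have h3 : p ^ 2 ∣ u + n₀ := h1.trans (Nat.modEq_zero_iff_dvd.1 ha')
        have h4 : p ^ 2 ∣ n₀ := (Nat.dvd_add_right h).1 h3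
        have h5 : IsUnit p := hn p (by rw [← pow_two]; exact h4)
        exact hp.one_lt.ne' (Nat.isUnit_iff.1 h5)
      · have h3 : p ∣ 1 := by
          have := Nat.dvd_sub h2 h
          rwa [Nat.sub_sub_self h0] at this
        exact hp.one_lt.ne' (Nat.dvd_one.1 h3)
      · have h3 : p ∣ 1 := (Nat.dvd_add_right h2).1 h
        exact hp.one_lt.ne' (Nat.dvd_one.1 h3)
    · have hpS : p ∈ S := mem_filter.2 ⟨mem_range.2 (by omega), hp, hpM⟩
      have hpR' : p ∣ R := dvd_prod_of_mem _ hpS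
      have h1 : p ^ 2 ∣ R ^ 2 := pow_dvd_pow_of_dvd hpR' 2
      have hb' : u ≡ R [MOD p ^ 2] := hb.of_dvd h1
      have hpu : p ∣ u := by
        have h2 : u ≡ R [MOD p] := hb'.of_dvd (dvd_pow_self p (by norm_num))
        exact (Nat.modEq_zero_iff_dvd.1 (h2.trans (Nat.modEq_zero_iff_dvd.2 hpR')))
      have h2 : p ∣ 4 * M ^ 2 * u := Dvd.dvd.mul_left hpu _
      refine ⟨fun h => ?_, fun h => ?_, fun h => ?_⟩
      · have h3 : p ^ 2 ∣ R := Nat.modEq_zero_iff_dvd.1 (hb'.symm.trans (Nat.modEq_zero_iff_dvd.2 h))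
        have h5 : IsUnit p := hRsq p (by rw [← pow_two]; exact h3)
        exact hp.one_lt.ne' (Nat.isUnit_iff.1 h5)
      · have h3 : p ∣ 1 := by
          have := Nat.dvd_sub h2 h
          rwa [Nat.sub_sub_self h0] at this
        exact hp.one_lt.ne' (Nat.dvd_one.1 h3)
      · have h3 : p ∣ 1 := (Nat.dvd_add_right h2).1 h
        exact hp.one_lt.ne' (Nat.dvd_one.1 h3)

end Pool.Agent.U552.CN
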