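import Pool.Agent.H373R2.NB.Weyl

/-!
Sequences on tori with small Weyl sums visit open sets with positive frequency; Weyl's theorem for real polynomials,
uniformly in the lower coefficients. `equi` and `weyl_inv` are the corresponding statements of `Pool.Agent.R509.PP`
(helper509, starting library) with their proofs.
-/

set_option autoImplicit false

namespace Pool.Agent.U552.CN

open Finset MeasureTheory Polynomial
open Pool.Agent.H373R2.NB (Ph IW IW_all)
open Pool.Agent.Helper602.MK (ee)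

instance probCirc : IsProbabilityMeasure (volume : Measure UnitAddCircle) := ⟨UnitAddCircle.measure_univ⟩

instance probTor (m : ℕ) : IsProbabilityMeasure (volume : Measure (Fin m → UnitAddCircle)) := by
  rw [volume_pi]; infer_instance

/-- the point of the torus with given real coordinates -/
def pt {m : ℕ} (x : Fin m → ℝ) : Fin m → UnitAddCircle := fun i => (x i : UnitAddCircle)

lemma mF_apply {m : ℕ} (k : Fin m → ℤ) (y : Fin m → UnitAddCircle) :
    UnitAddTorus.mFourier k y = ∏ i, fourier (k i) (y i) := rfl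

lemma mF_pt {m : ℕ} (k : Fin m → ℤ) (x : Fin m → ℝ) : UnitAddTorus.mFourier k (pt x) = ee (∑ i, k i * x i) := by
  rw [mF_apply]
  unfold pt ee
  simp only [fourier_coe_apply]
  rw [← Complex.exp_sum]
  congr 1
  push_cast
  rw [mul_sum, sum_mul]
  apply sum_congr rfl
  intro i _
  simp only [div_one]
  ring

lemma int_fourier (n : ℤ) (hn : n ≠ 0) : ∫ y : UnitAddCircle, (fourier n y : ℂ) = 0 := by
  have ha : ∃ a : UnitAddCircle, (fourier n a : ℂ) ≠ 1 := by
    refine ⟨((1 / (2 * n) : ℝ) : UnitAddCircle), ?_⟩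
    rw [fourier_coe_apply]
    have hn' : (n : ℂ) ≠ 0 := by exact_mod_cast hn
    have : 2 * (Real.pi : ℂ) * Complex.I * n * ((1 / (2 * n) : ℝ) : ℂ) / ((1 : ℝ) : ℂ) = Real.pi * Complex.I := by
      push_cast
      field_simp
    rw [this, Complex.exp_pi_mul_I]
    norm_num
  obtain ⟨a, ha⟩ := ha
  have h1 : ∫ x : UnitAddCircle, (fourier n (x + a) : ℂ) = ∫ x : UnitAddCircle, (fourier n x : ℂ) :=
    integral_add_right_eq_self (fun x => (fourier n x : ℂ)) a
  have h2 : ∀ x : UnitAddCircle, (fourier n (x + a) : ℂ) = fourier n x * fourier n a := by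
    intro x
    simp only [fourier_apply]
    rw [smul_add, AddCircle.toCircle_add]; simp
  simp_rw [h2] at h1
  rw [integral_mul_const] at h1
  have h3 : (∫ x : UnitAddCircle, (fourier n x : ℂ)) * (fourier n a - 1) = 0 := by
    rw [mul_sub, h1, mul_one, sub_self]
  rcases mul_eq_zero.1 h3 with h4 | h4
  · exact h4
  · exact absurd (sub_eq_zero.1 h4) ha

lemma int_mF {m : ℕ} (k : Fin m → ℤ) (h : k ≠ 0) :
    ∫ y : Fin m → UnitAddCircle, (UnitAddTorus.mFourier k y : ℂ) = 0 := by
  obtain ⟨i, hk⟩ := Function.ne_iff.1 h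
  have h2 := integral_fintype_prod_volume_eq_prod (𝕜 := ℂ) (fun (j : Fin m) (t : UnitAddCircle) => (fourier (k j) t : ℂ))
  have h1 : ∀ y : Fin m → UnitAddCircle, (UnitAddTorus.mFourier k y : ℂ) =
      ∏ j, (fun (j : Fin m) (t : UnitAddCircle) => (fourier (k j) t : ℂ)) j (y j) := fun y => mF_apply k y
  rw [integral_congr_ae (Filter.Eventually.of_forall h1), h2]
  exact prod_eq_zero (mem_univ i) (int_fourier _ hk)

/-- equidistribution of a single continuous function -/
lemma equi {m : ℕ} (G : C(Fin m → UnitAddCircle, ℂ)) (κ : ℝ) (hκ : 0 < κ) :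
    ∃ 𝒦 : Finset (Fin m → ℤ), ∃ δ : ℝ, 0 < δ ∧ ∀ (z : ℕ → Fin m → UnitAddCircle) (K : ℕ),
      (∀ k ∈ 𝒦, k ≠ 0 → ‖∑ n ∈ range K, (UnitAddTorus.mFourier k (z n) : ℂ)‖ ≤ δ * K) →
      ‖∑ n ∈ range K, G (z n) - K * ∫ y : Fin m → UnitAddCircle, G y‖ ≤ κ * K := by
  have h1 : G ∈ (Submodule.span ℂ (Set.range (UnitAddTorus.mFourier (d := Fin m)))).topologicalClosure := by
    rw [UnitAddTorus.span_mFourier_closure_eq_top]
    trivial
  have h2 : G ∈ closure ((Submodule.span ℂ (Set.range (UnitAddTorus.mFourier (d := Fin m))) : Submodule ℂ C(UnitAddTorus (Fin m), ℂ)) : Set C(UnitAddTorus (Fin m), ℂ)) := h1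
  rw [Metric.mem_closure_iff] at h2
  obtain ⟨p, hp, hd⟩ := h2 (κ / 3) (by positivity)
  obtain ⟨a, ha⟩ := (Finsupp.mem_span_range_iff_exists_finsupp).1 hp
  set T : ℝ := ∑ k ∈ a.support, ‖a k‖ with hT
  have hT0 : 0 ≤ T := sum_nonneg fun _ _ => norm_nonneg _
  refine ⟨a.support, κ / (3 * (T + 1)), by positivity, fun z K hW => ?_⟩
  have hK0 : (0 : ℝ) ≤ K := Nat.cast_nonneg K
  have hpe : ∀ x, p x = ∑ k ∈ a.support, a k * UnitAddTorus.mFourier k x := by
    intro x
    rw [← ha, Finsupp.sum, ContinuousMap.sum_apply]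
    apply sum_congr rfl
    intro k _
    rw [ContinuousMap.smul_apply, smul_eq_mul]
  have hGp : ∀ x, ‖G x - p x‖ ≤ κ / 3 := by
    intro x
    have := ContinuousMap.dist_apply_le_dist (f := G) (g := p) x
    rw [dist_eq_norm] at this
    exact this.trans hd.le
  have hint : ∀ g : C(Fin m → UnitAddCircle, ℂ), Integrable (fun y : Fin m → UnitAddCircle => g y) := by
    intro g
    exact g.continuous.integrable_of_hasCompactSupport (HasCompactSupport.of_compactSpace _)
  have e1 : ∑ n ∈ range K, p (z n) - K * ∫ y : Fin m → UnitAddCircle, p y =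
      ∑ k ∈ a.support, a k * (∑ n ∈ range K, (UnitAddTorus.mFourier k (z n) : ℂ) -
        K * ∫ y : Fin m → UnitAddCircle, (UnitAddTorus.mFourier k y : ℂ)) := by
    simp_rw [hpe]
    rw [integral_finsetSum _ (fun k _ => (hint (UnitAddTorus.mFourier k)).const_mul (a k))]
    simp_rw [integral_const_mul]
    rw [sum_comm, mul_sum, ← sum_sub_distrib]
    apply sum_congr rfl
    intro k _
    rw [← mul_sum]
    ring
  have e2 : ∀ k ∈ a.support, ‖a k * (∑ n ∈ range K, (UnitAddTorus.mFourier k (z n) : ℂ) -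
        K * ∫ y : Fin m → UnitAddCircle, (UnitAddTorus.mFourier k y : ℂ))‖ ≤ ‖a k‖ * (κ / (3 * (T + 1)) * K) := by
    intro k hk
    rw [norm_mul]
    apply mul_le_mul_of_nonneg_left _ (norm_nonneg _)
    by_cases hac : k ≠ 0
    · rw [int_mF k hac, mul_zero, sub_zero]
      exact hW k hk hac
    · push Not at hac
      subst hac
      simp only [UnitAddTorus.mFourier_zero, ContinuousMap.one_apply, sum_const, card_range, nsmul_eq_mul, mul_one,
        integral_const, probReal_univ, one_smul, sub_self, norm_zero]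
      positivity
  have e3 : ‖∑ n ∈ range K, p (z n) - K * ∫ y : Fin m → UnitAddCircle, p y‖ ≤ κ / 3 * K := by
    rw [e1]
    refine (norm_sum_le _ _).trans ((sum_le_sum e2).trans ?_)
    rw [← sum_mul, ← hT]
    have h5 : T * (κ / (3 * (T + 1))) ≤ κ / 3 := by
      rw [mul_div_assoc', div_le_div_iff₀ (by positivity) (by norm_num)]
      nlinarith
    nlinarith
  have e4 : ‖∑ n ∈ range K, (G (z n) - p (z n))‖ ≤ κ / 3 * K := by
    refine (norm_sum_le _ _).trans ((sum_le_sum fun n _ => hGp (z n)).trans (le_of_eq ?_))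
    rw [sum_const, card_range, nsmul_eq_mul]; ring
  have e5 : ‖∫ y : Fin m → UnitAddCircle, (G y - p y)‖ ≤ κ / 3 := by
    refine (norm_integral_le_of_norm_le_const (C := κ / 3) (Filter.Eventually.of_forall fun y => hGp _)).trans (le_of_eq ?_)
    simp
  have e6 : ∑ n ∈ range K, G (z n) - K * ∫ y : Fin m → UnitAddCircle, G y =
      (∑ n ∈ range K, p (z n) - K * ∫ y : Fin m → UnitAddCircle, p y) +
      ∑ n ∈ range K, (G (z n) - p (z n)) - K * ∫ y : Fin m → UnitAddCircle, (G y - p y) := by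
    rw [integral_sub (hint G) (hint p), sum_sub_distrib]
    ring
  rw [e6]
  refine (norm_sub_le _ _).trans ?_
  have e7 := norm_add_le (∑ n ∈ range K, p (z n) - K * ∫ y : Fin m → UnitAddCircle, p y) (∑ n ∈ range K, (G (z n) - p (z n)))
  have e8 : ‖(K : ℂ) * ∫ y : Fin m → UnitAddCircle, (G y - p y)‖ ≤ κ / 3 * K := by
    rw [norm_mul, Complex.norm_natCast, mul_comm]
    exact mul_le_mul_of_nonneg_right e5 hK0
  linarith

open Classical in
/-- sequences with small Weyl sums visit an open set with positive frequency -/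
theorem visits {m : ℕ} (O : Set (Fin m → UnitAddCircle)) (hO : IsOpen O) (hne : O.Nonempty) :
    ∃ c : ℝ, 0 < c ∧ ∃ 𝒦 : Finset (Fin m → ℤ), ∃ δ : ℝ, 0 < δ ∧ ∀ (x : ℕ → Fin m → ℝ) (K : ℕ),
      (∀ k ∈ 𝒦, k ≠ 0 → ‖∑ n ∈ range K, ee (∑ i, k i * x n i)‖ ≤ δ * K) →
      c * K ≤ (((range K).filter fun n => pt (x n) ∈ O).card : ℝ) := by
  obtain ⟨y₀, hy₀⟩ := hne
  obtain ⟨f, hf0, hf1, hf⟩ := exists_continuous_zero_one_of_isClosed hO.isClosed_compl
    (isClosed_singleton (x := y₀)) (by
      rw [Set.disjoint_singleton_right]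
      exact fun h => h hy₀)
  have hfi : Integrable (fun y : Fin m → UnitAddCircle => f y) :=
    f.continuous.integrable_of_hasCompactSupport (HasCompactSupport.of_compactSpace _)
  have hpos : 0 < ∫ y, f y := by
    refine Continuous.integral_pos_of_hasCompactSupport_nonneg_nonzero (x := y₀) f.continuous
      (HasCompactSupport.of_compactSpace _) (fun y => (hf y).1) ?_
    rw [hf1 (Set.mem_singleton y₀)]
    simp
  obtain ⟨𝒦, δ, hδ, h⟩ := equi (⟨fun y => ((f y : ℝ) : ℂ), Complex.continuous_ofReal.comp f.continuous⟩ :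
    C(Fin m → UnitAddCircle, ℂ)) ((∫ y, f y) / 2) (by positivity)
  refine ⟨(∫ y, f y) / 2, by positivity, 𝒦, δ, hδ, fun x K hW => ?_⟩
  have h1 := h (fun n => pt (x n)) K (fun k hk hk0 => by
    simp only [mF_pt]
    exact hW k hk hk0)
  simp only [ContinuousMap.coe_mk] at h1
  rw [integral_complex_ofReal, ← Complex.ofReal_sum, ← Complex.ofReal_natCast, ← Complex.ofReal_mul,
    ← Complex.ofReal_sub, Complex.norm_real, Real.norm_eq_abs] at h1
  have h2 := (abs_le.1 h1).1
  have h3 : ∑ n ∈ range K, f (pt (x n)) ≤ (((range K).filter fun n => pt (x n) ∈ O).card : ℝ) := by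
    rw [card_filter, Nat.cast_sum]
    refine sum_le_sum fun n _ => ?_
    by_cases hn : pt (x n) ∈ O
    · rw [if_pos hn]
      simpa using (hf _).2
    · rw [if_neg hn, hf0 (show pt (x n) ∈ Oᶜ from hn)]
      simp
  linarith

lemma Ph_real (d : ℕ) : ∀ f : ℝ[X], f.natDegree ≤ d →
    Ph d ((d.factorial : ℝ) * f.coeff d) (fun n => f.eval (n : ℝ)) := by
  induction d with
  | zero =>
    intro f hf n
    have h1 : f = C (f.coeff 0) := eq_C_of_natDegree_le_zero hf
    have h2 : f.eval (n : ℝ) = f.coeff 0 := by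
      conv_lhs => rw [h1]
      rw [eval_C]
    show f.eval (n : ℝ) = _
    rw [h2]; simp
  | succ d ih =>
    intro f hf h
    set g : ℝ[X] := taylor (h : ℝ) f - f with hg
    have hcoef : ∀ j, d ≤ j → (taylor (h : ℝ) f).coeff j = f.coeff j + (if j = d then ((d : ℝ) + 1) * f.coeff (d + 1) * h else 0) := by
      intro j hj
      rw [taylor_coeff]
      have h1 : (hasseDeriv j f).natDegree < 2 := by
        have := natDegree_hasseDeriv_le f j
        omega
      rw [eval_eq_sum_range' h1, sum_range_succ, sum_range_succ, sum_range_zero, hasseDeriv_coeff, hasseDeriv_coeff]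
      rcases eq_or_ne j d with h2 | h2
      · subst h2
        rw [if_pos rfl, zero_add, zero_add, Nat.choose_self, add_comm 1 j, Nat.choose_succ_self_right]
        push_cast
        ring
      · rw [if_neg h2]
        have h3 : f.coeff (1 + j) = 0 := coeff_eq_zero_of_natDegree_lt (by omega)
        rw [h3, zero_add, zero_add, Nat.choose_self]
        push_cast
        ring
    have hgd : g.natDegree ≤ d := by
      rw [natDegree_le_iff_coeff_eq_zero]
      intro j hj
      rw [hg, coeff_sub, hcoef j (by omega), if_neg (by omega)]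
      ring
    have hgc : g.coeff d = ((d : ℝ) + 1) * f.coeff (d + 1) * h := by
      rw [hg, coeff_sub, hcoef d le_rfl, if_pos rfl]; ring
    have h1 := ih g hgd
    have h2 : (fun n : ℕ => g.eval (n : ℝ)) = fun n : ℕ =>
        f.eval ((n + h : ℕ) : ℝ) - f.eval (n : ℝ) := by
      funext n
      rw [hg, eval_sub, taylor_eval]
      push_cast
      ring
    have h3 : (d.factorial : ℝ) * g.coeff d = (h : ℝ) * (((d + 1).factorial : ℝ) * f.coeff (d + 1)) := by
      rw [hgc, Nat.factorial_succ]; push_cast; ring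
    rw [h2, h3] at h1
    exact h1

/-- a large Weyl sum gives a rational approximation of the leading coefficient -/
lemma weyl_inv (d : ℕ) (hd : 1 ≤ d) (δ : ℝ) (hδ : 0 < δ) : ∃ W : ℝ, 1 ≤ W ∧ ∀ (K : ℕ) (φ : ℝ[X]), 1 ≤ K → φ.natDegree ≤ d →
    δ * K < ‖∑ n ∈ range K, ee (φ.eval (n : ℝ))‖ →
    ∃ q : ℕ, 1 ≤ q ∧ (q : ℝ) ≤ W ∧ ∃ a : ℤ, |q * ((d.factorial : ℝ) * φ.coeff d) - a| ≤ W / (K : ℝ) ^ d := by
  obtain ⟨c, m, hc, h⟩ := IW_all d hd
  set u : ℝ := max 1 (1 / δ) with hu
  have hu1 : 1 ≤ u := le_max_left _ _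
  have hc1 : (1 : ℝ) ≤ c := by exact_mod_cast hc
  have hum : 1 ≤ u ^ m := one_le_pow₀ hu1
  refine ⟨c * u ^ m, by nlinarith, fun K φ hK hφ hS => ?_⟩
  have h1 : (K : ℝ) ≤ u * ‖∑ n ∈ range K, ee (φ.eval (n : ℝ))‖ := by
    have h3 : 1 / δ ≤ u := le_max_right _ _
    have h4 : 1 ≤ u * δ := by
      rw [div_le_iff₀ hδ] at h3
      exact h3
    have hK0 : (0 : ℝ) ≤ K := Nat.cast_nonneg K
    have h5 : u * (δ * K) ≤ u * ‖∑ n ∈ range K, ee (φ.eval (n : ℝ))‖ := mul_le_mul_of_nonneg_left hS.le (by linarith)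
    nlinarith
  obtain ⟨q, hq1, hq2, a, ha⟩ := h K u _ _ hK hu1 (Ph_real d φ hφ) h1
  exact ⟨q, hq1, hq2, a, ha⟩

end Pool.Agent.U552.CN
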