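import Pool.Agent.U552.CN.Tor

/-!
Weyl's theorem for real polynomials, uniformly in the starting point and along progressions.
-/

set_option autoImplicit false

namespace Pool.Agent.U552.CN

open Finset Polynomial
open Pool.Agent.Helper602.MK (ee)
open Pool.Agent.Helper602.MK.N_J5b (ee_add ee_zero norm_ee ee_int)

lemma irr_away {β : ℝ} (hβ : Irrational β) (W : ℝ) :
    ∃ η : ℝ, 0 < η ∧ ∀ q : ℕ, 1 ≤ q → (q : ℝ) ≤ W → ∀ a : ℤ, η ≤ |q * β - a| := by
  rcases (Icc 1 ⌊W⌋₊).eq_empty_or_nonempty with he | hne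
  · refine ⟨1, one_pos, fun q hq hqW a => ?_⟩
    exfalso
    have : q ∈ Icc 1 ⌊W⌋₊ := mem_Icc.2 ⟨hq, Nat.le_floor hqW⟩
    rw [he] at this
    simp at this
  · obtain ⟨q₀, hq₀, hmin⟩ := (Icc 1 ⌊W⌋₊).exists_min_image (fun q : ℕ => |(q : ℝ) * β - round ((q : ℝ) * β)|) hne
    have h1 : 1 ≤ q₀ := (mem_Icc.1 hq₀).1
    refine ⟨|(q₀ : ℝ) * β - round ((q₀ : ℝ) * β)|, ?_, fun q hq hqW a => ?_⟩
    · rw [abs_pos, sub_ne_zero]
      have h2 : Irrational ((q₀ : ℝ) * β) := hβ.natCast_mul (by omega)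
      intro h
      exact h2 ⟨(round ((q₀ : ℝ) * β) : ℤ), by rw [h]; simp⟩
    · exact (hmin q (mem_Icc.2 ⟨hq, Nat.le_floor hqW⟩)).trans (round_le _ a)

lemma weyl_leading {d : ℕ} (hd : 1 ≤ d) {α : ℝ} (hα : Irrational α) {ε : ℝ} (hε : 0 < ε) :
    ∃ K₀ : ℕ, ∀ K : ℕ, K₀ ≤ K → ∀ φ : ℝ[X], φ.natDegree ≤ d → φ.coeff d = α →
      ‖∑ n ∈ range K, ee (φ.eval (n : ℝ))‖ ≤ ε * K := by
  obtain ⟨W, hW, h⟩ := weyl_inv d hd ε hε
  have hβ : Irrational ((d.factorial : ℝ) * α) := hα.natCast_mul d.factorial_ne_zero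
  obtain ⟨η, hη, hη2⟩ := irr_away hβ W
  refine ⟨⌈W / η⌉₊ + 1, fun K hK φ hφ hφ2 => ?_⟩
  by_contra hcon
  push Not at hcon
  have hK1 : 1 ≤ K := by omega
  have hK2 : W / η < K := by
    have h1 := Nat.le_ceil (W / η)
    have h2 : ((⌈W / η⌉₊ : ℕ) : ℝ) + 1 ≤ K := by exact_mod_cast hK
    linarith
  obtain ⟨q, hq1, hq2, a, ha⟩ := h K φ hK1 hφ hcon
  rw [hφ2] at ha
  have h1 := hη2 q hq1 hq2 a
  have hK0 : (0 : ℝ) < K := by exact_mod_cast hK1
  have h2 : (K : ℝ) ≤ (K : ℝ) ^ d := le_self_pow₀ (by exact_mod_cast hK1) (by omega)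
  have h3 : W / (K : ℝ) ^ d ≤ W / K := div_le_div_of_nonneg_left (by linarith) hK0 h2
  have h4 : W / K < η := by
    rw [div_lt_iff₀ hK0]
    rw [div_lt_iff₀ hη] at hK2
    linarith
  linarith

lemma sum_prog (a : ℕ → ℂ) (q K : ℕ) :
    ∑ n ∈ range (q * K), a n = ∑ r ∈ range q, ∑ s ∈ range K, a (q * s + r) := by
  induction K with
  | zero => simp
  | succ K ih =>
    rw [Nat.mul_succ, sum_range_add, ih, ← sum_add_distrib]
    refine sum_congr rfl fun r _ => ?_
    rw [sum_range_succ]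

lemma split_sum {a : ℕ → ℂ} (ha : ∀ n, ‖a n‖ ≤ 1) {q : ℕ} (hq : 0 < q) (K : ℕ) :
    ‖∑ n ∈ range K, a n‖ ≤ ∑ r ∈ range q, ‖∑ s ∈ range (K / q), a (q * s + r)‖ + q := by
  have h1 : ∑ n ∈ range K, a n = ∑ n ∈ range (q * (K / q)), a n + ∑ i ∈ range (K % q), a (q * (K / q) + i) := by
    rw [← sum_range_add, Nat.div_add_mod]
  rw [h1, sum_prog]
  refine (norm_add_le _ _).trans (add_le_add (norm_sum_le _ _) ?_)
  refine (norm_sum_le _ _).trans ((sum_le_sum fun i _ => ha _).trans ?_)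
  rw [sum_const, card_range, nsmul_eq_mul, mul_one]
  exact_mod_cast (Nat.mod_lt K hq).le

lemma rat_phase (D q a : ℕ) (b : ℤ) (hq : 0 < q) (x y : ℕ) (h : x = y + q * a) :
    ee ((b : ℝ) / q * (x : ℝ) ^ D) = ee ((b : ℝ) / q * (y : ℝ) ^ D) := by
  have h1 : (q : ℤ) ∣ (x : ℤ) ^ D - (y : ℤ) ^ D := by
    refine Dvd.dvd.trans ?_ (sub_dvd_pow_sub_pow (x : ℤ) (y : ℤ) D)
    exact ⟨a, by rw [h]; push_cast; ring⟩
  obtain ⟨k, hk⟩ := h1
  have hq' : (q : ℝ) ≠ 0 := by exact_mod_cast hq.ne'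
  have h2 : (x : ℝ) ^ D = (y : ℝ) ^ D + q * k := by
    have : ((x : ℤ) : ℝ) ^ D - ((y : ℤ) : ℝ) ^ D = (q : ℝ) * (k : ℝ) := by exact_mod_cast hk
    push_cast at this
    linarith
  rw [h2, show (b : ℝ) / q * ((y : ℝ) ^ D + q * k) = (b : ℝ) / q * (y : ℝ) ^ D + ((b * k : ℤ) : ℝ) by
    push_cast
    field_simp, ee_add, ee_int, mul_one]

/-- Weyl's theorem for one polynomial, uniformly in the starting point, along progressions. -/
theorem weyl_unif (D : ℕ) : ∀ P : ℝ[X], P.natDegree ≤ D → (∃ i, 1 ≤ i ∧ Irrational (P.coeff i)) →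
    ∀ ε : ℝ, 0 < ε → ∀ W : ℕ, 0 < W → ∃ K₀ : ℕ, ∀ K : ℕ, K₀ ≤ K → ∀ U : ℕ,
      ‖∑ n ∈ range K, ee (P.eval (((U + W * n : ℕ) : ℝ)))‖ ≤ ε * K := by
  induction D with
  | zero =>
    intro P hP ⟨i, hi, hirr⟩
    exfalso
    rw [coeff_eq_zero_of_natDegree_lt (by omega)] at hirr
    exact hirr ⟨0, by simp⟩
  | succ D ih =>
    intro P hP hex ε hε W hW
    by_cases hirr : Irrational (P.coeff (D + 1))
    · have hne : P.coeff (D + 1) ≠ 0 := hirr.ne_zero
      have hdeg : P.natDegree = D + 1 := le_antisymm hP (le_natDegree_of_ne_zero hne)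
      have hW0 : (W : ℝ) ≠ 0 := by exact_mod_cast hW.ne'
      have hα : Irrational (P.coeff (D + 1) * (W : ℝ) ^ (D + 1)) := by
        have := hirr.mul_natCast (m := W ^ (D + 1)) (pow_ne_zero _ hW.ne')
        push_cast at this
        exact this
      obtain ⟨K₀, h⟩ := weyl_leading (d := D + 1) (by omega) hα hε
      refine ⟨K₀, fun K hK U => ?_⟩
      have h1 := h K hK (P.comp (C (W : ℝ) * X + C (U : ℝ))) (by
        rw [natDegree_comp, natDegree_linear hW0, hdeg, mul_one]) (by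
        have h2 := coeff_comp_degree_mul_degree (p := P) (q := C (W : ℝ) * X + C (U : ℝ)) (by
          rw [natDegree_linear hW0]
          omega)
        rw [natDegree_linear hW0, hdeg, mul_one, leadingCoeff_linear hW0, leadingCoeff, hdeg] at h2
        exact h2)
      refine le_trans (le_of_eq ?_) h1
      congr 1
      refine sum_congr rfl fun n _ => ?_
      rw [eval_comp, eval_add, eval_mul, eval_C, eval_X, eval_C]
      congr 2
      push_cast
      ring
    · obtain ⟨i, hi, hi2⟩ := hex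
      rw [Irrational, not_not] at hirr
      obtain ⟨c, hc⟩ := hirr
      have hiD : i ≠ D + 1 := by
        rintro rfl
        exact hi2 ⟨c, hc⟩
      set P' : ℝ[X] := P - C (c : ℝ) * X ^ (D + 1) with hP'
      have hP'd : P'.natDegree ≤ D := by
        rw [natDegree_le_iff_coeff_eq_zero]
        intro j hj
        rw [hP', coeff_sub, coeff_C_mul, coeff_X_pow]
        rcases eq_or_ne j (D + 1) with h | h
        · rw [if_pos h, h, hc]
          simp
        · rw [if_neg h, coeff_eq_zero_of_natDegree_lt (by omega)]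
          simp
      have hP'i : P'.coeff i = P.coeff i := by
        rw [hP', coeff_sub, coeff_C_mul, coeff_X_pow, if_neg hiD]
        simp
      have hden : 0 < c.den := c.pos
      obtain ⟨K₀, h⟩ := ih P' hP'd ⟨i, hi, hP'i ▸ hi2⟩ (ε / 2) (by positivity) (W * c.den) (by positivity)
      refine ⟨c.den * (K₀ + 1) + ⌈2 * (c.den : ℝ) / ε⌉₊, fun K hK U => ?_⟩
      have hK1 : K₀ ≤ K / c.den := by
        rw [Nat.le_div_iff_mul_le hden]
        nlinarith
      have hK2 : 2 * (c.den : ℝ) / ε ≤ K := by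
        have h1 := Nat.le_ceil (2 * (c.den : ℝ) / ε)
        have h2 : ((⌈2 * (c.den : ℝ) / ε⌉₊ : ℕ) : ℝ) ≤ K := by
          have : ⌈2 * (c.den : ℝ) / ε⌉₊ ≤ K := by omega
          exact_mod_cast this
        linarith
      have h3 := split_sum (a := fun n => ee (P.eval (((U + W * n : ℕ) : ℝ)))) (fun n => (norm_ee _).le) hden K
      have h4 : ∀ r ∈ range c.den, ‖∑ s ∈ range (K / c.den),
          ee (P.eval (((U + W * (c.den * s + r) : ℕ) : ℝ)))‖ ≤ ε / 2 * ((K / c.den : ℕ) : ℝ) := by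
        intro r _
        have h5 := h (K / c.den) hK1 (U + W * r)
        refine le_trans (le_of_eq ?_) h5
        have h6 : ∀ s : ℕ, ee (P.eval (((U + W * (c.den * s + r) : ℕ) : ℝ))) =
            ee ((c.num : ℝ) / c.den * ((U + W * r : ℕ) : ℝ) ^ (D + 1)) *
              ee (P'.eval (((U + W * r + W * c.den * s : ℕ) : ℝ))) := by
          intro s
          rw [← rat_phase (D + 1) c.den (W * s) c.num hden (U + W * (c.den * s + r)) (U + W * r) (by ring), ← ee_add]
          congr 1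
          have h7 : U + W * r + W * c.den * s = U + W * (c.den * s + r) := by ring
          rw [h7, hP', eval_sub, eval_mul, eval_C, eval_pow, eval_X]
          have h8 : (c : ℝ) = (c.num : ℝ) / c.den := by
            rw [Rat.cast_def]
          rw [h8]
          ring
        rw [sum_congr rfl fun s _ => h6 s, ← mul_sum, norm_mul, norm_ee, one_mul]
      have h9 : ((c.den : ℕ) : ℝ) * ((K / c.den : ℕ) : ℝ) ≤ K := by
        exact_mod_cast Nat.mul_div_le K c.den
      have h10 := sum_le_sum h4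
      rw [sum_const, card_range, nsmul_eq_mul] at h10
      rw [div_le_iff₀ hε] at hK2
      have h11 : (c.den : ℝ) * (ε / 2 * ((K / c.den : ℕ) : ℝ)) ≤ ε / 2 * K := by
        nlinarith
      linarith

/-- composition with an integral polynomial keeps irrational coefficients -/
lemma irr_comp (G : ℤ[X]) (hG : G.natDegree ≠ 0) (D : ℕ) : ∀ P : ℝ[X], P.natDegree ≤ D →
    (∃ i, 1 ≤ i ∧ Irrational (P.coeff i)) →
      ∃ i, 1 ≤ i ∧ Irrational ((P.comp (G.map (Int.castRingHom ℝ))).coeff i) := by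
  have hGm : (G.map (Int.castRingHom ℝ)).natDegree = G.natDegree :=
    natDegree_map_eq_of_injective (RingHom.injective_int _) G
  have hGl : (G.map (Int.castRingHom ℝ)).leadingCoeff = (G.leadingCoeff : ℝ) := by
    rw [leadingCoeff, hGm, coeff_map]
    rfl
  induction D with
  | zero =>
    intro P hP ⟨i, hi, hirr⟩
    exfalso
    rw [coeff_eq_zero_of_natDegree_lt (by omega)] at hirr
    exact hirr ⟨0, by simp⟩
  | succ D ih =>
    intro P hP hex
    by_cases hirr : Irrational (P.coeff (D + 1))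
    · have hdeg : P.natDegree = D + 1 := le_antisymm hP (le_natDegree_of_ne_zero hirr.ne_zero)
      refine ⟨(D + 1) * G.natDegree, Nat.mul_pos (by omega) (Nat.pos_of_ne_zero hG), ?_⟩
      have h2 := coeff_comp_degree_mul_degree (p := P) (q := G.map (Int.castRingHom ℝ)) (by rw [hGm]; exact hG)
      rw [hGm, hdeg, hGl, leadingCoeff, hdeg] at h2
      rw [h2]
      have hne : G.leadingCoeff ^ (D + 1) ≠ 0 := pow_ne_zero _ (by
        rw [Ne, leadingCoeff_eq_zero]
        rintro rfl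
        simp at hG)
      have h3 := hirr.mul_intCast hne
      push_cast at h3
      exact h3
    · obtain ⟨i, hi, hi2⟩ := hex
      rw [Irrational, not_not] at hirr
      obtain ⟨c, hc⟩ := hirr
      have hiD : i ≠ D + 1 := by
        rintro rfl
        exact hi2 ⟨c, hc⟩
      set P' : ℝ[X] := P - C (c : ℝ) * X ^ (D + 1) with hP'
      have hP'd : P'.natDegree ≤ D := by
        rw [natDegree_le_iff_coeff_eq_zero]
        intro j hj
        rw [hP', coeff_sub, coeff_C_mul, coeff_X_pow]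
        rcases eq_or_ne j (D + 1) with h | h
        · rw [if_pos h, h, hc]
          simp
        · rw [if_neg h, coeff_eq_zero_of_natDegree_lt (by omega)]
          simp
      have hP'i : P'.coeff i = P.coeff i := by
        rw [hP', coeff_sub, coeff_C_mul, coeff_X_pow, if_neg hiD]
        simp
      obtain ⟨l, hl, hl2⟩ := ih P' hP'd ⟨i, hi, hP'i ▸ hi2⟩
      refine ⟨l, hl, ?_⟩
      have h1 : P = P' + C (c : ℝ) * X ^ (D + 1) := by rw [hP']; ring
      rw [h1, add_comp, coeff_add, mul_comp, C_comp, X_pow_comp, coeff_C_mul, ← Polynomial.map_pow, coeff_map]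
      have h2 := hl2.add_ratCast (c * ((G ^ (D + 1)).coeff l : ℤ))
      push_cast at h2
      exact h2

end Pool.Agent.U552.CN
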